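import Mathlib
import Pool.Agent.Lib.MP_caab05_ag.ZE.Defs
import Pool.Agent.Lib.MP_caab05_ag.LT.Defs4

/-! Landau levels of a theta function and subspaces with prescribed slopes. -/

namespace Pool.Agent.Lib.MP_caab05_ag.WZ

open MvPolynomial Filter Topology Asymptotics Complex
open Pool.Agent.Lib.MP_caab05_ag.LT (AlgCoeff val)

/-- the Lie algebra of the vector extension -/
abbrev EE (κ : Type) : Type := κ ⊕ κ → ℂ

section Levels

variable {κ : Type}

def zz (x : EE κ) : κ → ℂ := fun k => x (.inl k)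

def uu (x : EE κ) : κ → ℂ := fun k => x (.inr k)

/-- the antilinear map attached to the hermitian form -/
noncomputable def hc (h : κ → ℝ) (z : κ → ℂ) : κ → ℂ := fun k => h k * starRingEnd ℂ (z k)

/-- periods and quasi-periods -/
noncomputable def lf (h : κ → ℝ) (z : κ → ℂ) : EE κ := Sum.elim z (hc h z)

variable [Fintype κ]

/-- half of the hermitian form -/
noncomputable def qf (h : κ → ℝ) (z : κ → ℂ) : ℝ := ∑ k, h k * ‖z k‖ ^ 2 / 2

/-- the canonical factor of automorphy -/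
def Law (θ : (κ → ℂ) → ℂ) (h : κ → ℝ) (l : κ → ℂ) : Prop :=
  ∃ b : ℂ, b.re = qf h l ∧ ∀ z, θ (z + l) = cexp (hc h l ⬝ᵥ z + b) * θ z

/-- the generating function of the Landau levels -/
noncomputable def psi (θ : (κ → ℂ) → ℂ) (x : EE κ) (s : κ → ℂ) : ℂ :=
  θ (zz x + s) * cexp (-(uu x ⬝ᵥ s))

noncomputable def lan (θ : (κ → ℂ) → ℂ) (j : ℕ) (s : κ → ℂ) (x : EE κ) : ℂ :=
  iteratedDeriv j (fun τ : ℂ => psi θ x (τ • s)) 0

/-- the auxiliary functions -/
noncomputable def col (θ : (κ → ℂ) → ℂ) (D : ℕ) (s : κ → ℂ) (x : EE κ) : ℂ :=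
  iteratedDeriv D (fun τ : ℂ => cexp τ * psi θ x (τ • s)) 0

/-- the span of the levels of order at most `D` -/
noncomputable def Lan (θ : (κ → ℂ) → ℂ) (D : ℕ) : Submodule ℂ (EE κ → ℂ) :=
  Submodule.span ℂ {f | ∃ (j : ℕ) (s : κ → ℂ), j ≤ D ∧ f = lan θ j s}

/-- the kernel as a function of all variables -/
noncomputable def ker (θ : (κ → ℂ) → ℂ) (y : (κ ⊕ κ) ⊕ Option κ → ℂ) : ℂ :=
  cexp (y (.inr none)) * psi θ (fun m => y (.inl m)) fun k => y (.inr (some k))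

/-- the theta function of a power -/
noncomputable def pw (p : ℕ) (θ : (κ → ℂ) → ℂ) (z : Fin p × κ → ℂ) : ℂ :=
  ∏ i, θ fun k => z (i, k)

end Levels

/-! ### Differential equations -/

section Ode

variable {ι : Type} [Fintype ι]

/-- `f` is part of a solution of a polynomial differential system over the algebraic numbers -/
def Ode (f : (ι → ℂ) → ℂ) : Prop :=
  ∃ (σ : Type) (_ : Fintype σ) (Φ : (ι → ℂ) → σ → ℂ) (P : σ → ι → MvPolynomial σ ℂ)
    (P₀ : MvPolynomial σ ℂ), (∀ s, IsAlgebraic ℚ (Φ 0 s)) ∧ (∀ s k, AlgCoeff (P s k)) ∧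
    AlgCoeff P₀ ∧ ∀ᶠ z in 𝓝 (0 : ι → ℂ), DifferentiableAt ℂ Φ z ∧
      (∀ w s, fderiv ℂ Φ z w s = ∑ k, w k * eval (Φ z) (P s k)) ∧ f z = eval (Φ z) P₀

/-- evaluation of a polynomial with coefficients in `ℤ[c]` -/
noncomputable def evc {σ : Type} (c : ℂ) (x : σ → ℂ) (P : MvPolynomial σ (Polynomial ℤ)) : ℂ :=
  eval₂ (Polynomial.eval₂RingHom (Int.castRingHom ℂ) c) x P

/-- the same with coefficients in `ℤ[c]` -/
def OdeZ (f : (ι → ℂ) → ℂ) : Prop :=
  ∃ (σ : Type) (_ : Fintype σ) (c : ℂ) (a a' : ℕ) (φ : (ι → ℂ) → σ → ℂ) (e : σ → Polynomial ℤ)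
    (G : σ → ι → MvPolynomial σ (Polynomial ℤ)) (P₀ : MvPolynomial σ (Polynomial ℤ)),
    IsIntegral ℤ c ∧ 0 < a ∧ 0 < a' ∧ (∀ s, φ 0 s = Polynomial.aeval c (e s)) ∧
    ∀ᶠ z in 𝓝 (0 : ι → ℂ), DifferentiableAt ℂ φ z ∧
      (∀ w s, (a' : ℂ) * fderiv ℂ φ z w s = ∑ k, w k * evc c (φ z) (G s k)) ∧
      (a : ℂ) * f z = evc c (φ z) P₀

/-- the function `g` of the direction `w` is, up to a factor of size at most `K`, a form of
degree `n` over `ℤ[c]` whose conjugates are bounded by `B` -/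
def Form (c : ℂ) (n : ℕ) (K B : ℝ) (g : (ι → ℂ) → ℂ) : Prop :=
  ∃ (Q : Polynomial (MvPolynomial ι ℤ)) (κ₁ : ℂ), κ₁ ≠ 0 ∧ ‖κ₁‖ ≤ K ∧
    (∀ w, val Q c w = κ₁ * g w) ∧
    (∀ c' : ℂ, Polynomial.aeval c' (minpoly ℤ c) = 0 → ∀ w : ι → ℂ,
      ‖val Q c' w‖ ≤ B * ‖w‖ ^ n) ∧
    ∀ (c' l : ℂ) (w : ι → ℂ), val Q c' (l • w) = l ^ n * val Q c' w

end Ode

/-! ### Subspaces with given slopes -/

section Slopes

variable {ι ν κ I : Type}

/-- the vector with coordinates `x m * y (sd m)` -/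
def jm (sd : ι → ν) (x : ι → ℂ) (y : ν → ℂ) : ι → ℂ := fun m => x m * y (sd m)

/-- the subspace with slopes `x` -/
def Wsp (sd : ι → ν) (x : ι → ℂ) : Submodule ℂ (ι → ℂ) where
  carrier := Set.range (jm sd x)
  zero_mem' := ⟨0, funext fun _ => mul_zero _⟩
  add_mem' := by
    rintro _ _ ⟨y, rfl⟩ ⟨y', rfl⟩
    exact ⟨y + y', funext fun _ => mul_add _ _ _⟩
  smul_mem' := by
    rintro c _ ⟨y, rfl⟩
    exact ⟨c • y, funext fun _ => mul_left_comm _ _ _⟩

/-- the embedding attached to a coordinate: `pl` is the place and `ori` the orientation -/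
def side (pl : κ → I) (ori : κ → Bool) : κ ⊕ κ → I ⊕ I
  | .inl k => if ori k then .inl (pl k) else .inr (pl k)
  | .inr k => if ori k then .inr (pl k) else .inl (pl k)

/-- real points -/
def rp (a : I → ℂ) : I ⊕ I → ℂ := Sum.elim a fun i => starRingEnd ℂ (a i)

/-- the distance to the real points -/
def df (y : I ⊕ I → ℂ) : I → ℂ := fun i => y (.inr i) - starRingEnd ℂ (y (.inl i))

variable [Fintype I]

/-- the weight -/
noncomputable def QQ (α β : I → ℝ) (y : I ⊕ I → ℂ) : ℝ :=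
  ∑ i, (α i * ‖y (.inl i)‖ ^ 2 + β i * ‖y (.inr i)‖ ^ 2)

/-- entire functions of controlled growth which are polynomials of degree at most `T` in the
antiholomorphic variables at the places outside `mx` -/
structure Adm (mx : Finset I) (c : ℝ) (T : ℕ) (V : ℝ) (α β : I → ℝ) (G : (I ⊕ I → ℂ) → ℂ) :
    Prop where
  hol : Differentiable ℂ G
  le : ∀ i, |α i| ≤ c ∧ |β i| ≤ c
  pure : ∀ i, i ∉ mx → β i = 0
  poly : ∀ (y : I ⊕ I → ℂ) (v : I → ℂ), (∀ i ∈ mx, v i = 0) → ∃ P : Polynomial ℂ,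
    P.natDegree ≤ T ∧ ∀ s : ℂ, G (y + s • Sum.elim (0 : I → ℂ) v) = P.eval s
  bd : ∀ y, ‖G y‖ ≤ Real.exp (QQ α β y + V + c * ‖df y‖)

end Slopes

/-! ### The abelian variety -/

section Var

variable {d M : ℕ}

/-- the theta functions are normalised by a diagonal hermitian form -/
def Can (A : ZE.VX d M) (h : Fin d → ℝ) : Prop :=
  (∀ x, A.H x = hc h x) ∧ ∀ l ∈ A.Λ, (A.β l).re = qf h l

/-- the addition formula and the jets at the origin are algebraic -/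
def Arith (A : ZE.VX d M) : Prop :=
  (∀ a b, AlgCoeff (A.B a b)) ∧ ∀ (w : Fin d → ℕ) (j : ℕ) (a : Fin (M + 1)),
    IsAlgebraic ℚ (iteratedDeriv j (fun t : ℂ => A.θ (t • fun k => (w k : ℂ)) a) 0)

/-- every abelian subvariety contains all coordinates outside a set on which `pl` is injective -/
def GenP (A : ZE.VX d M) {I : Type} (pl : Fin d → I) : Prop :=
  ∀ U, ZE.Rat A U → U ≠ ⊥ → ∃ S : Set (Fin d), (∀ k ∈ S, Pi.single k 1 ∈ U) ∧ Set.InjOn pl Sᶜ

end Var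

end Pool.Agent.Lib.MP_caab05_ag.WZ
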