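import Mathlib
import Pool.Agent.Lib.MP_caab05_ag.WZ.Defs
import Pool.Agent.Lib.MP_caab05_ag.GB.Stmt5

/-! Statements of the steps. -/

namespace Pool.Agent.Lib.MP_caab05_ag.WZ

open MvPolynomial Filter Topology Asymptotics Complex
open Pool.Agent.Lib.MP_caab05_ag.LT (AlgCoeff val)
open Pool.Agent.Lib.MP_caab05_ag.ZE (Ord VX)
open Pool.Agent.Lib.MP_caab05_ag.GB (Der Emb cj IsCj IsType elt BB Tw)

/-! ### Analysis -/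

/-- elementary properties of the levels -/
structure LanS : Prop where
  diff : ∀ (κ : Type) [Fintype κ] (θ : (κ → ℂ) → ℂ), Differentiable ℂ θ → ∀ D,
    ∀ f ∈ Lan θ D, Differentiable ℂ f
  mem : ∀ (κ : Type) [Fintype κ] (θ : (κ → ℂ) → ℂ), Differentiable ℂ θ → ∀ D s,
    col θ D s ∈ Lan θ D
  law : ∀ (κ : Type) [Fintype κ] (θ : (κ → ℂ) → ℂ) (h : κ → ℝ) (l : κ → ℂ), Law θ h l →
    ∀ D, ∀ f ∈ Lan θ D, ∀ x, ‖f (x + lf h l)‖ * Real.exp (-qf h (zz (x + lf h l))) =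
      ‖f x‖ * Real.exp (-qf h (zz x))
  poly : ∀ (κ : Type) [Fintype κ] (θ : (κ → ℂ) → ℂ), Differentiable ℂ θ → ∀ D,
    ∀ f ∈ Lan θ D, ∀ (x : EE κ) (v : κ → ℂ), ∃ P : Polynomial ℂ, P.natDegree ≤ D ∧
      ∀ s : ℂ, f (x + s • Sum.elim (0 : κ → ℂ) v) = P.eval s
  bound : ∀ (κ : Type) [Fintype κ] (h : κ → ℝ), ∃ C : ℝ, 1 ≤ C ∧ ∀ (θ : (κ → ℂ) → ℂ) (c₀ : ℝ),
    Differentiable ℂ θ → (∀ z, ‖θ z‖ ≤ c₀ * Real.exp (qf h z)) →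
    ∀ (D : ℕ) (m : ℝ) (s : κ → ℂ) (x : EE κ), 1 ≤ m → ‖s‖ ≤ m →
      ‖col θ D s x‖ ≤ C * c₀ * (D * m) ^ D *
        Real.exp (qf h (zz x) + C * ‖uu x - hc h (zz x)‖)

/-- the auxiliary functions are independent -/
def IndS : Prop :=
  ∀ (κ : Type) [Fintype κ] [DecidableEq κ] (θ : (κ → ℂ) → ℂ), Differentiable ℂ θ →
    (∃ z, θ z ≠ 0) → ∀ (m D : ℕ) (p : (κ → Fin (m + 1)) → ℂ), Fintype.card κ * m ≤ D →
    (∀ x, ∑ a, p a * col θ D (fun k => ((a k : ℕ) : ℂ)) x = 0) → p = 0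

/-- growth away from the real points -/
def TubeS : Prop :=
  ∀ (I : Type) [Fintype I] (mx : Finset I) (c : ℝ), 0 ≤ c → ∃ C : ℝ, 1 ≤ C ∧
    ∀ (T : ℕ) (V μ : ℝ) (α β : I → ℝ) (G : (I ⊕ I → ℂ) → ℂ), 1 ≤ T → 1 ≤ V →
    Adm mx c T V α β G → Real.exp (-V) ≤ μ →
    (∀ a, ‖G (rp a)‖ ≤ μ * Real.exp (QQ α β (rp a))) →
    ∀ (y : I ⊕ I → ℂ) (t₁ t₂ : ℝ), 0 ≤ t₁ → t₁ ≤ √V → 0 ≤ t₂ → t₂ ≤ √V →
      (∀ i, i ∉ mx → ‖df y i‖ ≤ t₁) → (∀ i ∈ mx, ‖df y i‖ ≤ t₂) →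
      ‖G y‖ ≤ μ * Real.exp (QQ α β y + C * (√T * t₁ + √V * t₂))

/-- a net of real points which controls the size -/
def NetS : Prop :=
  ∀ (I : Type) [Fintype I] (mx : Finset I) (c R : ℝ), 0 ≤ c → ∃ C : ℝ, 1 ≤ C ∧
    ∀ (T : ℕ) (V : ℝ), 1 ≤ T → 1 ≤ V → ∃ s : Finset (I → ℂ),
      (s.card : ℝ) ≤ C * (T : ℝ) ^ (Fintype.card I - mx.card) * V ^ mx.card ∧
      ∀ (α β : I → ℝ) (G : (I ⊕ I → ℂ) → ℂ) (ε : ℝ), Adm mx c T V α β G →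
        (∀ a, ∃ a', ‖a'‖ ≤ R ∧ ‖G (rp a)‖ * Real.exp (-QQ α β (rp a)) =
          ‖G (rp a')‖ * Real.exp (-QQ α β (rp a'))) →
        Real.exp (-V) ≤ ε → (∀ a ∈ s, ‖G (rp a)‖ ≤ ε / 4 * Real.exp (QQ α β (rp a))) →
        ∀ a, ‖G (rp a)‖ ≤ ε * Real.exp (QQ α β (rp a))

/-- the auxiliary function -/
def AuxS : Prop :=
  ∀ (κ I : Type) [Fintype κ] [Fintype I] (θ : (κ → ℂ) → ℂ) (h : κ → ℝ) (pl : κ → I)
    (ori : κ → Bool) (ω : κ → ℂ) (mx : Finset I) (c₀ R ρ : ℝ), Differentiable ℂ θ →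
    (∀ z, ‖θ z‖ ≤ c₀ * Real.exp (qf h z)) → (∀ k, ori k = false → pl k ∈ mx) →
    (∀ a : I → ℂ, ∃ γ : I → ℂ, ‖a - γ‖ ≤ R ∧
      Law θ h (zz (jm (side pl ori) (lf h ω) (rp γ)))) →
    ∃ C : ℝ, 1 ≤ C ∧ ∀ (ι : Type) [Fintype ι] (s : ι → κ → ℂ) (D : ℕ) (m V S : ℝ), 1 ≤ D →
      1 ≤ m → (∀ i, ‖s i‖ ≤ m) → C ≤ V → D ≤ V → 1 ≤ S → S ≤ V →
      (Fintype.card ι : ℝ) ≤ Real.exp V → (D * m) ^ D ≤ Real.exp V →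
      C * (D : ℝ) ^ (Fintype.card I - mx.card) * V ^ (mx.card + 1) ≤ Fintype.card ι * S →
      ∃ p : ι → ℤ, p ≠ 0 ∧ (∀ i, |(p i : ℝ)| ≤ Real.exp S) ∧ ∀ y : I ⊕ I → ℂ, ‖y‖ ≤ ρ →
        ‖∑ i, (p i : ℂ) * col θ D (s i) (jm (side pl ori) (lf h ω) y)‖ ≤ Real.exp (-V)

/-! ### Arithmetic -/

/-- clearing denominators -/
def OdeNS : Prop := ∀ (ι : Type) [Fintype ι] (f : (ι → ℂ) → ℂ), Ode f → OdeZ f

/-- the kernel satisfies a differential system -/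
def OdeKS : Prop := ∀ (κ : Type) [Fintype κ] (θ : (κ → ℂ) → ℂ), Ode θ → Ode (ker θ)

/-- the theta function satisfies a differential system -/
def OdeVS : Prop := ∀ (d M : ℕ) (A : VX d M), Arith A → Ode fun z => A.θ z 0

/-- jets in two directions -/
def Jet2S : Prop :=
  ∀ (ι : Type) [Fintype ι] (f : (ι → ℂ) → ℂ), OdeZ f → ∃ (c : ℂ) (a a' : ℕ) (C : ℝ),
    IsIntegral ℤ c ∧ 0 < a ∧ 0 < a' ∧ 1 ≤ C ∧ ∀ (D n m : ℕ) (v : ι → ℕ), 1 ≤ m → (∀ k, v k ≤ m) →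
      ∃ Q : Polynomial (MvPolynomial ι ℤ),
        (∀ w, val Q c w = (a : ℂ) * (a' : ℂ) ^ (D + n) * iteratedDeriv n (fun σ : ℂ =>
          iteratedDeriv D (fun τ : ℂ => f (σ • w + τ • fun k => (v k : ℂ))) 0) 0) ∧
        (∀ c' : ℂ, Polynomial.aeval c' (minpoly ℤ c) = 0 → ∀ w : ι → ℂ,
          ‖val Q c' w‖ ≤ C * (C * m * (D + 1)) ^ D * (C * (n + 1)) ^ n * ‖w‖ ^ n) ∧
        ∀ (c' l : ℂ) (w : ι → ℂ), val Q c' (l • w) = l ^ n * val Q c' w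

/-- the jets of the auxiliary function -/
def JetS : Prop :=
  ∀ (κ : Type) [Fintype κ] (θ : (κ → ℂ) → ℂ), Differentiable ℂ θ → Ode θ →
    ∃ (c : ℂ) (C : ℝ), IsIntegral ℤ c ∧ 1 ≤ C ∧ ∀ (ι : Type) [Fintype ι] (s : ι → κ → ℕ)
      (p : ι → ℤ) (D n m : ℕ) (B : ℝ), 1 ≤ m → (∀ i k, s i k ≤ m) → ∑ i, |(p i : ℝ)| ≤ B →
      Form c n (C ^ (D + n + 1)) (B * C * (C * m * (D + 1)) ^ D * (C * (n + 1)) ^ n)
        fun w : EE κ => iteratedDeriv n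
          (fun σ : ℂ => ∑ i, (p i : ℂ) * col θ D (fun k => (s i k : ℂ)) (σ • w)) 0

/-- the elimination step -/
def CoreS : Prop :=
  ∀ (ι ν σ : Type) [Fintype ι] [Fintype ν] [Fintype σ] (sd : ι → ν) (pr : ι → σ) (η : σ → ℂ)
    (F : IntermediateField ℚ ℂ) (t : ℕ) (c : ℂ), Algebra.trdeg ℚ F ≤ t → (∀ s, η s ∈ F) →
    (∀ s, η s ≠ 0) → IsIntegral ℤ c → ∃ C : ℝ, 1 ≤ C ∧
    ∀ (N : ℕ) (f : (ι → ℂ) → ℂ) (τ V L : ℝ), C ≤ N → Differentiable ℂ f → 0 ≤ τ →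
      C * (N + 1) ≤ Real.exp L →
      (∀ n ≤ N, Form c n (Real.exp τ) (Real.exp τ)
        fun w => iteratedDeriv n (fun s : ℂ => f (s • w)) 0) →
      (∀ y : ν → ℂ, ‖y‖ ≤ 1 → ‖f (jm sd (η ∘ pr) y)‖ ≤ Real.exp (-V)) →
      (∀ x : σ → ℂ, (∀ s, x s ≠ 0) → ¬ Ord (Wsp sd (x ∘ pr)) f 0 (N + 1)) →
      V ≤ C * (τ + N * L + N) * (N : ℝ) ^ t

/-! ### Powers -/

structure PowS : Prop where
  diff : ∀ (κ : Type) [Fintype κ] (θ : (κ → ℂ) → ℂ) (p : ℕ), Differentiable ℂ θ →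
    Differentiable ℂ (pw p θ)
  bound : ∀ (κ : Type) [Fintype κ] (θ : (κ → ℂ) → ℂ) (h : κ → ℝ) (c₀ : ℝ) (p : ℕ),
    (∀ z, ‖θ z‖ ≤ c₀ * Real.exp (qf h z)) →
    ∀ z, ‖pw p θ z‖ ≤ c₀ ^ p * Real.exp (qf (fun k : Fin p × κ => h k.2) z)
  law : ∀ (κ : Type) [Fintype κ] (θ : (κ → ℂ) → ℂ) (h : κ → ℝ) (p : ℕ) (l : Fin p × κ → ℂ),
    (∀ i, Law θ h fun k => l (i, k)) → Law (pw p θ) (fun k : Fin p × κ => h k.2) l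
  ode : ∀ (κ : Type) [Fintype κ] (θ : (κ → ℂ) → ℂ) (p : ℕ), Ode θ → Ode (pw p θ)

/-- the multiplicity estimate on a power -/
def PowZS : Prop :=
  ∀ (κ I : Type) [Fintype κ] (θ : (κ → ℂ) → ℂ) (pl : κ → I) (ori : κ → Bool) (x : EE κ)
    (D k p : ℕ), Differentiable ℂ θ →
    (∀ f ∈ Lan θ D, Ord (Wsp (side pl ori) x) f 0 (k + 1) → f = 0) →
    ∀ f ∈ Lan (pw p θ) D, Ord (Wsp (side (Prod.map id pl) fun k : Fin p × κ => ori k.2)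
      (x ∘ Sum.map Prod.snd Prod.snd)) f 0 (p * k + 1) → f = 0

/-! ### The transcendence theorem -/

/-- growth and multiplicity estimate for the canonical theta function -/
structure BrS : Prop where
  grow : ∀ (d M : ℕ) (A : VX d M) (h : Fin d → ℝ), Can A h →
    (∀ l ∈ A.Λ, Law (fun z => A.θ z 0) h l) ∧
    ∃ c₀ : ℝ, ∀ z, ‖A.θ z 0‖ ≤ c₀ * Real.exp (qf h z)
  zero : ∀ (d M : ℕ) (A : VX d M) (h : Fin d → ℝ) (I : Type) [Fintype I] (pl : Fin d → I)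
    (ori : Fin d → Bool), Can A h → (∀ k, h k ≠ 0) → Function.Surjective pl → 0 < d →
    d ≤ 2 * Fintype.card I → GenP A pl → ∃ C : ℕ, ∀ (x : EE (Fin d)) (D : ℕ), (∀ m, x m ≠ 0) →
      ∀ f ∈ Lan (fun z => A.θ z 0) D, Ord (Wsp (side pl ori) x) f 0 (C * (D + 1)) → f = 0

/-- the abstract form of the theorem -/
def MainAS : Prop :=
  ∀ (κ I : Type) [Fintype κ] [Fintype I] (θ : (κ → ℂ) → ℂ) (h : κ → ℝ) (pl : κ → I)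
    (ori : κ → Bool) (ω : κ → ℂ) (i₁ : I) (c₀ R : ℝ) (Cz : ℕ), Differentiable ℂ θ →
    (∃ z, θ z ≠ 0) → Ode θ → (∀ z, ‖θ z‖ ≤ c₀ * Real.exp (qf h z)) →
    (∀ k, ori k = false → pl k = i₁) → Fintype.card κ = 2 * Fintype.card I →
    (∀ a : I → ℂ, ∃ γ : I → ℂ, ‖a - γ‖ ≤ R ∧
      Law θ h (zz (jm (side pl ori) (lf h ω) (rp γ)))) →
    (∀ (x : EE κ) (D : ℕ), (∀ m, x m ≠ 0) →
      ∀ f ∈ Lan θ D, Ord (Wsp (side pl ori) x) f 0 (Cz * (D + 1)) → f = 0) →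
    ∀ (F : IntermediateField ℚ ℂ) (sc : I ⊕ I → ℂ),
      (∀ m, lf h ω m * sc (side pl ori m) ≠ 0 ∧ lf h ω m * sc (side pl ori m) ∈ F) →
      (Fintype.card I : Cardinal) ≤ Algebra.trdeg ℚ F

/-! ### Complex multiplication -/

/-- the quadratic form with matrix `ν` -/
noncomputable def qd {d : ℕ} (ν : Fin d → Fin d → ℂ) (z : Fin d → ℂ) : ℂ :=
  ∑ k, ∑ l, ν k l * z k * z l

/-- the twist of the canonical theta functions is invariant under unitary endomorphisms -/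
def QTwS : Prop :=
  ∀ (d M : ℕ) (A : VX d M) (h : Fin d → ℝ) (D : Der) (ν : Fin d → Fin d → ℂ) (c : ℂ)
    (γ : Fin d → ℂ) (m : ℕ), (∀ x, A.H x = hc h x) →
    (∀ a, Tw D (fun z => A.θ z a) fun z => (qd ν z + c) * A.θ z a) → 0 < m →
    (∀ k, ‖γ k‖ = 1 ∧ D (γ k) = 0) → (∀ l ∈ A.Λ, (fun k => m * γ k * l k) ∈ A.Λ) →
    (∀ l ∈ A.Λ, A.β (fun k => m * γ k * l k) = (m : ℂ) ^ 2 * A.β l) →
    ∀ z, qd ν (fun k => γ k * z k) = qd ν z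

/-- the theta functions of level four multiplied by the exponential of a quadratic form -/
def VarBS : Prop :=
  ∀ (g d : ℕ) (τ : GB.Mat g) (b : GB.V d →L[ℂ] GB.V g) (a₀ : GB.Ix g) (Q : Fin d → Fin d → ℂ)
    (h : Fin d → ℝ) (S : Set (MvPolynomial (GB.Ix g) ℂ)), GB.Sg τ → Function.Bijective b →
    GB.th τ 0 a₀ ≠ 0 → (∀ a, IsAlgebraic ℚ (GB.th τ 0 a / GB.th τ 0 a₀)) →
    (∀ a j, IsAlgebraic ℚ (GB.om τ (b (Pi.single j 1)) (a, a₀) / GB.th τ 0 a₀ ^ 2)) →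
    (∀ P ∈ S, (∃ k, P.IsHomogeneous k) ∧ AlgCoeff P) →
    {x | ∀ P ∈ S, eval x P = 0} = {x | ∃ (c : ℂ) (z : GB.V g), x = c • GB.th τ z} →
    (∀ (p : GB.Zg g) (l z : Fin d → ℂ), b l = GB.per τ (GB.cst p) →
      GB.ee τ ((4 : ℤ) • p) (b z) * cexp (qd Q (z + l) - qd Q z) =
        cexp (hc h l ⬝ᵥ z + qf h l)) →
    ∃ (M : ℕ) (σ : Fin (M + 1) ≃ GB.Ix g) (A : VX d M), σ 0 = a₀ ∧
      (∀ y, y ∈ A.Λ ↔ ∃ p : GB.Zg g, b y = GB.per τ (GB.cst p)) ∧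
      (∀ z i, A.θ z i = cexp (qd Q z) / GB.th τ 0 a₀ * GB.th τ (b z) (σ i)) ∧
      (∀ x, A.H x = hc h x) ∧ (∀ l, A.β l = qf h l) ∧ ∀ a a', AlgCoeff (A.B a a')

/-- the canonical theta functions of a product of two abelian varieties with complex
multiplication -/
def VarAS : Prop :=
  ∀ (L : Type) [Field L] [NumberField L] (c : L ≃ₐ[ℚ] L) (Φ : Fin 2 → Set (Emb L)) (d : ℕ)
    (e : Fin d → Emb L × Fin 2), IsCj c → (∀ i, IsType (Φ i)) → Function.Injective e →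
    Set.range e = {p | p.1 ∈ Φ p.2} →
    ∃ (M : ℕ) (A : VX d M) (h : Fin d → ℝ) (ω : Fin d → ℂ) (𝔪 : Submodule ℤ (Fin 2 → L)),
      (∀ x, A.H x = hc h x) ∧ (∀ l, A.β l = qf h l) ∧ A.θ 0 0 = 1 ∧
      (∀ a b, AlgCoeff (A.B a b)) ∧ (∀ k, ω k ≠ 0) ∧ (∀ k, h k ≠ 0) ∧
      (∀ k, IsAlgebraic ℚ (ω k * hc h ω k / Real.pi)) ∧
      (∀ x : Fin 2 → L, ∃ n : ℤ, n ≠ 0 ∧ n • x ∈ 𝔪) ∧
      (∀ y, y ∈ A.Λ ↔ ∃ x ∈ 𝔪, y = fun k => (e k).1 (x (e k).2) * ω k) ∧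
      (∀ (D : Der) (k : Fin d), D (ω k) = elt D (Φ (e k).2) (e k).1 * ω k) ∧
      ∀ D : Der, ∃ (ν : Fin d → Fin d → ℂ) (c' : ℂ),
        ∀ a, Tw D (fun z => A.θ z a) fun z => (qd ν z + c') * A.θ z a

/-- the same, with algebraic jets -/
def Var3S : Prop :=
  ∀ (L : Type) [Field L] [NumberField L] (c : L ≃ₐ[ℚ] L) (Φ : Fin 2 → Set (Emb L)) (d : ℕ)
    (e : Fin d → Emb L × Fin 2), IsCj c → (∀ i, IsType (Φ i)) → Function.Injective e →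
    Set.range e = {p | p.1 ∈ Φ p.2} →
    ∃ (M : ℕ) (A : VX d M) (h : Fin d → ℝ) (ω : Fin d → ℂ) (𝔪 : Submodule ℤ (Fin 2 → L)),
      Can A h ∧ Arith A ∧ (∀ k, ω k ≠ 0) ∧ (∀ k, h k ≠ 0) ∧
      (∀ k, IsAlgebraic ℚ (ω k * hc h ω k / Real.pi)) ∧
      (∀ x : Fin 2 → L, ∃ n : ℤ, n ≠ 0 ∧ n • x ∈ 𝔪) ∧
      (∀ y, y ∈ A.Λ ↔ ∃ x ∈ 𝔪, y = fun k => (e k).1 (x (e k).2) * ω k) ∧
      ∀ (D : Der) (k : Fin d), D (ω k) = elt D (Φ (e k).2) (e k).1 * ω k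

/-- every abelian subvariety contains a factor -/
def Gen4S : Prop :=
  ∀ (L : Type) [Field L] [NumberField L] (Φ : Fin 2 → Set (Emb L)) (d M : ℕ)
    (e : Fin d → Emb L × Fin 2) (A : LT.AbVar d M) (ω : Fin d → ℂ)
    (𝔪 : Submodule ℤ (Fin 2 → L)), (∀ i, IsType (Φ i)) →
    Function.Injective e → Set.range e = {p | p.1 ∈ Φ p.2} → (∀ k, ω k ≠ 0) →
    (∀ y, y ∈ A.Λ ↔ ∃ x ∈ 𝔪, y = fun k => (e k).1 (x (e k).2) * ω k) →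
    (∀ φ ψ : Emb L, ∃ σ : L ≃ₐ[ℚ] L, ψ = φ.comp (σ : L →+* L)) →
    (∀ σ σ' : L ≃ₐ[ℚ] L, σ * σ' = σ' * σ) →
    (∀ p q : Emb L × Fin 2, p ≠ q → ∃ σ : L ≃ₐ[ℚ] L,
      p.1.comp (σ : L →+* L) ∈ Φ p.2 ∧ q.1.comp (σ : L →+* L) ∉ Φ q.2) →
    ∀ U : Submodule ℂ (Fin d → ℂ),
      Submodule.span ℝ ((U : Set (Fin d → ℂ)) ∩ (A.Λ : Set (Fin d → ℂ))) = U.restrictScalars ℝ →
      U ≠ ⊥ → ∃ i, ∀ k, (e k).2 = i → Pi.single k 1 ∈ U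

/-- the diagonal lattice is cocompact -/
def LatS : Prop :=
  ∀ (L : Type) [Field L] [NumberField L] (Φ : Set (Emb L)) (𝔪 : Submodule ℤ (Fin 2 → L)),
    IsType Φ → (∀ x : Fin 2 → L, ∃ n : ℤ, n ≠ 0 ∧ n • x ∈ 𝔪) →
    ∃ R : ℝ, ∀ a : Emb L → ℂ, ∃ x : L, (fun _ => x) ∈ 𝔪 ∧ ∀ φ ∈ Φ, ‖a φ - φ x‖ ≤ R

/-- the theorem for two adjacent types -/
def CMS : Prop :=
  ∀ (L : Type) [Field L] [NumberField L] (c : L ≃ₐ[ℚ] L) (Φ : Fin 2 → Set (Emb L))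
    (e : Fin (Module.finrank ℚ L) → Emb L × Fin 2), IsCj c → c ≠ 1 → (∀ i, IsType (Φ i)) →
    Function.Injective e → Set.range e = {p | p.1 ∈ Φ p.2} →
    (∀ φ ψ : Emb L, ∃ σ : L ≃ₐ[ℚ] L, ψ = φ.comp (σ : L →+* L)) →
    (∀ σ σ' : L ≃ₐ[ℚ] L, σ * σ' = σ' * σ) →
    (∀ p q : Emb L × Fin 2, p ≠ q → ∃ σ : L ≃ₐ[ℚ] L,
      p.1.comp (σ : L →+* L) ∈ Φ p.2 ∧ q.1.comp (σ : L →+* L) ∉ Φ q.2) →
    2 * (Set.range fun k => (e k).1).ncard = Module.finrank ℚ L + 2 →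
    ∀ F : IntermediateField ℚ ℂ, (∀ D : Der, (∀ y ∈ F, D y = 0) → ∃ μ : ℂ,
      D Real.pi = 2 * μ * Real.pi ∧ ∀ i, ∀ φ ∈ Φ i, elt D (Φ i) φ = μ) →
    ((Module.finrank ℚ L : ℕ) : Cardinal) ≤ 2 * Algebra.trdeg ℚ F

/-- the periods of the type of the curve -/
def Curve3S : Prop :=
  ∀ (n : ℕ) (L : Type) [Field L] [NumberField L] (c : L ≃ₐ[ℚ] L) (ζ : L) (D : Der) (μ : ℂ),
    2 ≤ n → IsCj c → IsPrimitiveRoot ζ (2 * n) →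
    (∀ t : ℕ, 0 < t → t < n → D (BB (2 * n) t) = μ * BB (2 * n) t) →
    IsType {ψ : Emb L | 0 < (ψ ζ).im} ∧
      ∀ φ : Emb L, 0 < (φ ζ).im → elt D {ψ : Emb L | 0 < (ψ ζ).im} φ = μ

/-- all periods behave like the integrals -/
def KeyS : Prop :=
  ∀ (n : ℕ) (L : Type) [Field L] [NumberField L] [IsCyclotomicExtension {2 * n} ℚ L]
    (c : L ≃ₐ[ℚ] L) (D : Der) (μ : ℂ), 0 < n → IsCj c → 8 ≤ Module.finrank ℚ L →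
    (∀ t : ℕ, 0 < t → t < n → D (BB (2 * n) t) = μ * BB (2 * n) t) →
    ∀ Ψ : Set (Emb L), IsType Ψ → ∀ φ ∈ Ψ, elt D Ψ φ = μ

/-- the theorem for the integrals, even levels -/
def TAB : Prop :=
  ∀ n : ℕ, 10 ≤ (2 * n).totient → (((2 * n).totient : ℕ) : Cardinal) ≤
    2 * Algebra.trdeg ℚ (IntermediateField.adjoin ℚ
      {x : ℝ | ∃ t : ℕ, 0 < t ∧ t < n ∧ x = BB (2 * n) t ^ 2 / Real.pi})

end Pool.Agent.Lib.MP_caab05_ag.WZ
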