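import Mathlib
import Pool.Agent.Lib.MP_caab05_ag.WZ.Stmt
import Pool.Agent.Lib.MP_caab05_ag.LT.Coord

/-! The auxiliary function, by the box principle. -/

namespace Pool.Agent.Lib.MP_caab05_ag.WZ

open MvPolynomial Filter Topology Asymptotics Complex

namespace AuxFAux

variable {κ I : Type}

lemma jm_add {ι ν : Type} (sd : ι → ν) (x : ι → ℂ) (y y' : ν → ℂ) :
    jm sd x (y + y') = jm sd x y + jm sd x y' := funext fun _ => mul_add _ _ _

lemma jm_smul {ι ν : Type} (sd : ι → ν) (x : ι → ℂ) (s : ℂ) (y : ν → ℂ) :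
    jm sd x (s • y) = s • jm sd x y := funext fun _ => mul_left_comm _ _ _

lemma jm_diff {ι ν : Type} [Fintype ι] [Fintype ν] (sd : ι → ν) (x : ι → ℂ) :
    Differentiable ℂ (jm sd x) := by
  refine differentiable_pi.2 fun m => ?_
  exact (differentiable_apply (sd m)).const_mul (x m)

lemma rp_split (a γ : I → ℂ) : rp a = rp (a - γ) + rp γ := by
  funext m
  rcases m with i | i <;> simp [rp]

lemma df_rp (a : I → ℂ) : df (rp a) = 0 := by
  funext i
  simp [df, rp]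

lemma df_le [Fintype I] (y : I ⊕ I → ℂ) (i : I) : ‖df y i‖ ≤ 2 * ‖y‖ := by
  refine (norm_sub_le _ _).trans ?_
  rw [RCLike.norm_conj]
  linarith [norm_le_pi_norm y (.inl i), norm_le_pi_norm y (.inr i)]

lemma gap (h : κ → ℝ) (pl : κ → I) (ori : κ → Bool) (ω : κ → ℂ) (y : I ⊕ I → ℂ) (k : κ) :
    ‖(uu (jm (side pl ori) (lf h ω) y) - hc h (zz (jm (side pl ori) (lf h ω) y))) k‖ =
      |h k| * ‖ω k‖ * ‖df y (pl k)‖ := by
  cases hk : ori k
  · have h1 : (uu (jm (side pl ori) (lf h ω) y) - hc h (zz (jm (side pl ori) (lf h ω) y))) k =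
        -(h k * starRingEnd ℂ (ω k) * starRingEnd ℂ (df y (pl k))) := by
      simp [uu, zz, jm, side, lf, hc, df, hk]
      ring
    rw [h1, norm_neg, norm_mul, norm_mul, RCLike.norm_conj, RCLike.norm_conj, Complex.norm_real,
      Real.norm_eq_abs]
  · have h1 : (uu (jm (side pl ori) (lf h ω) y) - hc h (zz (jm (side pl ori) (lf h ω) y))) k =
        h k * starRingEnd ℂ (ω k) * df y (pl k) := by
      simp [uu, zz, jm, side, lf, hc, df, hk]
      ring
    rw [h1, norm_mul, norm_mul, RCLike.norm_conj, Complex.norm_real, Real.norm_eq_abs]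

lemma gap_le [Fintype κ] [Fintype I] (h : κ → ℝ) (pl : κ → I) (ori : κ → Bool) (ω : κ → ℂ)
    (y : I ⊕ I → ℂ) :
    ‖uu (jm (side pl ori) (lf h ω) y) - hc h (zz (jm (side pl ori) (lf h ω) y))‖ ≤
      (∑ k, |h k| * ‖ω k‖) * ‖df y‖ := by
  refine (pi_norm_le_iff_of_nonneg (by positivity)).2 fun k => ?_
  rw [gap]
  gcongr
  · exact Finset.single_le_sum (f := fun k => |h k| * ‖ω k‖) (fun _ _ => by positivity)
      (Finset.mem_univ k)
  · exact norm_le_pi_norm _ _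

lemma real_lf (h : κ → ℝ) (pl : κ → I) (ori : κ → Bool) (ω : κ → ℂ) (γ : I → ℂ) :
    jm (side pl ori) (lf h ω) (rp γ) = lf h (zz (jm (side pl ori) (lf h ω) (rp γ))) := by
  funext m
  rcases m with k | k
  · rfl
  · have h1 := gap h pl ori ω (rp γ) k
    rw [df_rp, Pi.zero_apply, norm_zero, mul_zero, norm_eq_zero, Pi.sub_apply, sub_eq_zero] at h1
    exact h1

lemma vert (h : κ → ℝ) (pl : κ → I) (ori : κ → Bool) (ω : κ → ℂ) (mx : Finset I)
    (hm : ∀ k, ori k = false → pl k ∈ mx) (v : I → ℂ) (hv : ∀ i ∈ mx, v i = 0) :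
    ∃ v' : κ → ℂ, jm (side pl ori) (lf h ω) (Sum.elim (0 : I → ℂ) v) =
      Sum.elim (0 : κ → ℂ) v' := by
  refine ⟨uu (jm (side pl ori) (lf h ω) (Sum.elim (0 : I → ℂ) v)), ?_⟩
  funext m
  rcases m with k | k
  · cases hk : ori k
    · simp [jm, side, hk, hv _ (hm k hk)]
    · simp [jm, side, hk]
  · rfl

lemma weight [Fintype κ] [Fintype I] (h : κ → ℝ) (pl : κ → I) (ori : κ → Bool) (ω : κ → ℂ)
    (mx : Finset I) (hm : ∀ k, ori k = false → pl k ∈ mx) :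
    ∃ (α β : I → ℝ) (c : ℝ), 0 ≤ c ∧ (∀ i, |α i| ≤ c ∧ |β i| ≤ c) ∧ (∀ i, i ∉ mx → β i = 0) ∧
      ∀ y, qf h (zz (jm (side pl ori) (lf h ω) y)) = QQ α β y := by
  classical
  have hb : ∀ (P : κ → Prop) [DecidablePred P],
      |∑ k, if P k then h k * ‖ω k‖ ^ 2 / 2 else 0| ≤ ∑ k, |h k * ‖ω k‖ ^ 2 / 2| := by
    intro P _
    refine (Finset.abs_sum_le_sum_abs _ _).trans (Finset.sum_le_sum fun k _ => ?_)
    split_ifs
    · exact le_rfl
    · rw [abs_zero]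
      exact abs_nonneg _
  refine ⟨fun i => ∑ k, if pl k = i ∧ ori k = true then h k * ‖ω k‖ ^ 2 / 2 else 0,
    fun i => ∑ k, if pl k = i ∧ ori k = false then h k * ‖ω k‖ ^ 2 / 2 else 0,
    ∑ k, |h k * ‖ω k‖ ^ 2 / 2|, by positivity, fun i => ⟨hb _, hb _⟩, fun i hi => ?_, fun y => ?_⟩
  · refine Finset.sum_eq_zero fun k _ => if_neg ?_
    rintro ⟨h1, h2⟩
    exact hi (h1 ▸ hm k h2)
  · simp only [QQ, qf, Finset.sum_mul, ← Finset.sum_add_distrib]
    rw [Finset.sum_comm]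
    refine Finset.sum_congr rfl fun k _ => ?_
    rw [Finset.sum_eq_single (pl k)]
    · cases hk : ori k
      · simp [zz, jm, side, lf, hk, mul_pow]
        ring
      · simp [zz, jm, side, lf, hk, mul_pow]
        ring
    · intro i _ hi
      simp [hi.symm]
    · simp

lemma QQ_le [Fintype I] {α β : I → ℝ} {c ρ : ℝ} (hc : ∀ i, |α i| ≤ c ∧ |β i| ≤ c)
    (y : I ⊕ I → ℂ) (hy : ‖y‖ ≤ ρ) : QQ α β y ≤ Fintype.card I * (2 * c * ρ ^ 2) := by
  have h1 : ∀ i, α i * ‖y (.inl i)‖ ^ 2 + β i * ‖y (.inr i)‖ ^ 2 ≤ 2 * c * ρ ^ 2 := by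
    intro i
    have h0 : 0 ≤ c := (abs_nonneg _).trans (hc i).1
    have h2 : ∀ m, ‖y m‖ ^ 2 ≤ ρ ^ 2 := fun m =>
      pow_le_pow_left₀ (norm_nonneg _) ((norm_le_pi_norm y m).trans hy) 2
    have h3 : α i * ‖y (.inl i)‖ ^ 2 ≤ c * ρ ^ 2 :=
      mul_le_mul ((le_abs_self _).trans (hc i).1) (h2 _) (by positivity) h0
    have h4 : β i * ‖y (.inr i)‖ ^ 2 ≤ c * ρ ^ 2 :=
      mul_le_mul ((le_abs_self _).trans (hc i).2) (h2 _) (by positivity) h0
    linarith
  have h5 := Finset.sum_le_card_nsmul Finset.univ _ _ fun i _ => h1 i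
  rw [nsmul_eq_mul, Finset.card_univ] at h5
  exact h5

lemma count {L H k : ℕ} {V S : ℝ} (hV : 18 ≤ V) (hL : (L : ℝ) * H ≤ Real.exp (2 * V))
    (hH : Real.exp S ≤ (H : ℝ) + 1) (hk : 18 * V * k < L * S) :
    (4 * (L : ℝ) * H * Real.exp (2 * V) / (Real.exp (-(4 * V)) / 4) + 3) ^ (2 * k) <
      ((H : ℝ) + 1) ^ L := by
  have h2 : 19 ≤ Real.exp V := by linarith [Real.add_one_le_exp V]
  have h7 : 1 ≤ Real.exp (8 * V) := Real.one_le_exp (by linarith)
  have h3 : 4 * (L : ℝ) * H * Real.exp (2 * V) / (Real.exp (-(4 * V)) / 4) + 3 ≤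
      Real.exp (9 * V) := by
    have h4 : 4 * (L : ℝ) * H * Real.exp (2 * V) / (Real.exp (-(4 * V)) / 4) =
        16 * ((L * H) * (Real.exp (2 * V) * Real.exp (4 * V))) := by
      rw [Real.exp_neg]
      field_simp
      ring
    have h5 : Real.exp (9 * V) = Real.exp V * Real.exp (8 * V) := by
      rw [← Real.exp_add]
      ring_nf
    have h6 : (L : ℝ) * H * (Real.exp (2 * V) * Real.exp (4 * V)) ≤ Real.exp (8 * V) := by
      calc _ ≤ Real.exp (2 * V) * (Real.exp (2 * V) * Real.exp (4 * V)) := by gcongr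
        _ = _ := by
          rw [← Real.exp_add, ← Real.exp_add]
          ring_nf
    rw [h4, h5]
    nlinarith
  calc (4 * (L : ℝ) * H * Real.exp (2 * V) / (Real.exp (-(4 * V)) / 4) + 3) ^ (2 * k)
      ≤ Real.exp (9 * V) ^ (2 * k) := by gcongr
    _ = Real.exp (18 * V * k) := by
        rw [← Real.exp_nat_mul]
        congr 1
        push_cast
        ring
    _ < Real.exp (L * S) := Real.exp_lt_exp.2 hk
    _ = Real.exp S ^ L := Real.exp_nat_mul _ _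
    _ ≤ ((H : ℝ) + 1) ^ L := by gcongr

end AuxFAux

open AuxFAux in
theorem auxS (h1 : LanS) (h2 : TubeS) (h3 : NetS) : AuxS := by
  intro κ I _ _ θ h pl ori ω mx c₀ R ρ hθ hθb hm hlat
  classical
  obtain ⟨α, β, c₁, hc₁, hαβ, hpure, hq⟩ := weight h pl ori ω mx hm
  obtain ⟨CL, hCL, hbd⟩ := h1.bound κ h
  obtain ⟨c₂, hc₂, hgap⟩ : ∃ c₂ : ℝ, 0 ≤ c₂ ∧ ∀ y,
      ‖uu (jm (side pl ori) (lf h ω) y) - hc h (zz (jm (side pl ori) (lf h ω) y))‖ ≤
        c₂ * ‖df y‖ := ⟨_, by positivity, gap_le h pl ori ω⟩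
  obtain ⟨c, hc0, hcc1, hcc2⟩ : ∃ c : ℝ, 0 ≤ c ∧ c₁ ≤ c ∧ CL * c₂ ≤ c := by
    have : 0 ≤ CL * c₂ := by positivity
    exact ⟨c₁ + CL * c₂, by linarith, by linarith, by linarith⟩
  have hαβ' : ∀ i, |α i| ≤ c ∧ |β i| ≤ c := fun i =>
    ⟨(hαβ i).1.trans hcc1, (hαβ i).2.trans hcc1⟩
  obtain ⟨CT, hCT, htube⟩ := h2 I mx c hc0
  obtain ⟨CN, hCN, hnet⟩ := h3 I mx c R hc0
  obtain ⟨C, hC18, hC1, hC2, hC3, hC4, hC5⟩ : ∃ C : ℝ, 18 ≤ C ∧ CL * c₀ ≤ C ∧
      18 * (CN * 4 ^ mx.card) < C ∧ ρ ^ 2 ≤ C ∧ Fintype.card I * (2 * c * ρ ^ 2) ≤ C ∧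
      (3 * CT * |ρ|) ^ 2 ≤ C := by
    have e1 := le_abs_self (CL * c₀)
    have e2 := abs_nonneg (CL * c₀)
    have e3 : 0 ≤ 18 * (CN * 4 ^ mx.card) := by positivity
    have e4 : 0 ≤ Fintype.card I * (2 * c * ρ ^ 2) := by positivity
    have e5 := sq_nonneg ρ
    have e6 := sq_nonneg (3 * CT * |ρ|)
    refine ⟨18 + |CL * c₀| + 18 * (CN * 4 ^ mx.card) + ρ ^ 2 + Fintype.card I * (2 * c * ρ ^ 2) +
      (3 * CT * |ρ|) ^ 2, ?_, ?_, ?_, ?_, ?_, ?_⟩ <;> linarith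
  refine ⟨C, by linarith, fun ι _ s D m V S hD hm1 hs hV hDV hS1 hSV hι hDm hmain => ?_⟩
  have hV18 : 18 ≤ V := hC18.trans hV
  have hD' : (1 : ℝ) ≤ D := by exact_mod_cast hD
  have hcol : ∀ i y, ‖col θ D (s i) (jm (side pl ori) (lf h ω) y)‖ ≤
      Real.exp (2 * V) * Real.exp (QQ α β y + c * ‖df y‖) := by
    intro i y
    refine (hbd θ c₀ hθ hθb D m (s i) _ hm1 (hs i)).trans ?_
    have e1 : CL * c₀ * (D * m) ^ D ≤ Real.exp (2 * V) := by
      rw [two_mul, Real.exp_add]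
      exact mul_le_mul (by linarith [Real.add_one_le_exp V]) hDm (by positivity)
        (Real.exp_pos _).le
    refine mul_le_mul e1 (Real.exp_le_exp.2 ?_) (Real.exp_pos _).le (Real.exp_pos _).le
    rw [hq]
    have e2 : CL * ‖uu (jm (side pl ori) (lf h ω) y) - hc h (zz (jm (side pl ori) (lf h ω) y))‖ ≤
        c * ‖df y‖ := by
      calc _ ≤ CL * (c₂ * ‖df y‖) := mul_le_mul_of_nonneg_left (hgap y) (by linarith)
        _ = CL * c₂ * ‖df y‖ := by ring
        _ ≤ _ := by gcongr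
    linarith
  obtain ⟨s₀, hcard, hG⟩ := hnet D (4 * V) hD (by linarith)
  obtain ⟨H, hH1, hH2⟩ : ∃ H : ℕ, (H : ℝ) ≤ Real.exp S ∧ Real.exp S ≤ (H : ℝ) + 1 :=
    ⟨⌊Real.exp S⌋₊, Nat.floor_le (Real.exp_pos _).le, (Nat.lt_floor_add_one _).le⟩
  have hLH : (Fintype.card ι : ℝ) * H ≤ Real.exp (2 * V) := by
    rw [two_mul, Real.exp_add]
    exact mul_le_mul hι (hH1.trans (Real.exp_le_exp.2 hSV)) (by positivity) (Real.exp_pos _).le
  obtain ⟨p, hp0, hpH, hp⟩ := LT.box (κ := s₀)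
    (fun a i => col θ D (s i) (jm (side pl ori) (lf h ω) (rp a)) *
      (Real.exp (-QQ α β (rp a)) : ℝ)) (B := Real.exp (2 * V))
    (ε := Real.exp (-(4 * V)) / 4) (Real.exp_pos _).le (by positivity)
    (fun a i => by
      have e1 := hcol i (rp a)
      rw [df_rp, norm_zero, mul_zero, add_zero] at e1
      rw [norm_mul, Complex.norm_real, Real.norm_of_nonneg (Real.exp_pos _).le, Real.exp_neg,
        ← div_eq_mul_inv, div_le_iff₀ (Real.exp_pos _)]
      exact e1)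
    H (count (S := S) hV18 hLH hH2 (by
      rw [Fintype.card_coe]
      have e1 : 0 < (D : ℝ) ^ (Fintype.card I - mx.card) * V ^ (mx.card + 1) := by positivity
      calc 18 * V * s₀.card
          ≤ 18 * V * (CN * (D : ℝ) ^ (Fintype.card I - mx.card) * (4 * V) ^ mx.card) := by gcongr
        _ = 18 * (CN * 4 ^ mx.card) *
            ((D : ℝ) ^ (Fintype.card I - mx.card) * V ^ (mx.card + 1)) := by
            rw [mul_pow]
            ring
        _ < C * ((D : ℝ) ^ (Fintype.card I - mx.card) * V ^ (mx.card + 1)) := by gcongr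
        _ ≤ _ := by rw [← mul_assoc]; exact hmain))
  have hpH' : ∀ i, |(p i : ℝ)| ≤ H := fun i => by exact_mod_cast hpH i
  refine ⟨p, hp0, fun i => (hpH' i).trans hH1, ?_⟩
  obtain ⟨f, hf, hfe⟩ : ∃ f ∈ Lan θ D, ∀ x, f x = ∑ i, (p i : ℂ) * col θ D (s i) x :=
    ⟨∑ i, (p i : ℂ) • col θ D (s i),
      Submodule.sum_mem _ fun i _ => Submodule.smul_mem _ _ (h1.mem κ θ hθ D (s i)),
      fun x => by simp⟩
  have hadm : Adm mx c D (4 * V) α β fun y => f (jm (side pl ori) (lf h ω) y) := by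
    refine ⟨(h1.diff κ θ hθ D f hf).comp (jm_diff _ _), hαβ', hpure, fun y v hv => ?_,
      fun y => ?_⟩
    · obtain ⟨v', hv'⟩ := vert h pl ori ω mx hm v hv
      obtain ⟨P, hP1, hP2⟩ := h1.poly κ θ hθ D f hf (jm (side pl ori) (lf h ω) y) v'
      refine ⟨P, hP1, fun t => ?_⟩
      rw [jm_add, jm_smul, hv', hP2]
    · rw [hfe]
      refine (norm_sum_le _ _).trans ?_
      have e1 : ∀ i, ‖(p i : ℂ) * col θ D (s i) (jm (side pl ori) (lf h ω) y)‖ ≤
          H * (Real.exp (2 * V) * Real.exp (QQ α β y + c * ‖df y‖)) := by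
        intro i
        rw [norm_mul, Complex.norm_intCast]
        exact mul_le_mul (hpH' i) (hcol i y) (norm_nonneg _) (Nat.cast_nonneg _)
      refine (Finset.sum_le_card_nsmul _ _ _ fun i _ => e1 i).trans ?_
      rw [nsmul_eq_mul, Finset.card_univ, ← mul_assoc]
      calc _ ≤ Real.exp (2 * V) * (Real.exp (2 * V) * Real.exp (QQ α β y + c * ‖df y‖)) := by
            gcongr
        _ = _ := by
            rw [← Real.exp_add, ← Real.exp_add]
            ring_nf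
  have hreal := hG α β _ (Real.exp (-(4 * V))) hadm
    (fun a => by
      obtain ⟨γ, hγ, hl⟩ := hlat a
      refine ⟨a - γ, hγ, ?_⟩
      have e1 := h1.law κ θ h _ hl D f hf (jm (side pl ori) (lf h ω) (rp (a - γ)))
      rw [← real_lf, ← jm_add, ← rp_split, hq, hq] at e1
      exact e1)
    le_rfl
    (fun a ha => by
      have e1 := hp ⟨a, ha⟩
      simp only [← mul_assoc, ← Finset.sum_mul] at e1
      rw [norm_mul, Complex.norm_real, Real.norm_of_nonneg (Real.exp_pos _).le,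
        Real.exp_neg (QQ α β (rp a)), ← div_eq_mul_inv, div_le_iff₀ (Real.exp_pos _),
        ← hfe] at e1
      exact e1)
  intro y hy
  have hρ : 2 * |ρ| ≤ √(4 * V) := by
    refine Real.le_sqrt_of_sq_le ?_
    rw [mul_pow, sq_abs]
    linarith
  have hdf : ∀ i, ‖df y i‖ ≤ 2 * |ρ| := fun i =>
    (df_le y i).trans (by linarith [le_abs_self ρ])
  have key := htube D (4 * V) (Real.exp (-(4 * V))) α β _ hD (by linarith) hadm le_rfl hreal y
    (2 * |ρ|) (2 * |ρ|) (by positivity) hρ (by positivity) hρ (fun i _ => hdf i) fun i _ => hdf i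
  rw [← hfe]
  refine key.trans ?_
  rw [← Real.exp_add, Real.exp_le_exp]
  have e1 := QQ_le hαβ' y hy
  have e2 : √(D : ℝ) ≤ √V := Real.sqrt_le_sqrt hDV
  have e3 : √(4 * V) = 2 * √V := by
    rw [Real.sqrt_mul (by norm_num), show (4 : ℝ) = 2 ^ 2 by norm_num,
      Real.sqrt_sq (by norm_num)]
  have e4 : 3 * CT * |ρ| ≤ √V := Real.le_sqrt_of_sq_le (by linarith)
  have e5 : √V * √V = V := Real.mul_self_sqrt (by linarith)
  have e6 : CT * (√(D : ℝ) * (2 * |ρ|) + √(4 * V) * (2 * |ρ|)) ≤ 2 * V := by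
    calc _ ≤ CT * (√V * (2 * |ρ|) + 2 * √V * (2 * |ρ|)) := by
          rw [e3]
          gcongr
      _ = 2 * (√V * (3 * CT * |ρ|)) := by ring
      _ ≤ 2 * (√V * √V) := by gcongr
      _ = 2 * V := by rw [e5]
  linarith

end Pool.Agent.Lib.MP_caab05_ag.WZ
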