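import Mathlib
import Pool.Agent.Lib.MP_caab05_ag.WZ.Stmt

/-! Growth of the canonical theta function and the bridge to the multiplicity estimate. -/

namespace Pool.Agent.Lib.MP_caab05_ag.WZ

open Complex
open Pool.Agent.Lib.MP_caab05_ag.LT (E)
open Pool.Agent.Lib.MP_caab05_ag.ZE (Ord VX)

namespace BrAux

theorem qf_add {κ : Type} [Fintype κ] (h : κ → ℝ) (z l : κ → ℂ) :
    qf h (z + l) = qf h z + (hc h l ⬝ᵥ z).re + qf h l := by
  simp only [qf, hc, dotProduct, Complex.re_sum, ← Finset.sum_add_distrib]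
  refine Finset.sum_congr rfl fun k _ => ?_
  simp only [Pi.add_apply, Complex.sq_norm, Complex.normSq_apply, Complex.add_re, Complex.add_im,
    Complex.mul_re, Complex.mul_im, Complex.ofReal_re, Complex.ofReal_im, Complex.conj_re,
    Complex.conj_im]
  ring

theorem qf_cont {κ : Type} [Fintype κ] (h : κ → ℝ) : Continuous (qf h) := by
  unfold qf
  fun_prop

theorem law {d M : ℕ} (A : VX d M) (h : Fin d → ℝ) (hA : Can A h) (l : E d) (hl : l ∈ A.Λ) :
    Law (fun z => A.θ z 0) h l := by
  refine ⟨A.β l, hA.2 l hl, fun z => ?_⟩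
  have := congrFun (A.law l hl z) 0
  rw [hA.1] at this
  simpa using this

theorem bound {d M : ℕ} (A : VX d M) (h : Fin d → ℝ) (hA : Can A h) :
    ∃ c₀ : ℝ, ∀ z, ‖A.θ z 0‖ ≤ c₀ * Real.exp (qf h z) := by
  obtain ⟨R, hR⟩ := LT.exists_fund A.toAbVar
  have hc1 : Continuous fun z : E d => ‖A.θ z 0‖ * Real.exp (-qf h z) :=
    (((continuous_apply 0).comp A.holo.continuous).norm).mul
      (Real.continuous_exp.comp (qf_cont h).neg)
  obtain ⟨c, hcb⟩ := (isCompact_closedBall (0 : E d) R).exists_bound_of_continuousOn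
    hc1.continuousOn
  refine ⟨c, fun z => ?_⟩
  obtain ⟨l, hl, hz⟩ := hR z
  obtain ⟨b, hb, hθ⟩ := law A h hA l hl
  have h1 := hcb (z - l) (by simpa using hz)
  have h2 := hθ (z - l)
  have h3 := qf_add h (z - l) l
  rw [sub_add_cancel] at h2 h3
  rw [Real.norm_of_nonneg (by positivity)] at h1
  simp only at h2
  rw [h2, norm_mul, Complex.norm_exp, Complex.add_re, hb, h3]
  have h4 : ‖A.θ (z - l) 0‖ ≤ c * Real.exp (qf h (z - l)) := by
    have := mul_le_mul_of_nonneg_right h1 (Real.exp_pos (qf h (z - l))).le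
    rwa [mul_assoc, ← Real.exp_add, neg_add_cancel, Real.exp_zero, mul_one] at this
  calc _ ≤ Real.exp ((hc h l ⬝ᵥ (z - l)).re + qf h l) * (c * Real.exp (qf h (z - l))) := by
        gcongr
    _ = _ := by
        rw [add_assoc, Real.exp_add (qf h (z - l))]
        ring

/-- the parametrisation of the subspace -/
noncomputable def J {d : ℕ} {ν : Type} (sd : Fin d ⊕ Fin d → ν) (x : EE (Fin d)) :
    (ν → ℂ) →ₗ[ℂ] E d × E d where
  toFun y := (fun k => x (.inl k) * y (sd (.inl k)), fun k => x (.inr k) * y (sd (.inr k)))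
  map_add' y y' := by
    ext k <;> simp [mul_add]
  map_smul' c y := by
    ext k <;> simp [mul_left_comm]

theorem side_surj {κ I : Type} (pl : κ → I) (ori : κ → Bool) (h : Function.Surjective pl) :
    Function.Surjective (side pl ori) := by
  rintro (i | i)
  · obtain ⟨k, rfl⟩ := h i
    cases ho : ori k
    · exact ⟨.inr k, by simp [side, ho]⟩
    · exact ⟨.inl k, by simp [side, ho]⟩
  · obtain ⟨k, rfl⟩ := h i
    cases ho : ori k
    · exact ⟨.inl k, by simp [side, ho]⟩
    · exact ⟨.inr k, by simp [side, ho]⟩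

theorem side_inj {κ I : Type} (pl : κ → I) (ori : κ → Bool) (S : Set κ) (h : Set.InjOn pl Sᶜ)
    (m m' : κ ⊕ κ) (hm : Sum.elim id id m ∉ S) (hm' : Sum.elim id id m' ∉ S)
    (e : side pl ori m = side pl ori m') : m = m' := by
  rcases m with k | k <;> rcases m' with k' | k' <;> cases ho : ori k <;> cases ho' : ori k' <;>
    simp only [side, ho, ho', if_true, Bool.false_eq_true, if_false, Sum.inl.injEq, Sum.inr.injEq,
      reduceCtorEq] at e ⊢ <;>
    have := h hm hm' e <;> simp_all

theorem J_inj {d : ℕ} {ν : Type} (sd : Fin d ⊕ Fin d → ν) (x : EE (Fin d)) (hx : ∀ m, x m ≠ 0)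
    (hs : Function.Surjective sd) : Function.Injective (J sd x) := by
  rw [injective_iff_map_eq_zero]
  intro y hy
  funext n
  obtain ⟨m, rfl⟩ := hs n
  rcases m with k | k
  · have := congrFun (congrArg Prod.fst hy) k
    exact (mul_eq_zero.1 this).resolve_left (hx _)
  · have := congrFun (congrArg Prod.snd hy) k
    exact (mul_eq_zero.1 this).resolve_left (hx _)

theorem basis_mem {d : ℕ} (h : Fin d → ℝ) (U : Submodule ℂ (E d)) (k : Fin d) (hk : h k ≠ 0)
    (hU : Pi.single k 1 ∈ U) :
    ((Pi.single k 1, 0) : E d × E d) ∈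
        Submodule.span ℂ ((fun x => (x, hc h x)) '' (U : Set (E d))) ∧
      ((0, Pi.single k 1) : E d × E d) ∈
        Submodule.span ℂ ((fun x => (x, hc h x)) '' (U : Set (E d))) := by
  set N := Submodule.span ℂ ((fun x => (x, hc h x)) '' (U : Set (E d)))
  have ha : ((Pi.single k 1, hc h (Pi.single k 1)) : E d × E d) ∈ N :=
    Submodule.subset_span ⟨_, hU, rfl⟩
  have hb : ((I • Pi.single k 1, hc h (I • Pi.single k 1)) : E d × E d) ∈ N :=
    Submodule.subset_span ⟨_, U.smul_mem I hU, rfl⟩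
  have hk' : (h k : ℂ) ≠ 0 := by exact_mod_cast hk
  constructor
  · convert N.smul_mem (1 / 2 : ℂ) (N.sub_mem ha (N.smul_mem I hb)) using 1
    ext j
    · by_cases hj : j = k
      · subst hj
        simp
        norm_num
      · simp [hj]
    · by_cases hj : j = k
      · subst hj
        simp [hc, mul_left_comm I]
      · simp [hj, hc]
  · convert N.smul_mem (1 / (2 * h k) : ℂ) (N.add_mem ha (N.smul_mem I hb)) using 1
    ext j
    · by_cases hj : j = k
      · subst hj
        simp
      · simp [hj]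
    · by_cases hj : j = k
      · subst hj
        simp [hc, mul_left_comm I]
        field_simp
        norm_num
      · simp [hj, hc]

theorem top {d : ℕ} {I : Type} (h : Fin d → ℝ) (hh : ∀ k, h k ≠ 0) (pl : Fin d → I)
    (ori : Fin d → Bool) (x : EE (Fin d)) (hx : ∀ m, x m ≠ 0) (U : Submodule ℂ (E d))
    (S : Set (Fin d)) (hS : ∀ k ∈ S, Pi.single k 1 ∈ U) (hi : Set.InjOn pl Sᶜ) :
    LinearMap.range (J (side pl ori) x) ⊔
      Submodule.span ℂ ((fun x => (x, hc h x)) '' (U : Set (E d))) = ⊤ := by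
  classical
  rw [eq_top_iff]
  rintro p -
  let g : {m : Fin d ⊕ Fin d // Sum.elim id id m ∉ S} → I ⊕ I := fun m => side pl ori m.1
  have hg : Function.Injective g := fun m m' e =>
    Subtype.ext (side_inj pl ori S hi _ _ m.2 m'.2 e)
  let y : I ⊕ I → ℂ := Function.extend g (fun m => Sum.elim p.1 p.2 m.1 / x m.1) 0
  have hy : ∀ m, Sum.elim id id m ∉ S → x m * y (side pl ori m) = Sum.elim p.1 p.2 m := by
    intro m hm
    have := hg.extend_apply (fun m => Sum.elim p.1 p.2 m.1 / x m.1) (0 : I ⊕ I → ℂ) ⟨m, hm⟩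
    change y (side pl ori m) = _ at this
    rw [this, mul_div_cancel₀ _ (hx m)]
  set q := p - J (side pl ori) x y with hq
  have e : q = ∑ k, q.1 k • ((Pi.single k 1, 0) : E d × E d) +
      ∑ k, q.2 k • ((0, Pi.single k 1) : E d × E d) := by
    ext j <;> simp [Prod.fst_sum, Prod.snd_sum, Finset.sum_apply, Pi.single_apply]
  have e2 : p = J (side pl ori) x y + q := by simp [hq]
  rw [e2]
  refine Submodule.add_mem_sup ⟨y, rfl⟩ ?_
  rw [e]
  refine Submodule.add_mem _ (Submodule.sum_mem _ fun k _ => ?_)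
    (Submodule.sum_mem _ fun k _ => ?_)
  · by_cases hk : k ∈ S
    · exact Submodule.smul_mem _ _ (basis_mem h U k (hh k) (hS k hk)).1
    · have : q.1 k = 0 := sub_eq_zero.2 (hy (.inl k) hk).symm
      simp [this]
  · by_cases hk : k ∈ S
    · exact Submodule.smul_mem _ _ (basis_mem h U k (hh k) (hS k hk)).2
    · have : q.2 k = 0 := sub_eq_zero.2 (hy (.inr k) hk).symm
      simp [this]

theorem lan_mem {d M : ℕ} (A : VX d M) (D : ℕ) (f : EE (Fin d) → ℂ)
    (hf : f ∈ Lan (fun z => A.θ z 0) D) :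
    (fun z : E d × E d => f (Sum.elim z.1 z.2)) ∈ ZE.Lan A D := by
  induction hf using Submodule.span_induction with
  | mem f hf =>
    obtain ⟨j, s, hj, rfl⟩ := hf
    exact Submodule.subset_span ⟨0, j, s, hj, rfl⟩
  | zero => exact Submodule.zero_mem _
  | add f g _ _ h1 h2 => exact Submodule.add_mem _ h1 h2
  | smul c f _ h1 => exact Submodule.smul_mem _ c h1

end BrAux

open BrAux in
theorem brS (h : ZE.ZE2S) : BrS where
  grow := fun _ _ A h hA => ⟨law A h hA, bound A h hA⟩
  zero := by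
    intro d M A h' I _ pl ori hA hh hpl hd hI hG
    obtain ⟨C, hC⟩ := h d M A
    refine ⟨C, fun x D hx f hf ho => ?_⟩
    have key := hC (LinearMap.range (J (side pl ori) x)) D ?_ ?_ ?_ _ (lan_mem A D f hf) ?_
    · funext m
      have := congrFun key (fun k => m (.inl k), fun k => m (.inr k))
      simp only [Pi.zero_apply] at this ⊢
      rw [← this]
      congr 1
      funext k
      rcases k with k | k <;> rfl
    · rw [LinearMap.finrank_range_of_inj (J_inj _ x hx (side_surj pl ori hpl))]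
      simp
      omega
    · refine ⟨_, ⟨1, rfl⟩, fun e => hx (.inl ⟨0, hd⟩) ?_⟩
      have := congrFun e ⟨0, hd⟩
      simpa [J] using this
    · intro U hU hU0
      obtain ⟨S, hS, hi⟩ := hG U hU hU0
      simp only [hA.1]
      exact top h' hh pl ori x hx U S hS hi
    · rintro _ ⟨y, rfl⟩
      have := ho (jm (side pl ori) x y) ⟨y, rfl⟩
      convert this using 3 with τ
      funext k
      rcases k with k | k <;> simp [J, jm]

end Pool.Agent.Lib.MP_caab05_ag.WZ
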