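import Mathlib
import Pool.Agent.Lib.MP_caab05_ag.WZ.Stmt
import Pool.Agent.Lib.MP_caab05_ag.LT.Pluck

/-! The elimination step. -/

namespace Pool.Agent.Lib.MP_caab05_ag.WZ

open MvPolynomial Filter Topology Asymptotics Complex
open Pool.Agent.Lib.MP_caab05_ag.LT (AlgCoeff val)
open Pool.Agent.Lib.MP_caab05_ag.ZE (Ord)

namespace CoreAux

lemma pow_le_exp {x L : ℝ} {j N : ℕ} (hx0 : 0 ≤ x) (hx : x ≤ Real.exp L) (hL : 0 ≤ L)
    (hj : j ≤ N) : x ^ j ≤ Real.exp (N * L) := by
  refine (pow_le_pow_left₀ hx0 hx j).trans ?_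
  rw [← Real.exp_nat_mul]
  gcongr

/-- the last group of coordinates -/
def mat {σ K : Type} (x : Option (Option σ) → K) : σ → K := fun p => x (some (some p))

lemma grid {ι ν : Type} [Fintype ν] (sd : ι → ν) {j N : ℕ} (Q : Polynomial (MvPolynomial ι ℤ))
    (c : ℂ) (x : ι → ℂ) (hQ : ∀ (l : ℂ) (w : ι → ℂ), val Q c (l • w) = l ^ j * val Q c w)
    (hj : j ≤ N) {y : ν → ℂ} (h : val Q c (jm sd x y) ≠ 0) :
    ∃ a : ν → ℕ, (∀ k, a k ≤ N) ∧ val Q c (jm sd x fun k => (a k : ℂ)) ≠ 0 := by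
  classical
  let p : MvPolynomial ν ℂ := val Q (C c) fun m => C (x m) * X (sd m)
  have hp : ∀ y : ν → ℂ, eval y p = val Q c (jm sd x y) := by
    intro y
    simp only [p, val, Polynomial.hom_eval₂, eval_C]
    congr 1
    refine ringHom_ext' (RingHom.ext_int _ _) fun s => ?_
    rw [RingHom.comp_apply, eval₂Hom_X', eval₂Hom_X']
    simp [jm]
  have hh : p.IsHomogeneous j := LT.isHomogeneous_of_scaling fun l y _ => by
    rw [aeval_eq_eval, aeval_eq_eval, hp, hp, ← hQ]
    congr 1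
    funext m
    simp only [jm, Pi.smul_apply, smul_eq_mul]
    ring
  by_contra hcon
  push Not at hcon
  have h0 : p = 0 := by
    refine eq_zero_of_eval_zero_at_prod_finset p
      (fun _ => (Finset.range (N + 1)).image (Nat.cast : ℕ → ℂ)) (fun i => ?_) fun y hy => ?_
    · rw [Finset.card_image_of_injective _ Nat.cast_injective, Finset.card_range]
      have := degreeOf_le_totalDegree p i
      have := hh.totalDegree_le
      omega
    · simp only [Finset.mem_image, Finset.mem_range] at hy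
      choose a ha1 ha2 using hy
      rw [hp, ← funext ha2]
      exact hcon a fun k => Nat.lt_succ_iff.1 (ha1 k)
  exact h (by rw [← hp, h0, map_zero])

end CoreAux

open CoreAux LT.Pluck in
theorem coreS (h : LT.ElimAS) : CoreS := by
  classical
  intro ι ν σ _ _ _ sd pr η₀ F t c hF hηF hη0 hc
  obtain ⟨e, he'⟩ : ∃ e, e = Fintype.card σ := ⟨_, rfl⟩
  obtain ⟨η, hη1, hη2, hη3⟩ : ∃ η : Option (Option σ) → ℂ, η none = 1 ∧
      η (some none) = (∏ s, η₀ s)⁻¹ ∧ mat η = η₀ :=
    ⟨fun o => o.elim 1 fun o' => o'.elim (∏ s, η₀ s)⁻¹ η₀, rfl, rfl, rfl⟩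
  have hηF' : ∀ i, η i ∈ F := by
    rintro (_ | _ | p)
    · rw [hη1]; exact one_mem F
    · rw [hη2]; exact inv_mem (prod_mem fun s _ => hηF s)
    · rw [show η (some (some p)) = η₀ p from congrFun hη3 p]; exact hηF _
  obtain ⟨Ce, hCe, he⟩ := h t F hF _ none η (by rw [hη1]; exact one_ne_zero) hηF' c hc
  have he0 : (0 : ℝ) ≤ e := Nat.cast_nonneg e
  refine ⟨e + 2 * (Ce + 1), by linarith, ?_⟩
  intro N f τ V L hN hf hτ hL hform hV hord
  have hNe : e + 1 ≤ N := by exact_mod_cast (by linarith : (e : ℝ) + 1 ≤ N)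
  have hN1 : 1 ≤ N := by omega
  have hN1' : (1 : ℝ) ≤ N := by exact_mod_cast hN1
  have hKL : 2 * ((N : ℝ) + 1) ≤ Real.exp L := le_trans (by gcongr; linarith) hL
  have hL0 : 0 ≤ L := by
    rw [← Real.one_le_exp_iff]
    linarith
  have hNL : 0 ≤ N * L := by positivity
  have key := he N (τ + 2 * (N * L)) (V - (τ + 2 * (N * L))) hN1 (by positivity) ?_
  · have h1 : (1 : ℝ) ≤ (N : ℝ) ^ t := one_le_pow₀ hN1'
    have h3 : τ + 2 * (N * L) + N ≤ 2 * (τ + N * L + N) := by linarith
    have h4 : τ + 2 * (N * L) ≤ 2 * (τ + N * L + N) * (N : ℝ) ^ t :=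
      le_trans (by linarith) (le_mul_of_one_le_right (by positivity) h1)
    have h5 : Ce * (τ + 2 * (N * L) + N) * (N : ℝ) ^ t ≤
        Ce * (2 * (τ + N * L + N)) * (N : ℝ) ^ t := by gcongr
    have h6 : 2 * (Ce + 1) * (τ + N * L + N) * (N : ℝ) ^ t ≤
        (e + 2 * (Ce + 1)) * (τ + N * L + N) * (N : ℝ) ^ t := by gcongr; linarith
    linarith
  intro x hxi
  by_cases hGx : ∏ s, mat x s = 0
  · set R : MvPolynomial (Option (Option σ)) ℤ :=
      (X (some none) * ∏ s, X (some (some s)) - X none ^ (e + 1)) *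
        X none ^ (N - (e + 1)) with hR
    have hval : ∀ (c' : ℂ) (x : Option (Option σ) → ℂ),
        val (Polynomial.C R * 1) c' x =
          (x (some none) * ∏ s, mat x s - x none ^ (e + 1)) * x none ^ (N - (e + 1)) :=
      fun c' x => by
        rw [val_C_mul, val_one, mul_one, hR]
        simp only [map_mul, map_sub, map_pow, map_prod, aeval_X]
        rfl
    refine ⟨Polynomial.C R * 1, ⟨fun c' l x => ?_, fun c' _ x hx => ?_, ?_⟩, ?_⟩
    · have h3 : ∏ s, mat (l • x) s = l ^ e * ∏ s, mat x s := by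
        rw [he', ← Finset.card_univ, ← Finset.prod_const, ← Finset.prod_mul_distrib]
        rfl
      rw [hval, hval, h3, show l ^ N = l ^ (e + 1) * l ^ (N - (e + 1)) by
        rw [← pow_add]; congr 1; omega]
      simp only [Pi.smul_apply, smul_eq_mul, mul_pow]
      ring
    · have h3 : ∀ i, ‖x i‖ ≤ 1 := fun i => (norm_le_pi_norm x i).trans hx
      have h4 : ‖x (some none) * ∏ s, mat x s - x none ^ (e + 1)‖ ≤ 1 + 1 := by
        refine (norm_sub_le _ _).trans (add_le_add ?_ ?_)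
        · rw [norm_mul, norm_prod]
          exact (mul_le_of_le_one_left (Finset.prod_nonneg fun _ _ => norm_nonneg _) (h3 _)).trans
            (Finset.prod_le_one (fun _ _ => norm_nonneg _) fun _ _ => h3 _)
        · rw [norm_pow]
          exact pow_le_one₀ (norm_nonneg _) (h3 _)
      rw [hval, norm_mul, norm_pow]
      refine (mul_le_of_le_one_right (norm_nonneg _) (pow_le_one₀ (norm_nonneg _) (h3 _))).trans
        (h4.trans (le_trans (by linarith) (hKL.trans (Real.exp_le_exp.2 ?_))))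
      have : L ≤ N * L := le_mul_of_one_le_left hL0 hN1'
      linarith
    · rw [hval, hη1, hη2, hη3, inv_mul_cancel₀ (Finset.prod_ne_zero_iff.2 fun s _ => hη0 s),
        one_pow, sub_self, zero_mul, norm_zero]
      exact (Real.exp_pos _).le
    · rw [hval, hGx, mul_zero, zero_sub]
      exact mul_ne_zero (neg_ne_zero.2 (pow_ne_zero _ hxi)) (pow_ne_zero _ hxi)
  have hline : ∀ w : ι → ℂ, Differentiable ℂ fun s : ℂ => f (s • w) :=
    fun w => hf.comp (f := fun s : ℂ => s • w) (by fun_prop)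
  have hex : ∃ y : ν → ℂ, ∃ j ≤ N,
      iteratedDeriv j (fun s : ℂ => f (s • jm sd (mat x ∘ pr) y)) 0 ≠ 0 := by
    by_contra hcon
    push Not at hcon
    refine hord (mat x) (fun s => Finset.prod_ne_zero_iff.1 hGx s (Finset.mem_univ s)) ?_
    rintro _ ⟨y, rfl⟩
    simp only [zero_add]
    exact (LT.isBigO_pow_iff ((hline _).analyticAt 0) (N + 1)).2 fun j hj =>
      hcon y j (Nat.lt_succ_iff.1 hj)
  obtain ⟨y, j, hjN, hw0⟩ := hex
  obtain ⟨Q, κ, hκ0, hκ, hQ1, hQ2, hQ3⟩ := hform j hjN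
  obtain ⟨a, ha, ha0⟩ := grid sd Q c (mat x ∘ pr) (hQ3 c) hjN (y := y)
    (by rw [hQ1]; exact mul_ne_zero hκ0 hw0)
  let g : ι → MvPolynomial (Option (Option σ)) ℤ :=
    fun m => X (some (some (pr m))) * (a (sd m) : MvPolynomial (Option (Option σ)) ℤ)
  have hval : ∀ (c' : ℂ) (x : Option (Option σ) → ℂ),
      val (Polynomial.C (X none ^ (N - j)) * Q.map (eval₂Hom C g)) c' x =
        x none ^ (N - j) * val Q c' (jm sd (mat x ∘ pr) fun k => (a k : ℂ)) := fun c' x => by
    rw [val_C_mul, val_map]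
    congr 2
    · simp
    · ext m
      simp [g, jm, mat]
  have hjN' : (j : ℝ) ≤ N := by exact_mod_cast hjN
  have e1 : (N : ℝ) ^ j ≤ Real.exp (N * L) := pow_le_exp (by linarith) (by linarith) hL0 hjN
  refine ⟨Polynomial.C (X none ^ (N - j)) * Q.map (eval₂Hom C g),
    ⟨fun c' l x => ?_, fun c' hc' x hx => ?_, ?_⟩, ?_⟩
  · have : (jm sd (mat (l • x) ∘ pr) fun k => (a k : ℂ)) =
        l • jm sd (mat x ∘ pr) fun k => (a k : ℂ) := by
      funext m
      simp only [jm, mat, Function.comp_apply, Pi.smul_apply, smul_eq_mul, mul_assoc]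
    rw [hval, hval, this, hQ3, Pi.smul_apply, smul_eq_mul, mul_pow,
      show l ^ N = l ^ (N - j) * l ^ j by rw [← pow_add]; congr 1; omega]
    ring
  · rw [hval, norm_mul, norm_pow]
    have e0 : ‖x none‖ ^ (N - j) ≤ 1 :=
      pow_le_one₀ (norm_nonneg _) ((norm_le_pi_norm x none).trans hx)
    have e2 : ‖jm sd (mat x ∘ pr) fun k => (a k : ℂ)‖ ≤ N := by
      refine (pi_norm_le_iff_of_nonneg (by linarith)).2 fun m => ?_
      simp only [jm, mat, Function.comp_apply, norm_mul, Complex.norm_natCast]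
      refine (mul_le_of_le_one_left (Nat.cast_nonneg _) ((norm_le_pi_norm x _).trans hx)).trans ?_
      exact_mod_cast ha _
    calc _ ≤ 1 * (Real.exp τ * Real.exp (N * L)) := by
          gcongr
          refine (hQ2 c' hc' _).trans ?_
          gcongr
          exact (pow_le_pow_left₀ (norm_nonneg _) e2 j).trans e1
      _ ≤ _ := by
          simp only [← Real.exp_add, one_mul, Real.exp_le_exp]
          linarith
  · have hN0 : (0 : ℝ) < N := by linarith
    have h1 : ∀ s ∈ Metric.sphere (0 : ℂ) (N : ℝ)⁻¹,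
        ‖f (s • jm sd (η₀ ∘ pr) fun k => (a k : ℂ))‖ ≤ Real.exp (-V) := by
      intro s hs
      rw [mem_sphere_zero_iff_norm] at hs
      have h2 : (s • jm sd (η₀ ∘ pr) fun k => (a k : ℂ)) =
          jm sd (η₀ ∘ pr) fun k => s * (a k : ℂ) := by
        funext m
        simp only [jm, Pi.smul_apply, smul_eq_mul]
        ring
      rw [h2]
      refine hV _ ((pi_norm_le_iff_of_nonneg zero_le_one).2 fun k => ?_)
      rw [norm_mul, hs, Complex.norm_natCast, inv_mul_le_iff₀ hN0, mul_one]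
      exact_mod_cast ha k
    have e4 := Complex.norm_iteratedDeriv_le_of_forall_mem_sphere_norm_le j (inv_pos.2 hN0)
      (hline _).diffContOnCl h1
    have e2 : (j.factorial : ℝ) ≤ Real.exp (N * L) := by
      refine le_trans (by exact_mod_cast Nat.factorial_le_pow j) (pow_le_exp (x := j)
        (by positivity) (by linarith) hL0 hjN)
    rw [inv_pow, div_inv_eq_mul] at e4
    rw [hval, hQ1, hη1, hη3, one_pow, one_mul, norm_mul]
    calc _ ≤ Real.exp τ * (Real.exp (N * L) * Real.exp (-V) * Real.exp (N * L)) := by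
          gcongr
          refine e4.trans ?_
          gcongr
      _ ≤ _ := by
          simp only [← Real.exp_add, Real.exp_le_exp]
          linarith
  · rw [hval]
    exact mul_ne_zero (pow_ne_zero _ hxi) ha0

end Pool.Agent.Lib.MP_caab05_ag.WZ
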