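import Mathlib
import Pool.Agent.Lib.MP_caab05_ag.WZ.Stmt
import Pool.Agent.Lib.MP_caab05_ag.GB.Osg

/-! Linear independence of the auxiliary functions. -/

namespace Pool.Agent.Lib.MP_caab05_ag.WZ

open Complex

namespace IndAux

variable {κ : Type} [Fintype κ] [DecidableEq κ]

/-- the derivative of order `D` along the ray through `s` -/
noncomputable def cG (G : (κ → ℂ) → ℂ) (D : ℕ) (s : κ → ℂ) : ℂ :=
  iteratedDeriv D (fun τ : ℂ => cexp τ * G (τ • s)) 0

/-- the derivative in the direction of a coordinate -/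
noncomputable def dk (G : (κ → ℂ) → ℂ) (k : κ) (y : κ → ℂ) : ℂ := fderiv ℂ G y (Pi.single k 1)

lemma dk_diff {G : (κ → ℂ) → ℂ} (hG : Differentiable ℂ G) (k : κ) : Differentiable ℂ (dk G k) := by
  have h1 : AnalyticOnNhd ℂ G Set.univ := GB.osg _ _ G Set.univ isOpen_univ hG.differentiableOn
  have h2 : Differentiable ℂ (fderiv ℂ G) := fun p =>
    (h1.fderiv p (Set.mem_univ p)).differentiableAt
  exact h2.clm_apply (differentiable_const _)

omit [DecidableEq κ] in
lemma line_diff {G : (κ → ℂ) → ℂ} (hG : Differentiable ℂ G) (s : κ → ℂ) :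
    Differentiable ℂ fun τ : ℂ => cexp τ * G (τ • s) :=
  Complex.differentiable_exp.mul (hG.comp (f := fun τ : ℂ => τ • s) (by fun_prop))

lemma cG_succ {G : (κ → ℂ) → ℂ} (hG : Differentiable ℂ G) (D : ℕ) (s : κ → ℂ) :
    cG G (D + 1) s = cG G D s + ∑ k, s k * cG (dk G k) D s := by
  have h1 : deriv (fun τ : ℂ => cexp τ * G (τ • s)) = (fun τ : ℂ => cexp τ * G (τ • s)) +
      fun τ : ℂ => ∑ k, s k * (cexp τ * dk G k (τ • s)) := by
    funext τ
    have h2 : HasDerivAt (fun τ : ℂ => τ • s) s τ := by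
      simpa using (hasDerivAt_id τ).smul_const s
    have h3 : HasDerivAt (fun τ : ℂ => G (τ • s)) (fderiv ℂ G (τ • s) s) τ :=
      (hG (τ • s)).hasFDerivAt.comp_hasDerivAt τ h2
    have h4 : fderiv ℂ G (τ • s) s = ∑ k, s k * dk G k (τ • s) := by
      have e : s = ∑ k, s k • (Pi.single k 1 : κ → ℂ) := by
        funext j
        simp [Finset.sum_apply, Pi.single_apply]
      refine (congrArg (fderiv ℂ G (τ • s)) e).trans ?_
      simp only [map_sum, map_smul, smul_eq_mul, dk]
    rw [((Complex.hasDerivAt_exp τ).fun_mul h3).deriv, h4, Pi.add_apply, Finset.mul_sum]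
    congr 1
    exact Finset.sum_congr rfl fun k _ => by ring
  have h5 : ∀ k, Differentiable ℂ fun τ : ℂ => s k * (cexp τ * dk G k (τ • s)) := fun k =>
    (line_diff (dk_diff hG k) s).const_mul _
  unfold cG
  rw [iteratedDeriv_succ', h1, iteratedDeriv_add (line_diff hG s).contDiff.contDiffAt
    (Differentiable.fun_sum fun k _ => h5 k).contDiff.contDiffAt,
    iteratedDeriv_fun_sum fun k _ => (h5 k).contDiff.contDiffAt]
  simp only [iteratedDeriv_const_mul_field]

omit [DecidableEq κ] in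
lemma psi_diff {θ : (κ → ℂ) → ℂ} (hθ : Differentiable ℂ θ) (x : EE κ) :
    Differentiable ℂ (psi θ x) := by
  unfold psi
  refine Differentiable.mul (hθ.comp (f := fun s : κ → ℂ => zz x + s) (by fun_prop)) ?_
  unfold dotProduct
  fun_prop

lemma twist {f : ℂ → ℂ} (hf : Differentiable ℂ f) (D : ℕ) (c : ℂ) :
    HasDerivAt (fun t : ℂ => iteratedDeriv (D + 1) (fun τ => cexp (c * t * τ) * f τ) 0)
      ((D + 1) * c * iteratedDeriv D f 0) 0 := by
  have h1 : ∀ t : ℂ, iteratedDeriv (D + 1) (fun τ => cexp (c * t * τ) * f τ) 0 =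
      ∑ i ∈ Finset.range (D + 1 + 1),
        ((D + 1).choose i * c ^ i * iteratedDeriv (D + 1 - i) f 0) * t ^ i := by
    intro t
    have h2 : Differentiable ℂ fun τ : ℂ => cexp (c * t * τ) := by fun_prop
    rw [iteratedDeriv_fun_mul h2.contDiff.contDiffAt hf.contDiff.contDiffAt]
    refine Finset.sum_congr rfl fun i _ => ?_
    rw [iteratedDeriv_cexp_const_mul]
    simp only [mul_zero, Complex.exp_zero, mul_one, mul_pow]
    ring
  simp only [h1]
  have h3 := HasDerivAt.fun_sum (u := Finset.range (D + 1 + 1)) fun i _ =>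
    (hasDerivAt_pow i (0 : ℂ)).const_mul
      ((D + 1).choose i * c ^ i * iteratedDeriv (D + 1 - i) f 0)
  refine h3.congr_deriv ?_
  rw [Finset.sum_eq_single 1]
  · simp
  · intro i _ hi
    rcases i with _ | _ | i
    · simp
    · exact absurd rfl hi
    · simp
  · intro h
    exact absurd (Finset.mem_range.2 (by omega)) h

variable {A : Type} [Fintype A]

/-- the linear relation -/
def Hyp (θ : (κ → ℂ) → ℂ) (s : A → κ → ℂ) (D : ℕ) (p : A → ℂ) : Prop :=
  ∀ x, ∑ a, p a * col θ D (s a) x = 0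

lemma hyp_mul {θ : (κ → ℂ) → ℂ} (hθ : Differentiable ℂ θ) {s : A → κ → ℂ} {D : ℕ} {p : A → ℂ}
    (h : Hyp θ s (D + 1) p) (k : κ) : Hyp θ s D fun a => p a * s a k := by
  intro x
  have h1 : ∀ (t : ℂ) (a : A), col θ (D + 1) (s a) (x - t • Pi.single (.inr k) 1) =
      iteratedDeriv (D + 1)
        (fun τ => cexp (s a k * t * τ) * (cexp τ * psi θ x (τ • s a))) 0 := by
    intro t a
    unfold col
    congr 1
    funext τ
    have e1 : zz (x - t • Pi.single (.inr k) 1) = zz x := by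
      funext j
      simp [zz]
    have e2 : uu (x - t • Pi.single (.inr k) 1) = uu x - t • Pi.single k 1 := by
      funext j
      simp [uu, Pi.single_apply]
    unfold psi
    rw [e1, e2, sub_dotProduct, smul_dotProduct, single_dotProduct, neg_sub, sub_eq_add_neg,
      Complex.exp_add]
    simp only [Pi.smul_apply, smul_eq_mul, one_mul]
    rw [show t * (τ * s a k) = s a k * t * τ by ring]
    ring
  have h2 := HasDerivAt.fun_sum (u := Finset.univ) fun a _ =>
    (twist (line_diff (psi_diff hθ x) (s a)) D (s a k)).const_mul (p a)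
  simp only [← h1, h _] at h2
  have h3 := (hasDerivAt_const (0 : ℂ) (0 : ℂ)).unique h2
  have h4 : ((D : ℂ) + 1) ≠ 0 := by exact_mod_cast Nat.succ_ne_zero D
  refine mul_left_cancel₀ h4 ?_
  rw [mul_zero, h3, Finset.mul_sum]
  refine Finset.sum_congr rfl fun a _ => ?_
  unfold col
  ring

lemma kill {θ : (κ → ℂ) → ℂ} (hθ : Differentiable ℂ θ) (h0 : ∃ z, θ z ≠ 0) (s : A → κ → ℂ)
    (D : ℕ) : ∀ p : A → ℂ, Hyp θ s D p → ∑ a, p a = 0 ∧
      ∀ i ≤ D, ∀ G : (κ → ℂ) → ℂ, Differentiable ℂ G → ∑ a, p a * cG G i (s a) = 0 := by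
  obtain ⟨z, hz⟩ := h0
  have key : ∀ (D : ℕ) (p : A → ℂ), Hyp θ s D p →
      (∀ i < D, ∀ G : (κ → ℂ) → ℂ, Differentiable ℂ G → ∀ k,
        ∑ a, p a * s a k * cG G i (s a) = 0) → ∑ a, p a = 0 ∧
      ∀ i ≤ D, ∀ G : (κ → ℂ) → ℂ, Differentiable ℂ G → ∑ a, p a * cG G i (s a) = 0 := by
    intro D p h ih
    have h1 : ∀ i ≤ D, ∀ G : (κ → ℂ) → ℂ, Differentiable ℂ G →
        ∑ a, p a * cG G i (s a) = G 0 * ∑ a, p a := by
      intro i hi G hG
      induction i with
      | zero =>
        rw [Finset.mul_sum]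
        refine Finset.sum_congr rfl fun a _ => ?_
        simp [cG, mul_comm]
      | succ i ihi =>
        rw [← ihi (by omega)]
        simp only [cG_succ hG, mul_add, Finset.sum_add_distrib, Finset.mul_sum, ← mul_assoc]
        rw [Finset.sum_comm, Finset.sum_eq_zero fun k _ => ih i (by omega) _ (dk_diff hG k) k,
          add_zero]
    have h2 := h1 D le_rfl _ (psi_diff hθ (Sum.elim z 0))
    have h3 : psi θ (Sum.elim z 0) 0 = θ z := by
      have e : zz (Sum.elim z 0 : EE κ) = z := rfl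
      simp [psi, e]
    have h4 : ∑ a, p a = 0 := by
      rw [h3] at h2
      exact (mul_eq_zero.1 (h2.symm.trans (h _))).resolve_left hz
    exact ⟨h4, fun i hi G hG => by rw [h1 i hi G hG, h4, mul_zero]⟩
  induction D with
  | zero => exact fun p h => key 0 p h fun i hi => absurd hi (Nat.not_lt_zero i)
  | succ D ih =>
    exact fun p h => key _ p h fun i hi G hG k =>
      (ih _ (hyp_mul hθ h k)).2 i (by omega) G hG

lemma hyp_down {θ : (κ → ℂ) → ℂ} (hθ : Differentiable ℂ θ) (h0 : ∃ z, θ z ≠ 0) {s : A → κ → ℂ}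
    {D : ℕ} {p : A → ℂ} (h : Hyp θ s (D + 1) p) (k : κ) (c : ℂ) :
    Hyp θ s D fun a => p a * (s a k - c) := by
  intro x
  have h1 := hyp_mul hθ h k x
  have h2 : ∑ a, p a * col θ D (s a) x = 0 :=
    (kill hθ h0 s _ p h).2 D (Nat.le_succ D) _ (psi_diff hθ x)
  calc ∑ a, p a * (s a k - c) * col θ D (s a) x
      = ∑ a, p a * s a k * col θ D (s a) x - c * ∑ a, p a * col θ D (s a) x := by
        rw [Finset.mul_sum, ← Finset.sum_sub_distrib]
        exact Finset.sum_congr rfl fun a _ => by ring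
    _ = 0 := by rw [h1, h2, mul_zero, sub_zero]

lemma prod_kill {θ : (κ → ℂ) → ℂ} (hθ : Differentiable ℂ θ) (h0 : ∃ z, θ z ≠ 0) (s : A → κ → ℂ)
    {B : Type} [DecidableEq B] (k : B → κ) (c : B → ℂ) (F : Finset B) :
    ∀ (D : ℕ) (p : A → ℂ), F.card ≤ D → Hyp θ s D p →
      ∑ a, p a * ∏ q ∈ F, (s a (k q) - c q) = 0 := by
  induction F using Finset.induction_on with
  | empty =>
    intro D p _ h
    simpa using (kill hθ h0 s D p h).1
  | insert q F hq ih =>
    intro D p hD h
    rw [Finset.card_insert_of_notMem hq] at hD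
    obtain ⟨D, rfl⟩ : ∃ D', D = D' + 1 := ⟨D - 1, by omega⟩
    have := ih D _ (by omega) (hyp_down hθ h0 h (k q) (c q))
    simpa only [Finset.prod_insert hq, mul_assoc] using this

end IndAux

open IndAux in
theorem indS : IndS := by
  intro κ _ _ θ hθ h0 m D p hD h
  funext a₀
  let F : Finset (Σ _ : κ, Fin (m + 1)) := Finset.univ.sigma fun k => Finset.univ.erase (a₀ k)
  have hF : F.card ≤ D := by
    simpa [F, Finset.card_sigma, Finset.card_erase_of_mem] using hD
  have h1 := prod_kill hθ h0 (fun (a : κ → Fin (m + 1)) k => ((a k : ℕ) : ℂ))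
    (fun q : Σ _ : κ, Fin (m + 1) => q.1) (fun q => ((q.2 : ℕ) : ℂ)) F D p hF h
  rw [Finset.sum_eq_single a₀] at h1
  · refine (mul_eq_zero.1 h1).resolve_right (Finset.prod_ne_zero_iff.2 fun q hq e => ?_)
    have h2 : q.2 ≠ a₀ q.1 := by simpa [F] using hq
    exact h2 (Fin.ext (by exact_mod_cast (sub_eq_zero.1 e).symm))
  · intro a _ ha
    obtain ⟨k, hk⟩ := Function.ne_iff.1 ha
    rw [Finset.prod_eq_zero (i := ⟨k, a k⟩) (by simpa [F] using hk) (sub_self _), mul_zero]
  · intro h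
    exact absurd (Finset.mem_univ _) h

end Pool.Agent.Lib.MP_caab05_ag.WZ
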