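import Mathlib
import Pool.Agent.Lib.MP_caab05_ag.WZ.Stmt
import Pool.Agent.Lib.MP_caab05_ag.LT.JetB

/-! Arithmetic of the jets in two directions. -/

namespace Pool.Agent.Lib.MP_caab05_ag.WZ

open MvPolynomial Filter Topology Asymptotics Complex
open Pool.Agent.Lib.MP_caab05_ag.LT (AlgCoeff val)
open Pool.Agent.Lib.MP_caab05_ag.LT.JetBAux (hasDerivAt_eval₂ hasDerivAt_dir hasDerivAt_line
  cauchy_dir finite_roots)

namespace Jet2Aux

section General

variable {σ R : Type} [Fintype σ] [CommRing R]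

/-- the derivation attached to a polynomial vector field -/
noncomputable def der (V : σ → MvPolynomial σ R) (F : MvPolynomial σ R) : MvPolynomial σ R :=
  ∑ i, V i * pderiv i F

lemma eval_der (ψ : R →+* ℂ) (V : σ → MvPolynomial σ R) (x : σ → ℂ) (F : MvPolynomial σ R) :
    eval₂ ψ x (der V F) = ∑ i, eval₂ ψ x (V i) * eval₂ ψ x (pderiv i F) := by
  unfold der
  rw [eval₂_sum]
  exact Finset.sum_congr rfl fun i _ => eval₂_mul _ _

lemma jet (ψ : R →+* ℂ) (V : σ → MvPolynomial σ R) (b : ℂ) (γ γ' : ℂ → σ → ℂ)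
    (hγ : ∀ᶠ τ in 𝓝 (0 : ℂ), HasDerivAt γ (γ' τ) τ ∧ ∀ i, b * γ' τ i = eval₂ ψ (γ τ) (V i))
    (F : MvPolynomial σ R) (j : ℕ) :
    ∀ᶠ τ in 𝓝 (0 : ℂ), b ^ j * iteratedDeriv j (fun τ : ℂ => eval₂ ψ (γ τ) F) τ =
      eval₂ ψ (γ τ) ((der V)^[j] F) := by
  induction j with
  | zero =>
    refine Eventually.of_forall fun τ => ?_
    simp only [pow_zero, one_mul, iteratedDeriv_zero, Function.iterate_zero, id]
  | succ j ih =>
    filter_upwards [ih.eventually_nhds, hγ] with τ h1 h2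
    rw [Function.iterate_succ_apply', eval_der, iteratedDeriv_succ]
    have h5 := (hasDerivAt_eval₂ ψ ((der V)^[j] F) h2.1).deriv
    have h6 := EventuallyEq.deriv_eq h1
    rw [h5, deriv_const_mul_field] at h6
    rw [pow_succ', mul_assoc, h6, Finset.mul_sum]
    refine Finset.sum_congr rfl fun i _ => ?_
    rw [← mul_assoc, h2.2 i]

lemma bound (ψ : R →+* ℂ) (V : σ → MvPolynomial σ R) {r L β : ℝ}
    (hL : ∀ x : σ → ℂ, ‖x‖ ≤ r + 1 → ‖fun i => eval₂ ψ x (V i)‖ ≤ L) (F : MvPolynomial σ R)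
    (hF : ∀ x : σ → ℂ, ‖x‖ ≤ r + 1 → ‖eval₂ ψ x F‖ ≤ β) (J k : ℕ) (x : σ → ℂ)
    (hx : ‖x‖ ≤ r + 1 - k * (1 / ((J : ℝ) + 1))) :
    ‖eval₂ ψ x ((der V)^[k] F)‖ ≤ β * (L * (J + 1)) ^ k := by
  have hη : (0 : ℝ) < 1 / ((J : ℝ) + 1) := by positivity
  induction k generalizing x with
  | zero => simpa using hF x (by simpa using hx)
  | succ k ih =>
    rw [Function.iterate_succ_apply', eval_der]
    have h1 : ‖x‖ ≤ r + 1 := by
      have : (0 : ℝ) ≤ ((k + 1 : ℕ) : ℝ) * (1 / ((J : ℝ) + 1)) := by positivity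
      linarith
    have h2 := cauchy_dir ψ ((der V)^[k] F) hη
      (ρ := r + 1 - ((k + 1 : ℕ) : ℝ) * (1 / ((J : ℝ) + 1))) (β := β * (L * (J + 1)) ^ k)
      (fun y hy => ih y (by push_cast at hy; linarith)) hx (hL x h1)
    refine h2.trans (le_of_eq ?_)
    rw [pow_succ, div_div_eq_mul_div, div_one, mul_assoc]

lemma bound' (ψ : R →+* ℂ) (V : σ → MvPolynomial σ R) {r L β : ℝ}
    (hL : ∀ x : σ → ℂ, ‖x‖ ≤ r + 1 → ‖fun i => eval₂ ψ x (V i)‖ ≤ L) (F : MvPolynomial σ R)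
    (hF : ∀ x : σ → ℂ, ‖x‖ ≤ r + 1 → ‖eval₂ ψ x F‖ ≤ β) (k : ℕ) (x : σ → ℂ) (hx : ‖x‖ ≤ r) :
    ‖eval₂ ψ x ((der V)^[k] F)‖ ≤ β * (L * (k + 1)) ^ k := by
  refine bound ψ V hL F hF k k x ?_
  have : (k : ℝ) * (1 / ((k : ℝ) + 1)) ≤ 1 := by
    rw [mul_one_div, div_le_one (by positivity)]
    linarith
  linarith

end General

variable {ι σ : Type}

/-- the coefficient ring -/
abbrev Rg (ι : Type) : Type := Polynomial (MvPolynomial ι ℤ)

/-- specialisation of `ℤ[X]` -/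
noncomputable abbrev ps0 (c : ℂ) : Polynomial ℤ →+* ℂ :=
  Polynomial.eval₂RingHom (Int.castRingHom ℂ) c

/-- specialisation of the coefficient ring -/
noncomputable def ps (c : ℂ) (w : ι → ℂ) : Rg ι →+* ℂ :=
  Polynomial.eval₂RingHom (eval₂Hom (Int.castRingHom ℂ) w) c

/-- the inclusion of `ℤ[X]` -/
noncomputable def inc (ι : Type) : Polynomial ℤ →+* Rg ι := Polynomial.mapRingHom C

lemma ps_comp (c : ℂ) (w : ι → ℂ) : (ps c w).comp (inc ι) = ps0 c := by
  apply Polynomial.ringHom_ext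
  · intro a
    simp only [eq_intCast, map_intCast]
  · simp [ps, inc]

lemma ps_inc (c : ℂ) (w : ι → ℂ) (p : Polynomial ℤ) : ps c w (inc ι p) = Polynomial.aeval c p := by
  have := congrArg (fun f : Polynomial ℤ →+* ℂ => f p) (ps_comp c w)
  simpa [Polynomial.aeval_def] using this

lemma ps_X (c : ℂ) (w : ι → ℂ) (j : ι) : ps c w (Polynomial.C (X j)) = w j := by
  simp [ps]

lemma eval_base (c : ℂ) (w : ι → ℂ) (x : σ → ℂ) (P : MvPolynomial σ (Polynomial ℤ)) :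
    eval₂ (ps c w) x (map (inc ι) P) = eval₂ (ps0 c) x P := by
  rw [eval₂_map, ps_comp]

lemma val_eq (c : ℂ) (w : ι → ℂ) (e : σ → Polynomial ℤ) (F : MvPolynomial σ (Rg ι)) :
    val (eval (fun i => inc ι (e i)) F) c w =
      eval₂ (ps c w) (fun i => Polynomial.aeval c (e i)) F := by
  have h1 : val (eval (fun i => inc ι (e i)) F) c w =
      ps c w (eval (fun i => inc ι (e i)) F) := rfl
  rw [h1, eval₂_comp]
  congr 1
  ext i
  exact ps_inc c w (e i)

variable [Fintype ι]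

/-- the vector field -/
noncomputable def vf (G : σ → ι → MvPolynomial σ (Polynomial ℤ)) (c : ℂ) (w : ι → ℂ)
    (x : σ → ℂ) : σ → ℂ := fun i => ∑ j, w j * evc c x (G i j)

/-- the field in the generic direction -/
noncomputable def VG (G : σ → ι → MvPolynomial σ (Polynomial ℤ)) (i : σ) :
    MvPolynomial σ (Rg ι) := ∑ j, C (Polynomial.C (X j)) * map (inc ι) (G i j)

/-- the field in an integral direction -/
noncomputable def VZ (G : σ → ι → MvPolynomial σ (Polynomial ℤ)) (v : ι → ℕ) (i : σ) :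
    MvPolynomial σ (Polynomial ℤ) := ∑ j, C (v j : Polynomial ℤ) * G i j

lemma eval_VG (G : σ → ι → MvPolynomial σ (Polynomial ℤ)) (c : ℂ) (w : ι → ℂ) (x : σ → ℂ)
    (i : σ) : eval₂ (ps c w) x (VG G i) = vf G c w x i := by
  unfold VG vf
  rw [eval₂_sum]
  refine Finset.sum_congr rfl fun j _ => ?_
  rw [eval₂_mul, eval₂_C, ps_X, eval_base]
  rfl

lemma eval_VZ (G : σ → ι → MvPolynomial σ (Polynomial ℤ)) (c : ℂ) (v : ι → ℕ) (x : σ → ℂ)
    (i : σ) : eval₂ (ps0 c) x (VZ G v i) = vf G c (fun k => (v k : ℂ)) x i := by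
  unfold VZ vf
  rw [eval₂_sum]
  refine Finset.sum_congr rfl fun j _ => ?_
  rw [eval₂_mul, eval₂_C, map_natCast]
  rfl

lemma vf_smul (G : σ → ι → MvPolynomial σ (Polynomial ℤ)) (c l : ℂ) (w : ι → ℂ)
    (x : σ → ℂ) (i : σ) : vf G c (l • w) x i = l * vf G c w x i := by
  simp only [vf, Pi.smul_apply, smul_eq_mul, Finset.mul_sum, mul_assoc]

variable [Fintype σ]

lemma scale (G : σ → ι → MvPolynomial σ (Polynomial ℤ)) (c l : ℂ) (w : ι → ℂ)
    (P : MvPolynomial σ (Polynomial ℤ)) (j : ℕ) (x : σ → ℂ) :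
    eval₂ (ps c (l • w)) x ((der (VG G))^[j] (map (inc ι) P)) =
      l ^ j * eval₂ (ps c w) x ((der (VG G))^[j] (map (inc ι) P)) := by
  induction j generalizing x with
  | zero => simp only [Function.iterate_zero, id, eval_base, pow_zero, one_mul]
  | succ j ih =>
    rw [Function.iterate_succ_apply', eval_der, eval_der]
    set F := (der (VG G))^[j] (map (inc ι) P)
    have h1 := hasDerivAt_dir (ps c (l • w)) F x (vf G c w x)
    have h2 := (hasDerivAt_dir (ps c w) F x (vf G c w x)).const_mul (l ^ j)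
    simp only [ih] at h1
    have h3 := h1.unique h2
    simp only [eval_VG, vf_smul, mul_assoc, ← Finset.mul_sum]
    rw [h3]
    ring

omit [Fintype ι] in
lemma continuous_evc (c : ℂ) (P : MvPolynomial σ (Polynomial ℤ)) :
    Continuous fun x : σ → ℂ => evc c x P := by
  have := (LT.differentiable_eval (map (ps0 c) P)).continuous
  simpa only [eval_map, evc] using this

lemma exists_vf_bound (G : σ → ι → MvPolynomial σ (Polynomial ℤ)) (c : ℂ) (r : ℝ) :
    ∃ Γ : ℝ, 0 ≤ Γ ∧ ∀ (w : ι → ℂ) (x : σ → ℂ), ‖x‖ ≤ r → ‖vf G c w x‖ ≤ Γ * ‖w‖ := by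
  have hc : Continuous fun (x : σ → ℂ) (p : σ × ι) => evc c x (G p.1 p.2) :=
    continuous_pi fun p => continuous_evc c _
  obtain ⟨K, hK⟩ := (isCompact_closedBall (0 : σ → ℂ) r).exists_bound_of_continuousOn
    hc.continuousOn
  refine ⟨Fintype.card ι * max K 0, by positivity, fun w x hx => ?_⟩
  rw [pi_norm_le_iff_of_nonneg (by positivity)]
  intro i
  refine (norm_sum_le _ _).trans ?_
  have h1 : ∀ j ∈ (Finset.univ : Finset ι), ‖w j * evc c x (G i j)‖ ≤ max K 0 * ‖w‖ := by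
    intro j _
    rw [norm_mul, mul_comm]
    have h2 := (norm_le_pi_norm _ (i, j)).trans (hK x (mem_closedBall_zero_iff.2 hx))
    exact mul_le_mul (h2.trans (le_max_left _ _)) (norm_le_pi_norm w j) (norm_nonneg _)
      (le_max_right _ _)
  refine (Finset.sum_le_card_nsmul _ _ _ h1).trans (le_of_eq ?_)
  simp [mul_assoc]

lemma line (G : σ → ι → MvPolynomial σ (Polynomial ℤ)) (c b : ℂ) (φ : (ι → ℂ) → σ → ℂ)
    (z u : ι → ℂ) (hφ : ∀ᶠ y in 𝓝 z, DifferentiableAt ℂ φ y ∧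
      ∀ w s, b * fderiv ℂ φ y w s = ∑ k, w k * evc c (φ y) (G s k)) :
    ∀ᶠ τ in 𝓝 (0 : ℂ), HasDerivAt (fun τ : ℂ => φ (z + τ • u)) (fderiv ℂ φ (z + τ • u) u) τ ∧
      ∀ i, b * fderiv ℂ φ (z + τ • u) u i = vf G c u (φ (z + τ • u)) i := by
  have ht : Tendsto (fun τ : ℂ => z + τ • u) (𝓝 0) (𝓝 z) := by
    have : Continuous fun τ : ℂ => z + τ • u := by fun_prop
    simpa using this.tendsto 0
  filter_upwards [ht.eventually hφ] with τ h
  exact ⟨h.1.hasFDerivAt.comp_hasDerivAt τ (hasDerivAt_line z u τ), fun i => h.2 u i⟩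

end Jet2Aux

open Jet2Aux in
theorem jet2 : Jet2S := by
  rintro ι _ f ⟨σ, _, c, a, a', φ, e, G, P₀, hc, ha, ha', h0, hφ⟩
  have hS := finite_roots (minpoly.ne_zero hc)
  obtain ⟨ρ, hρ⟩ := (hS.image fun c' : ℂ =>
    ‖(fun i => Polynomial.aeval c' (e i) : σ → ℂ)‖).bddAbove
  choose Γ hΓ0 hΓ using fun c' : ℂ => exists_vf_bound G c' (ρ + 1 + 1)
  obtain ⟨Γ₁, hΓ₁⟩ := (hS.image Γ).bddAbove
  choose β hβ using fun c' : ℂ =>
    (isCompact_closedBall (0 : σ → ℂ) (ρ + 1 + 1)).exists_bound_of_continuousOn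
      (continuous_evc c' P₀).continuousOn
  obtain ⟨β₁, hβ₁⟩ := (hS.image β).bddAbove
  obtain ⟨C, hC1, hC2, hC3⟩ : ∃ C : ℝ, 1 ≤ C ∧ Γ₁ ≤ C ∧ β₁ ≤ C :=
    ⟨max 1 (max Γ₁ β₁), le_max_left _ _, (le_max_left _ _).trans (le_max_right _ _),
      (le_max_right _ _).trans (le_max_right _ _)⟩
  refine ⟨c, a, a', C, hc, ha, ha', hC1, fun D n m v hm hv => ?_⟩
  refine ⟨eval (fun i => inc ι (e i))
    ((der (VG G))^[n] (map (inc ι) ((der (VZ G v))^[D] P₀))), fun w => ?_, fun c' hc' w => ?_,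
    fun c' l w => ?_⟩
  · have h1 : ∀ᶠ z in 𝓝 (0 : ι → ℂ), (a : ℂ) * (a' : ℂ) ^ D *
        iteratedDeriv D (fun τ : ℂ => f (z + τ • fun k => (v k : ℂ))) 0 =
          eval₂ (ps0 c) (φ z) ((der (VZ G v))^[D] P₀) := by
      filter_upwards [hφ.eventually_nhds] with z hz
      have ht : Tendsto (fun τ : ℂ => z + τ • fun k => (v k : ℂ)) (𝓝 0) (𝓝 z) := by
        have : Continuous fun τ : ℂ => z + τ • fun k => (v k : ℂ) := by fun_prop
        simpa using this.tendsto 0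
      have h2 := (jet (ps0 c) (VZ G v) a' (fun τ : ℂ => φ (z + τ • fun k => (v k : ℂ))) _
        ((line G c a' φ z (fun k => (v k : ℂ)) (hz.mono fun y hy => ⟨hy.1, hy.2.1⟩)).mono
          fun τ h => ⟨h.1, fun i => by rw [h.2 i, eval_VZ]⟩) P₀ D).self_of_nhds
      have h3 : (fun τ : ℂ => (a : ℂ) * f (z + τ • fun k => (v k : ℂ))) =ᶠ[𝓝 0]
          fun τ : ℂ => eval₂ (ps0 c) (φ (z + τ • fun k => (v k : ℂ))) P₀ :=
        (ht.eventually hz).mono fun τ h => h.2.2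
      rw [← h3.iteratedDeriv_eq D, iteratedDeriv_const_mul_field, zero_smul, add_zero] at h2
      rw [← h2]
      ring
    have ht : Tendsto (fun s : ℂ => 0 + s • w) (𝓝 0) (𝓝 0) := by
      have : Continuous fun s : ℂ => 0 + s • w := by fun_prop
      simpa using this.tendsto 0
    have h2 := (jet (ps c w) (VG G) a' (fun s : ℂ => φ (0 + s • w)) _
      ((line G c a' φ 0 w (hφ.mono fun y hy => ⟨hy.1, hy.2.1⟩)).mono
        fun τ h => ⟨h.1, fun i => by rw [h.2 i, eval_VG]⟩)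
      (map (inc ι) ((der (VZ G v))^[D] P₀)) n).self_of_nhds
    have h3 : (fun s : ℂ => (a : ℂ) * (a' : ℂ) ^ D *
        iteratedDeriv D (fun τ : ℂ => f (s • w + τ • fun k => (v k : ℂ))) 0) =ᶠ[𝓝 0]
        fun s : ℂ => eval₂ (ps c w) (φ (0 + s • w)) (map (inc ι) ((der (VZ G v))^[D] P₀)) := by
      filter_upwards [ht.eventually h1] with s h
      rw [eval_base, ← h, zero_add]
    rw [← h3.iteratedDeriv_eq n, iteratedDeriv_const_mul_field, zero_smul, add_zero] at h2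
    have h4 : (fun i => Polynomial.aeval c (e i)) = φ 0 := funext fun i => (h0 i).symm
    rw [val_eq, h4, ← h2]
    ring
  · rw [val_eq]
    have hC0 : 0 ≤ C := by linarith
    have h1 : ‖(fun i => Polynomial.aeval c' (e i) : σ → ℂ)‖ ≤ ρ := hρ ⟨c', hc', rfl⟩
    have h2 : Γ c' ≤ C := (hΓ₁ ⟨c', hc', rfl⟩).trans hC2
    have h3 : β c' ≤ C := (hβ₁ ⟨c', hc', rfl⟩).trans hC3
    have h4 : ‖(fun k => (v k : ℂ) : ι → ℂ)‖ ≤ m := by
      rw [pi_norm_le_iff_of_nonneg (by positivity)]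
      intro k
      rw [Complex.norm_natCast]
      exact_mod_cast hv k
    have h5 : ∀ x : σ → ℂ, ‖x‖ ≤ ρ + 1 →
        ‖eval₂ (ps c' w) x (map (inc ι) ((der (VZ G v))^[D] P₀))‖ ≤ C * (C * m * (D + 1)) ^ D := by
      intro x hx
      rw [eval_base]
      refine bound' (ps0 c') (VZ G v) (r := ρ + 1) (fun y hy => ?_) P₀ (fun y hy => ?_) D x hx
      · simp only [eval_VZ]
        exact (hΓ c' _ y hy).trans (mul_le_mul h2 h4 (norm_nonneg _) hC0)
      · exact (hβ c' y (mem_closedBall_zero_iff.2 hy)).trans h3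
    have h6 := bound' (ps c' w) (VG G) (r := ρ) (L := C * ‖w‖) (fun y hy => by
      simp only [eval_VG]
      exact (hΓ c' w y (by linarith)).trans (mul_le_mul_of_nonneg_right h2 (norm_nonneg _)))
      _ h5 n _ h1
    refine h6.trans (le_of_eq ?_)
    rw [mul_assoc (C * _), ← mul_pow]
    ring
  · rw [val_eq, val_eq, scale]

end Pool.Agent.Lib.MP_caab05_ag.WZ
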