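import Mathlib
import Pool.Agent.Lib.MP_caab05_ag.WZ.Stmt
import Pool.Agent.Lib.MP_caab05_ag.GB.Osg

/-! Elementary properties of the Landau levels. -/

namespace Pool.Agent.Lib.MP_caab05_ag.WZ

open MvPolynomial Filter Topology Asymptotics Complex

namespace LanAux

lemma dif {Y : Type} [NormedAddCommGroup Y] [NormedSpace ℂ Y] [FiniteDimensional ℂ Y] (j : ℕ) :
    ∀ G : Y × ℂ → ℂ, Differentiable ℂ G →
      Differentiable ℂ fun z => iteratedDeriv j (fun τ => G (z, τ)) 0 := by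
  induction j with
  | zero =>
    intro G hG
    simp only [iteratedDeriv_zero]
    exact hG.comp (differentiable_id.prodMk (differentiable_const _))
  | succ j ih =>
    intro G hG
    have h1 : AnalyticOnNhd ℂ G Set.univ :=
      GB.osg _ _ G Set.univ isOpen_univ hG.differentiableOn
    have h2 : Differentiable ℂ (fderiv ℂ G) := fun p =>
      (h1.fderiv p (Set.mem_univ p)).differentiableAt
    have h3 : Differentiable ℂ fun p => fderiv ℂ G p ((0 : Y), (1 : ℂ)) :=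
      h2.clm_apply (differentiable_const _)
    have h4 : ∀ z, deriv (fun τ => G (z, τ)) = fun τ => fderiv ℂ G (z, τ) ((0 : Y), (1 : ℂ)) := by
      intro z
      funext τ
      exact ((hG (z, τ)).hasFDerivAt.comp_hasDerivAt τ
        ((hasDerivAt_const τ z).prodMk (hasDerivAt_id τ))).deriv
    simp only [iteratedDeriv_succ', h4]
    exact ih _ h3

variable {κ : Type} [Fintype κ]

lemma psi_diff {θ : (κ → ℂ) → ℂ} (hθ : Differentiable ℂ θ) :
    Differentiable ℂ fun p : EE κ × (κ → ℂ) => psi θ p.1 p.2 := by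
  unfold psi
  refine Differentiable.mul (hθ.comp (f := fun p : EE κ × (κ → ℂ) => zz p.1 + p.2) ?_) ?_
  · unfold zz
    fun_prop
  · unfold uu dotProduct
    fun_prop

lemma psi_line {θ : (κ → ℂ) → ℂ} (hθ : Differentiable ℂ θ) (x : EE κ) (s : κ → ℂ) :
    Differentiable ℂ fun τ : ℂ => psi θ x (τ • s) :=
  (psi_diff hθ).comp (f := fun τ : ℂ => (x, τ • s)) (by fun_prop)

lemma lan_diff {θ : (κ → ℂ) → ℂ} (hθ : Differentiable ℂ θ) (j : ℕ) (s : κ → ℂ) :
    Differentiable ℂ (lan θ j s) :=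
  dif j (fun p : EE κ × ℂ => psi θ p.1 (p.2 • s))
    ((psi_diff hθ).comp (f := fun p : EE κ × ℂ => (p.1, p.2 • s)) (by fun_prop))

lemma diff {θ : (κ → ℂ) → ℂ} (hθ : Differentiable ℂ θ) (D : ℕ) (f : EE κ → ℂ)
    (hf : f ∈ Lan θ D) : Differentiable ℂ f := by
  unfold Lan at hf
  induction hf using Submodule.span_induction with
  | mem f hf =>
    obtain ⟨j, s, -, rfl⟩ := hf
    exact lan_diff hθ j s
  | zero => exact differentiable_const _
  | add f g _ _ hf hg => exact hf.add hg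
  | smul a f _ hf => exact hf.const_smul a

lemma col_eq {θ : (κ → ℂ) → ℂ} (hθ : Differentiable ℂ θ) (D : ℕ) (s : κ → ℂ) :
    col θ D s = ∑ i ∈ Finset.range (D + 1), (D.choose i : ℂ) • lan θ (D - i) s := by
  funext x
  unfold col
  rw [iteratedDeriv_fun_mul (Complex.contDiff_exp.contDiffAt)
    ((psi_line hθ x s).contDiff.contDiffAt), Finset.sum_apply]
  refine Finset.sum_congr rfl fun i _ => ?_
  rw [iteratedDeriv_eq_iterate, Complex.iter_deriv_exp, Complex.exp_zero, mul_one]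
  rfl

lemma mem {θ : (κ → ℂ) → ℂ} (hθ : Differentiable ℂ θ) (D : ℕ) (s : κ → ℂ) :
    col θ D s ∈ Lan θ D := by
  rw [col_eq hθ]
  exact Submodule.sum_mem _ fun i _ => Submodule.smul_mem _ _
    (Submodule.subset_span ⟨D - i, s, Nat.sub_le _ _, rfl⟩)

lemma qf_add (h : κ → ℝ) (z y : κ → ℂ) :
    qf h (z + y) = qf h z + (hc h z ⬝ᵥ y).re + qf h y := by
  unfold qf hc dotProduct
  rw [Complex.re_sum, ← Finset.sum_add_distrib, ← Finset.sum_add_distrib]
  refine Finset.sum_congr rfl fun k _ => ?_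
  simp only [Complex.sq_norm, Complex.normSq_apply, Pi.add_apply, add_re, add_im, mul_re,
    ofReal_re, ofReal_im, conj_re, conj_im, mul_im]
  ring

lemma psi_law {θ : (κ → ℂ) → ℂ} {h : κ → ℝ} {l : κ → ℂ} {b : ℂ}
    (hb : ∀ z, θ (z + l) = cexp (hc h l ⬝ᵥ z + b) * θ z) (x : EE κ) (s : κ → ℂ) :
    psi θ (x + lf h l) s = cexp (hc h l ⬝ᵥ zz x + b) * psi θ x s := by
  have h1 : zz (x + lf h l) + s = zz x + s + l := by
    funext k
    simp only [zz, lf, Pi.add_apply, Sum.elim_inl]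
    ring
  have h2 : uu (x + lf h l) = uu x + hc h l := rfl
  unfold psi
  rw [h1, h2, hb, dotProduct_add, add_dotProduct]
  rw [mul_right_comm, ← Complex.exp_add, mul_comm (θ _), ← mul_assoc, ← Complex.exp_add]
  congr 2
  ring

lemma law {θ : (κ → ℂ) → ℂ} {h : κ → ℝ} {l : κ → ℂ} (hl : Law θ h l) (D : ℕ) (f : EE κ → ℂ)
    (hf : f ∈ Lan θ D) (x : EE κ) :
    ‖f (x + lf h l)‖ * Real.exp (-qf h (zz (x + lf h l))) = ‖f x‖ * Real.exp (-qf h (zz x)) := by
  obtain ⟨b, hb, hb'⟩ := hl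
  have h1 : f (x + lf h l) = cexp (hc h l ⬝ᵥ zz x + b) * f x := by
    unfold Lan at hf
    induction hf using Submodule.span_induction with
    | mem f hf =>
      obtain ⟨j, s, -, rfl⟩ := hf
      unfold lan
      simp only [psi_law hb']
      rw [iteratedDeriv_const_mul_field]
    | zero => simp
    | add f g _ _ hf hg => simp only [Pi.add_apply, hf, hg, mul_add]
    | smul a f _ hf =>
      simp only [Pi.smul_apply, hf, smul_eq_mul]
      ring
  have h2 : zz (x + lf h l) = l + zz x := by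
    funext k
    simp only [zz, lf, Pi.add_apply, Sum.elim_inl]
    ring
  rw [h1, h2, norm_mul, Complex.norm_exp, qf_add, add_re, hb, mul_right_comm, ← Real.exp_add,
    mul_comm]
  congr 2
  ring

lemma poly {θ : (κ → ℂ) → ℂ} (hθ : Differentiable ℂ θ) (D : ℕ) (f : EE κ → ℂ)
    (hf : f ∈ Lan θ D) (x : EE κ) (v : κ → ℂ) : ∃ P : Polynomial ℂ, P.natDegree ≤ D ∧
      ∀ t : ℂ, f (x + t • Sum.elim (0 : κ → ℂ) v) = P.eval t := by
  unfold Lan at hf
  induction hf using Submodule.span_induction with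
  | mem f hf =>
    obtain ⟨j, s, hj, rfl⟩ := hf
    have h1 : ∀ t τ : ℂ, psi θ (x + t • Sum.elim (0 : κ → ℂ) v) (τ • s) =
        psi θ x (τ • s) * cexp (-(v ⬝ᵥ s) * t * τ) := by
      intro t τ
      have h2 : zz (x + t • Sum.elim (0 : κ → ℂ) v) = zz x := by
        funext k
        simp [zz]
      have h3 : uu (x + t • Sum.elim (0 : κ → ℂ) v) = uu x + t • v := rfl
      unfold psi
      rw [h2, h3, add_dotProduct, mul_assoc, ← Complex.exp_add]
      congr 2
      simp only [smul_dotProduct, dotProduct_smul, smul_eq_mul]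
      ring
    refine ⟨∑ i ∈ Finset.range (j + 1), Polynomial.C ((j.choose i : ℂ) * lan θ i s x *
      (-(v ⬝ᵥ s)) ^ (j - i)) * Polynomial.X ^ (j - i), ?_, fun t => ?_⟩
    · refine Polynomial.natDegree_sum_le_of_forall_le _ _ fun i _ => ?_
      exact (Polynomial.natDegree_C_mul_X_pow_le _ _).trans ((Nat.sub_le _ _).trans hj)
    · have h4 : ContDiffAt ℂ j (fun τ : ℂ => cexp (-(v ⬝ᵥ s) * t * τ)) 0 := by fun_prop
      unfold lan
      simp only [h1]
      rw [iteratedDeriv_fun_mul ((psi_line hθ x s).contDiff.contDiffAt) h4,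
        Polynomial.eval_finsetSum]
      refine Finset.sum_congr rfl fun i _ => ?_
      rw [iteratedDeriv_cexp_const_mul]
      simp only [mul_zero, Complex.exp_zero, mul_one, Polynomial.eval_mul, Polynomial.eval_C,
        Polynomial.eval_pow, Polynomial.eval_X, mul_pow]
      ring
  | zero => exact ⟨0, by simp, fun t => by simp⟩
  | add f g _ _ hf hg =>
    obtain ⟨P, hP, hP'⟩ := hf
    obtain ⟨Q, hQ, hQ'⟩ := hg
    exact ⟨P + Q, (Polynomial.natDegree_add_le _ _).trans (max_le hP hQ), fun t => by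
      simp only [Pi.add_apply, hP', hQ', Polynomial.eval_add]⟩
  | smul a f _ hf =>
    obtain ⟨P, hP, hP'⟩ := hf
    exact ⟨a • P, (Polynomial.natDegree_smul_le _ _).trans hP, fun t => by
      simp only [Pi.smul_apply, hP', Polynomial.eval_smul]⟩

lemma psi_le {θ : (κ → ℂ) → ℂ} {h : κ → ℝ} {c₀ : ℝ} (hc₀ : 0 ≤ c₀)
    (hb : ∀ z, ‖θ z‖ ≤ c₀ * Real.exp (qf h z)) (x : EE κ) {y : κ → ℂ} (hy : ‖y‖ ≤ 1) :
    ‖psi θ x y‖ ≤ c₀ * Real.exp (qf h (zz x) +
      Fintype.card κ * ‖uu x - hc h (zz x)‖ + ∑ k, |h k|) := by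
  have h1 : qf h y ≤ ∑ k, |h k| := by
    refine Finset.sum_le_sum fun k _ => ?_
    have h2 : ‖y k‖ ≤ 1 := (norm_le_pi_norm y k).trans hy
    have h3 : ‖y k‖ ^ 2 ≤ 1 := pow_le_one₀ (norm_nonneg _) h2
    have h4 : 0 ≤ ‖y k‖ ^ 2 := by positivity
    nlinarith [le_abs_self (h k), abs_nonneg (h k)]
  have h2 : ‖(uu x - hc h (zz x)) ⬝ᵥ y‖ ≤ Fintype.card κ * ‖uu x - hc h (zz x)‖ := by
    unfold dotProduct
    refine (norm_sum_le _ _).trans ?_
    rw [← nsmul_eq_mul, ← Finset.card_univ]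
    refine Finset.sum_le_card_nsmul _ _ _ fun k _ => ?_
    rw [norm_mul]
    exact (mul_le_of_le_one_right (norm_nonneg _) ((norm_le_pi_norm y k).trans hy)).trans
      (norm_le_pi_norm _ k)
  have h3 := (neg_le_abs _).trans ((Complex.abs_re_le_norm _).trans h2)
  rw [sub_dotProduct, sub_re] at h3
  unfold psi
  rw [norm_mul, Complex.norm_exp]
  refine (mul_le_mul_of_nonneg_right (hb _) (Real.exp_pos _).le).trans ?_
  rw [mul_assoc, ← Real.exp_add, qf_add, neg_re]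
  gcongr c₀ * Real.exp ?_
  linarith

lemma bound (h : κ → ℝ) : ∃ C : ℝ, 1 ≤ C ∧ ∀ (θ : (κ → ℂ) → ℂ) (c₀ : ℝ),
    Differentiable ℂ θ → (∀ z, ‖θ z‖ ≤ c₀ * Real.exp (qf h z)) →
    ∀ (D : ℕ) (m : ℝ) (s : κ → ℂ) (x : EE κ), 1 ≤ m → ‖s‖ ≤ m →
      ‖col θ D s x‖ ≤ C * c₀ * (D * m) ^ D *
        Real.exp (qf h (zz x) + C * ‖uu x - hc h (zz x)‖) := by
  have hS : 0 ≤ ∑ k, |h k| := Finset.sum_nonneg fun k _ => abs_nonneg _
  have hE : 1 ≤ Real.exp (1 + ∑ k, |h k|) := Real.one_le_exp (by linarith)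
  have hN : (0 : ℝ) ≤ Fintype.card κ := Nat.cast_nonneg _
  refine ⟨Fintype.card κ + Real.exp (1 + ∑ k, |h k|), by linarith, ?_⟩
  intro θ c₀ hθ hb D m s x hm hs
  have hc₀ : 0 ≤ c₀ :=
    nonneg_of_mul_nonneg_left ((norm_nonneg _).trans (hb 0)) (Real.exp_pos _)
  have hm0 : 0 < m := by linarith
  have hd : Differentiable ℂ fun τ : ℂ => cexp τ * psi θ x (τ • s) :=
    Complex.differentiable_exp.mul (psi_line hθ x s)
  have h1 : ∀ τ ∈ Metric.sphere (0 : ℂ) m⁻¹, ‖cexp τ * psi θ x (τ • s)‖ ≤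
      Real.exp 1 * (c₀ * Real.exp (qf h (zz x) +
        Fintype.card κ * ‖uu x - hc h (zz x)‖ + ∑ k, |h k|)) := by
    intro τ hτ
    rw [mem_sphere_zero_iff_norm] at hτ
    have h2 : ‖τ • s‖ ≤ 1 := by
      rw [norm_smul, hτ, inv_mul_le_iff₀ hm0, mul_one]
      exact hs
    have h3 : τ.re ≤ 1 := (Complex.re_le_norm τ).trans (hτ ▸ inv_le_one_of_one_le₀ hm)
    rw [norm_mul, Complex.norm_exp]
    exact mul_le_mul (Real.exp_le_exp.2 h3) (psi_le hc₀ hb x h2) (norm_nonneg _)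
      (Real.exp_pos _).le
  have h2 := Complex.norm_iteratedDeriv_le_of_forall_mem_sphere_norm_le D (inv_pos.2 hm0)
    hd.diffContOnCl h1
  refine h2.trans ?_
  have h3 : (D.factorial : ℝ) ≤ (D : ℝ) ^ D := by exact_mod_cast Nat.factorial_le_pow D
  have h4 : Real.exp 1 * (c₀ * Real.exp (qf h (zz x) +
        Fintype.card κ * ‖uu x - hc h (zz x)‖ + ∑ k, |h k|)) =
      Real.exp (1 + ∑ k, |h k|) * c₀ * Real.exp (qf h (zz x) +
        Fintype.card κ * ‖uu x - hc h (zz x)‖) := by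
    simp only [Real.exp_add]
    ring
  rw [h4, inv_pow, div_inv_eq_mul, mul_pow]
  calc (D.factorial : ℝ) * (Real.exp (1 + ∑ k, |h k|) * c₀ * Real.exp (qf h (zz x) +
        Fintype.card κ * ‖uu x - hc h (zz x)‖)) * m ^ D
      = Real.exp (1 + ∑ k, |h k|) * c₀ * (D.factorial * m ^ D) * Real.exp (qf h (zz x) +
        Fintype.card κ * ‖uu x - hc h (zz x)‖) := by ring
    _ ≤ _ := by
      gcongr
      · linarith
      · linarith

end LanAux

theorem lanS : LanS where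
  diff := fun _ _ _ hθ D f hf => LanAux.diff hθ D f hf
  mem := fun _ _ _ hθ D s => LanAux.mem hθ D s
  law := fun _ _ _ _ _ hl D f hf x => LanAux.law hl D f hf x
  poly := fun _ _ _ hθ D f hf x v => LanAux.poly hθ D f hf x v
  bound := fun _ _ h => LanAux.bound h

end Pool.Agent.Lib.MP_caab05_ag.WZ
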