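import Mathlib
import Pool.Agent.Lib.MP_caab05_ag.WZ.Stmt

/-! The abstract form of the transcendence theorem. -/

namespace Pool.Agent.Lib.MP_caab05_ag.WZ

open MvPolynomial Filter Topology Asymptotics Complex
open Pool.Agent.Lib.MP_caab05_ag.ZE (Ord)

namespace MainAAux

lemma form_mono {ι : Type} [Fintype ι] {c : ℂ} {n : ℕ} {K B K' B' : ℝ} {g : (ι → ℂ) → ℂ}
    (h : Form c n K B g) (hK : K ≤ K') (hB : B ≤ B') : Form c n K' B' g := by
  obtain ⟨Q, κ₁, h1, h2, h3, h4, h5⟩ := h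
  exact ⟨Q, κ₁, h1, h2.trans hK, h3, fun c' hc' w => (h4 c' hc' w).trans
    (mul_le_mul_of_nonneg_right hB (by positivity)), h5⟩

lemma ord_mono {Y : Type} [NormedAddCommGroup Y] [NormedSpace ℂ Y] {W : Submodule ℂ Y}
    {F : Y → ℂ} {z : Y} {k l : ℕ} (h : Ord W F z l) (hk : k ≤ l) : Ord W F z k := fun u hu => by
  rcases hk.lt_or_eq with h' | rfl
  · exact (h u hu).trans (isLittleO_pow_pow h').isBigO
  · exact h u hu

lemma pow_le_exp {x L : ℝ} {j N : ℕ} (hx0 : 0 ≤ x) (hx : x ≤ Real.exp L) (hL : 0 ≤ L)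
    (hj : j ≤ N) : x ^ j ≤ Real.exp (N * L) := by
  refine (pow_le_pow_left₀ hx0 hx j).trans ?_
  rw [← Real.exp_nat_mul]
  gcongr

/-- auxiliary function, jets and elimination put together -/
lemma step (h1 : LanS) (h2 : IndS) (h3 : AuxS) (h4 : JetS) (h5 : CoreS) {κ I σ : Type}
    [Fintype κ] [Fintype I] [Fintype σ] {θ : (κ → ℂ) → ℂ} {h : κ → ℝ} {pl : κ → I}
    {ori : κ → Bool} {ω : κ → ℂ} {mx : Finset I} {c₀ R : ℝ} (hθ : Differentiable ℂ θ)
    (hθ0 : ∃ z, θ z ≠ 0) (hode : Ode θ) (hb : ∀ z, ‖θ z‖ ≤ c₀ * Real.exp (qf h z))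
    (hmx : ∀ k, ori k = false → pl k ∈ mx)
    (hper : ∀ a : I → ℂ, ∃ γ : I → ℂ, ‖a - γ‖ ≤ R ∧
      Law θ h (zz (jm (side pl ori) (lf h ω) (rp γ))))
    (pr : κ ⊕ κ → σ) {η : σ → ℂ} {sc : I ⊕ I → ℂ}
    (hη : ∀ m, η (pr m) = lf h ω m * sc (side pl ori m)) {F : IntermediateField ℚ ℂ} {t : ℕ}
    (hF : Algebra.trdeg ℚ F ≤ t) (hηF : ∀ s, η s ∈ F) (hη0 : ∀ s, η s ≠ 0) :
    ∃ C : ℝ, 1 ≤ C ∧ ∀ (T N : ℕ) (V L : ℝ), 1 ≤ T → 1 ≤ Fintype.card κ → C ≤ T →
      Fintype.card κ * T ≤ N → 1 ≤ L → C * T * (N + 1) ≤ Real.exp L →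
      (Fintype.card κ * T : ℕ) * L ≤ V →
      C * ((Fintype.card κ * T : ℕ) : ℝ) ^ (Fintype.card I - mx.card) * V ^ (mx.card + 1) ≤
        (T : ℝ) ^ (Fintype.card κ + 1) →
      (∀ x : σ → ℂ, (∀ s, x s ≠ 0) → ∀ f ∈ Lan θ (Fintype.card κ * T),
        Ord (Wsp (side pl ori) (x ∘ pr)) f 0 (N + 1) → f = 0) →
      V ≤ C * (7 * (N * L)) * (N : ℝ) ^ t := by
  classical
  obtain ⟨Ca, hCa, ha⟩ := h3 κ I θ h pl ori ω mx c₀ R ‖sc‖ hθ hb hmx hper
  obtain ⟨c, Cj, hc, hCj, hj⟩ := h4 κ θ hθ hode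
  obtain ⟨Cc, hCc, hcore⟩ := h5 (κ ⊕ κ) (I ⊕ I) σ (side pl ori) pr η F t c hF hηF hη0 hc
  refine ⟨Ca + Cj + Cc, by linarith, fun T N V L hT hκ hCT hDN hL hexp hV hcount hz => ?_⟩
  set D := Fintype.card κ * T with hD
  have hTD : T ≤ D := Nat.le_mul_of_pos_left _ hκ
  have hT' : (1 : ℝ) ≤ T := by exact_mod_cast hT
  have hTD' : (T : ℝ) ≤ D := by exact_mod_cast hTD
  have hDN' : (D : ℝ) ≤ N := by exact_mod_cast hDN
  have hDV : (D : ℝ) ≤ V := le_trans (le_mul_of_one_le_right (by linarith) hL) hV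
  have hN0 : (0 : ℝ) ≤ N := by linarith
  have hcard : (Fintype.card (κ → Fin (T + 1)) : ℝ) = ((T : ℝ) + 1) ^ Fintype.card κ := by
    simp
  have hcardle : (Fintype.card (κ → Fin (T + 1)) : ℝ) ≤ Real.exp D := by
    rw [hcard, hD, Nat.cast_mul, Real.exp_nat_mul]
    gcongr
    linarith [Real.add_one_le_exp (T : ℝ)]
  have hbig : ∀ {a b : ℝ}, 0 ≤ a → a ≤ Ca + Cj + Cc → 0 ≤ b → b ≤ T * (N + 1) →
      a * b ≤ Real.exp L := fun {a b} _ ha1 hb0 hb1 => by
    refine le_trans ?_ hexp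
    rw [mul_assoc]
    exact mul_le_mul ha1 hb1 hb0 (by linarith)
  have hTN : (N : ℝ) + 1 ≤ T * (N + 1) := le_mul_of_one_le_left (by linarith) hT'
  obtain ⟨p, hp0, hp1, hp2⟩ := ha (κ → Fin (T + 1)) (fun a k => ((a k : ℕ) : ℂ)) D T V T
    (hT.trans hTD) hT'
    (fun a => (pi_norm_le_iff_of_nonneg (by linarith)).2 fun k => by
      rw [Complex.norm_natCast]
      exact_mod_cast Nat.lt_succ_iff.1 (a k).2)
    (by linarith) hDV hT' (by linarith) (hcardle.trans (Real.exp_le_exp.2 hDV))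
    ((pow_le_exp (by positivity) (by
        have := hbig (a := 1) (b := D * T) zero_le_one (by linarith) (by positivity) (by
          rw [mul_comm]
          gcongr
          linarith)
        rwa [one_mul] at this) (by linarith) le_rfl).trans (Real.exp_le_exp.2 hV))
    (by
      refine le_trans ?_ (hcount.trans ?_)
      · have : 0 ≤ V := by linarith
        gcongr
        linarith
      · rw [hcard, pow_succ]
        gcongr
        linarith)
  let f : EE κ → ℂ := fun x => ∑ a, (p a : ℂ) * col θ D (fun k => ((a k : ℕ) : ℂ)) x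
  have hf : f ∈ Lan θ D := by
    have : f = ∑ a, (p a : ℂ) • col θ D (fun k => ((a k : ℕ) : ℂ)) := by
      funext x
      simp only [f, Finset.sum_apply, Pi.smul_apply, smul_eq_mul]
    rw [this]
    exact Submodule.sum_mem _ fun a _ => Submodule.smul_mem _ _ (h1.mem κ θ hθ D _)
  have hf0 : f ≠ 0 := fun h0 => hp0 (by
    have := h2 κ θ hθ hθ0 T D (fun a => (p a : ℂ)) le_rfl fun x => congrFun h0 x
    funext a
    exact Int.cast_eq_zero.1 (congrFun this a))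
  have hNL : 0 ≤ (N : ℝ) * L := by positivity
  have hNL1 : (N : ℝ) ≤ N * L := le_mul_of_one_le_right hN0 hL
  have hL1 : L ≤ N * L := le_mul_of_one_le_left (by linarith) (by linarith)
  have key := hcore N f (5 * (N * L)) V L (by linarith) (h1.diff κ θ hθ D f hf) (by positivity)
    (hbig (by linarith) (by linarith) (by linarith) hTN) (fun n hn => ?_) (fun y hy => ?_)
    fun x hx hO => hf0 (hz x hx f hf hO)
  · refine key.trans ?_
    gcongr
    · linarith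
    · linarith
  · have hn' : (n : ℝ) ≤ N := by exact_mod_cast hn
    have hCjL : Cj ≤ Real.exp L := by
      have := hbig (a := Cj) (b := 1) (by linarith) (by linarith) zero_le_one (by linarith)
      rwa [mul_one] at this
    refine form_mono (hj (κ → Fin (T + 1)) (fun a k => a k) p D n T (Real.exp (2 * (N * L))) hT
      (fun a k => Nat.lt_succ_iff.1 (a k).2) ?_) ?_ ?_
    · refine (Finset.sum_le_card_nsmul _ _ _ fun a _ => hp1 a).trans ?_
      rw [Finset.card_univ, nsmul_eq_mul]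
      refine (mul_le_mul_of_nonneg_right hcardle (Real.exp_pos _).le).trans ?_
      rw [← Real.exp_add, Real.exp_le_exp]
      linarith
    · refine (pow_le_exp (by linarith) hCjL (by linarith) le_rfl).trans (Real.exp_le_exp.2 ?_)
      push_cast
      nlinarith
    · have e1 : Cj ≤ Real.exp (N * L) := hCjL.trans (Real.exp_le_exp.2 hL1)
      have e2 : (Cj * T * (D + 1)) ^ D ≤ Real.exp (N * L) :=
        pow_le_exp (by positivity) (by
          rw [mul_assoc]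
          exact hbig (by linarith) (by linarith) (by positivity) (by gcongr)) (by linarith) hDN
      have e3 : (Cj * (n + 1)) ^ n ≤ Real.exp (N * L) :=
        pow_le_exp (by positivity) (hbig (by linarith) (by linarith) (by positivity)
          (by linarith)) (by linarith) hn
      calc _ ≤ Real.exp (2 * (N * L)) * Real.exp (N * L) * Real.exp (N * L) *
            Real.exp (N * L) := by gcongr
        _ = _ := by
            simp only [← Real.exp_add]
            congr 1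
            ring
  · have e : jm (side pl ori) (η ∘ pr) y = jm (side pl ori) (lf h ω) (sc * y) := by
      funext m
      simp only [jm, Function.comp_apply, hη, Pi.mul_apply, mul_assoc]
    rw [e]
    exact hp2 _ ((norm_mul_le sc y).trans (mul_le_of_le_one_right (norm_nonneg _) hy))

variable {κ I : Type}

lemma side_pow (p : ℕ) (pl : κ → I) (ori : κ → Bool) (m : (Fin p × κ) ⊕ (Fin p × κ)) :
    Sum.map Prod.snd Prod.snd (side (Prod.map id pl) (fun k : Fin p × κ => ori k.2) m) =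
      side pl ori (Sum.map Prod.snd Prod.snd m) := by
  rcases m with ⟨i, k⟩ | ⟨i, k⟩ <;> by_cases hk : ori k = true <;> simp [side, hk]

lemma lf_pow (p : ℕ) (h : κ → ℝ) (ω : κ → ℂ) (m : (Fin p × κ) ⊕ (Fin p × κ)) :
    lf (fun k : Fin p × κ => h k.2) (fun k => ω k.2) m = lf h ω (Sum.map Prod.snd Prod.snd m) := by
  rcases m with k | k <;> rfl

lemma zz_pow (p : ℕ) (pl : κ → I) (ori : κ → Bool) (h : κ → ℝ) (ω : κ → ℂ)
    (γ : Fin p → I → ℂ) (i : Fin p) :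
    (fun k => zz (jm (side (Prod.map id pl) fun k : Fin p × κ => ori k.2)
      (lf (fun k : Fin p × κ => h k.2) fun k => ω k.2) (rp fun j => γ j.1 j.2)) (i, k)) =
      zz (jm (side pl ori) (lf h ω) (rp (γ i))) := by
  funext k
  by_cases hk : ori k = true <;> simp [zz, jm, side, lf, rp, hk]

lemma numer {C : ℝ} {g c₁ X : ℕ} (hC : 1 ≤ C) (hg : 1 ≤ g) (hc : 1 ≤ c₁)
    (hX : 7 * C * (4 * g + 7) * (c₁ : ℝ) ^ g < X) {N T : ℕ} (hN : N ≤ c₁ * T) (hT : 1 ≤ T)
    (h : (T : ℝ) ^ g * (X : ℝ) ^ 2 ≤ C * (7 * (N * ((4 * g + 7) * X))) * (N : ℝ) ^ (g - 1)) :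
    False := by
  have hN' : (N : ℝ) ≤ c₁ * T := by exact_mod_cast hN
  have hX0 : (0 : ℝ) < X := lt_of_le_of_lt (by positivity) hX
  have hT0 : (0 : ℝ) < (T : ℝ) ^ g := by positivity
  have e : C * (7 * (N * ((4 * g + 7) * X))) * (N : ℝ) ^ (g - 1) =
      7 * C * (4 * g + 7) * (N : ℝ) ^ g * X := by
    obtain ⟨k, rfl⟩ : ∃ k, g = k + 1 := ⟨g - 1, by omega⟩
    rw [Nat.add_sub_cancel, pow_succ]
    ring
  have h2 : (N : ℝ) ^ g ≤ (c₁ : ℝ) ^ g * (T : ℝ) ^ g := by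
    rw [← mul_pow]
    gcongr
  rw [e] at h
  have h3 : 7 * C * (4 * g + 7) * (N : ℝ) ^ g * X ≤
      7 * C * (4 * g + 7) * (c₁ : ℝ) ^ g * ((T : ℝ) ^ g * X) := by
    calc _ ≤ 7 * C * (4 * g + 7) * ((c₁ : ℝ) ^ g * (T : ℝ) ^ g) * X := by gcongr
      _ = _ := by ring
  have h4 := mul_lt_mul_of_pos_right hX (mul_pos hT0 hX0)
  nlinarith

end MainAAux

open MainAAux in
theorem mainA (h1 : LanS) (h2 : IndS) (h3 : AuxS) (h4 : JetS) (h5 : CoreS) (h6 : PowS)
    (h7 : PowZS) : MainAS := by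
  intro κ I _ _ θ h pl ori ω i₁ c₀ R Cz hθ hθ0 hode hb hmx hcard hper hz F sc hsc
  classical
  by_contra hlt
  set g := Fintype.card I with hg
  have hg1 : 1 ≤ g := Fintype.card_pos_iff.2 ⟨i₁⟩
  have hF : Algebra.trdeg ℚ F ≤ ((g - 1 : ℕ) : Cardinal) := by
    obtain ⟨k, hk⟩ : ∃ k, g = k + 1 := ⟨g - 1, by omega⟩
    rw [hk, Nat.add_sub_cancel]
    rw [hk, not_le, Nat.cast_succ] at hlt
    exact Order.lt_succ_iff.1 (by rwa [Cardinal.succ_natCast])
  obtain ⟨C, hC, hstep⟩ := step h1 h2 h3 h4 h5 (κ := Fin g × κ) (I := Fin g × I) (σ := κ ⊕ κ)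
    (θ := pw g θ) (h := fun k => h k.2) (pl := Prod.map id pl) (ori := fun k => ori k.2)
    (ω := fun k => ω k.2) (mx := Finset.univ.image fun i => (i, i₁)) (c₀ := c₀ ^ g)
    (R := max R 0) (h6.diff κ θ g hθ)
    (by
      obtain ⟨z, hz0⟩ := hθ0
      exact ⟨fun k => z k.2, Finset.prod_ne_zero_iff.2 fun _ _ => hz0⟩)
    (h6.ode κ θ g hode) (h6.bound κ θ h c₀ g hb)
    (fun k hk => Finset.mem_image.2 ⟨k.1, Finset.mem_univ _, Prod.ext rfl (hmx _ hk).symm⟩)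
    (fun a => by
      choose γ hγ1 hγ2 using fun i : Fin g => hper fun j => a (i, j)
      refine ⟨fun j => γ j.1 j.2, (pi_norm_le_iff_of_nonneg (le_max_right _ _)).2 fun j =>
        ((norm_le_pi_norm _ j.2).trans (hγ1 j.1)).trans (le_max_left _ _),
        h6.law κ θ h g _ fun i => ?_⟩
      rw [zz_pow]
      exact hγ2 i)
    (Sum.map Prod.snd Prod.snd) (η := fun m => lf h ω m * sc (side pl ori m))
    (sc := fun m => sc (Sum.map Prod.snd Prod.snd m))
    (fun m => by rw [lf_pow, side_pow]) hF (fun s => (hsc s).2) fun s => (hsc s).1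
  have e1 : Fintype.card (Fin g × κ) = 2 * g ^ 2 := by
    rw [Fintype.card_prod, Fintype.card_fin, hcard]
    ring
  have e2 : Fintype.card (Fin g × I) = g ^ 2 := by
    rw [Fintype.card_prod, Fintype.card_fin, ← hg]
    ring
  have e3 : (Finset.univ.image fun i : Fin g => (i, i₁)).card = g := by
    rw [Finset.card_image_of_injective _ fun i j hij => congrArg Prod.fst hij, Finset.card_univ,
      Fintype.card_fin]
  rw [e1, e2, e3] at hstep
  obtain ⟨d, hd⟩ : ∃ d, d = 2 * g ^ 2 := ⟨_, rfl⟩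
  have hd1 : 1 ≤ d := by rw [hd]; nlinarith [Nat.one_le_pow 2 g hg1]
  obtain ⟨c₁, hc₁⟩ : ∃ c₁, c₁ = g * ((Cz + 1) * (d + 1)) := ⟨_, rfl⟩
  have hc1 : 1 ≤ c₁ := by
    rw [hc₁]
    exact Nat.mul_pos hg1 (by positivity)
  obtain ⟨X, hX⟩ : ∃ X : ℕ, 7 * C * (4 * g + 7) * (c₁ : ℝ) ^ g + C * (c₁ + 1) +
    d * (4 * g + 7) + C * (d : ℝ) ^ (g ^ 2 - g) < X := exists_nat_gt _
  have p1 : 0 ≤ 7 * C * (4 * g + 7) * (c₁ : ℝ) ^ g := by positivity
  have p2 : C ≤ C * (c₁ + 1) := le_mul_of_one_le_right (by linarith) (by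
    have : (0 : ℝ) ≤ c₁ := Nat.cast_nonneg _
    linarith)
  have p3 : (0 : ℝ) ≤ d * (4 * g + 7) := by positivity
  have p4 : 0 ≤ C * (d : ℝ) ^ (g ^ 2 - g) := by positivity
  have hX1 : (1 : ℝ) ≤ X := by linarith
  have hX1' : 1 ≤ X := by exact_mod_cast hX1
  obtain ⟨T, hT⟩ : ∃ T, T = X ^ (2 * g + 3) := ⟨_, rfl⟩
  have hT1 : 1 ≤ T := hT ▸ Nat.one_le_pow _ _ hX1'
  have hT' : (T : ℝ) = (X : ℝ) ^ (2 * g + 3) := by rw [hT, Nat.cast_pow]
  have hT1' : (1 : ℝ) ≤ T := by exact_mod_cast hT1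
  have hXT : (X : ℝ) ≤ T := by rw [hT']; exact le_self_pow₀ hX1 (by omega)
  rw [← hd] at hstep
  have hN : g * ((Cz + 1) * (d * T + 1)) ≤ c₁ * T := by
    rw [hc₁, mul_assoc, mul_assoc]
    gcongr
    nlinarith
  refine numer hC hg1 hc1 (X := X) (by linarith) hN hT1 (hstep T _ _ _ hT1 hd1 (by linarith)
    ?_ ?_ ?_ ?_ ?_ fun x hx => ?_)
  · calc d * T ≤ 1 * (1 * (d * T + 1)) := by omega
      _ ≤ _ := by gcongr; omega
  · have : (0 : ℝ) ≤ g := Nat.cast_nonneg _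
    nlinarith
  · have hN' : ((g * ((Cz + 1) * (d * T + 1)) : ℕ) : ℝ) ≤ c₁ * T := by exact_mod_cast hN
    have q : (4 * g + 7 : ℝ) * X = ((4 * g + 7 : ℕ) : ℝ) * X := by push_cast; ring
    rw [q, Real.exp_nat_mul]
    calc _ ≤ C * T * ((c₁ + 1) * T) := by gcongr; linarith
      _ = C * (c₁ + 1) * (T * T) := by ring
      _ ≤ X * (T * T) := by gcongr; linarith
      _ = (X : ℝ) ^ (4 * g + 7) := by rw [hT']; ring
      _ ≤ _ := by gcongr; linarith [Real.add_one_le_exp (X : ℝ)]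
  · push_cast
    calc _ = (T : ℝ) * (d * (4 * g + 7) * X) := by ring
      _ ≤ (T : ℝ) ^ g * (X * X) := by
          gcongr
          · exact le_self_pow₀ hT1' (by omega)
          · linarith
      _ = _ := by ring
  · have hgg : g ≤ g ^ 2 := Nat.le_self_pow two_ne_zero g
    obtain ⟨r, hr⟩ : ∃ r, g ^ 2 = g + r := Nat.exists_eq_add_of_le hgg
    rw [show g ^ 2 - g = r by omega] at hX p4 ⊢
    have hdr : d = r + g * (g + 1) := by rw [hd]; nlinarith
    push_cast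
    calc _ = C * (d : ℝ) ^ r * (X : ℝ) ^ (2 * g + 2) * (T : ℝ) ^ (r + g * (g + 1)) := by ring
      _ ≤ X * (X : ℝ) ^ (2 * g + 2) * (T : ℝ) ^ (r + g * (g + 1)) := by gcongr; linarith
      _ = _ := by rw [← hdr, pow_succ (T : ℝ) d, mul_comm ((T : ℝ) ^ d)]; congr 1; rw [hT']; ring
  · exact h7 κ I θ pl ori x (d * T) _ g hθ fun f hf hO =>
      hz x (d * T) hx f hf (ord_mono hO (by nlinarith))

end Pool.Agent.Lib.MP_caab05_ag.WZ
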