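import Mathlib
import Pool.Agent.Lib.MP_caab05_ag.WZ.Stmt
import Pool.Agent.Lib.MP_caab05_ag.LT.Net

/-! Sampling on an anisotropic net of real points. -/

namespace Pool.Agent.Lib.MP_caab05_ag.WZ

open Filter Topology Complex

namespace NetAux

variable {I : Type} [Fintype I]

lemma normsq (x w τ : ℂ) : ‖x + τ * w‖ ^ 2 = ‖x‖ ^ 2 +
    (2 * starRingEnd ℂ x * w * τ + ((‖w‖ ^ 2 : ℝ) : ℂ) * τ ^ 2).re +
      2 * ‖w‖ ^ 2 * τ.im ^ 2 := by
  rw [Complex.add_re, Complex.re_ofReal_mul, Complex.sq_norm, Complex.sq_norm, Complex.sq_norm]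
  simp only [Complex.normSq_apply, Complex.add_re, Complex.add_im, Complex.mul_re, Complex.mul_im,
    pow_two, Complex.conj_re, Complex.conj_im, Complex.re_ofNat, Complex.im_ofNat]
  ring

lemma quad (α β : I → ℝ) (x w : I ⊕ I → ℂ) : ∃ b : ℂ, ∀ τ : ℂ,
    QQ α β (x + τ • w) = QQ α β x + (b * τ + (QQ α β w : ℂ) * τ ^ 2).re +
      2 * QQ α β w * τ.im ^ 2 := by
  refine ⟨∑ i, (α i * (2 * starRingEnd ℂ (x (.inl i)) * w (.inl i)) +
    β i * (2 * starRingEnd ℂ (x (.inr i)) * w (.inr i))), fun τ => ?_⟩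
  rw [Complex.add_re, Complex.re_ofReal_mul, Finset.sum_mul, Complex.re_sum]
  simp only [QQ, Finset.sum_mul, Finset.mul_sum, ← Finset.sum_add_distrib]
  refine Finset.sum_congr rfl fun i _ => ?_
  simp only [Pi.add_apply, Pi.smul_apply, smul_eq_mul, normsq, add_mul, Complex.add_re,
    mul_assoc, Complex.re_ofReal_mul]
  ring

lemma line {G : (I ⊕ I → ℂ) → ℂ} (hG : Differentiable ℂ G) (α β : I → ℝ) (x w : I ⊕ I → ℂ) :
    ∃ f : ℂ → ℂ, Differentiable ℂ f ∧ ∀ τ : ℂ, ‖f τ‖ = ‖G (x + τ • w)‖ *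
      Real.exp (-QQ α β (x + τ • w) + 2 * QQ α β w * τ.im ^ 2) := by
  obtain ⟨b, h⟩ := quad α β x w
  refine ⟨fun τ => G (x + τ • w) *
    Complex.exp (-((QQ α β x : ℂ) + (b * τ + (QQ α β w : ℂ) * τ ^ 2))), ?_, ?_⟩
  · have h1 : Differentiable ℂ fun τ : ℂ => G (x + τ • w) := hG.comp (by fun_prop)
    exact h1.mul (by fun_prop)
  · intro τ
    rw [norm_mul, Complex.norm_exp, h τ]
    congr 2
    rw [Complex.neg_re, Complex.add_re, Complex.ofReal_re]
    ring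

lemma qq_le {α β : I → ℝ} {c : ℝ} (h : ∀ i, |α i| ≤ c ∧ |β i| ≤ c) {e : I → ℂ}
    (he : ∀ i, ‖e i‖ ≤ 1) : QQ α β (rp e) ≤ 2 * c * Fintype.card I := by
  have h1 : ∀ i, α i * ‖rp e (.inl i)‖ ^ 2 + β i * ‖rp e (.inr i)‖ ^ 2 ≤ 2 * c := by
    intro i
    simp only [rp, Sum.elim_inl, Sum.elim_inr, Complex.norm_conj]
    have h2 : ‖e i‖ ^ 2 ≤ 1 := pow_le_one₀ (norm_nonneg _) (he i)
    have h3 : 0 ≤ c := (abs_nonneg _).trans (h i).1
    have h4 : α i * ‖e i‖ ^ 2 ≤ c * 1 :=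
      mul_le_mul ((le_abs_self _).trans (h i).1) h2 (sq_nonneg _) h3
    have h5 : β i * ‖e i‖ ^ 2 ≤ c * 1 :=
      mul_le_mul ((le_abs_self _).trans (h i).2) h2 (sq_nonneg _) h3
    linarith
  calc QQ α β (rp e) ≤ ∑ _i : I, 2 * c := Finset.sum_le_sum fun i _ => h1 i
    _ = _ := by
      rw [Finset.sum_const, Finset.card_univ, nsmul_eq_mul]
      ring

omit [Fintype I] in
lemma df_line (p e : I → ℂ) (τ : ℂ) (hτ : ‖τ‖ ≤ 1) (i : I) :
    ‖df (rp p + τ • rp e) i‖ ≤ 2 * ‖e i‖ := by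
  have h1 : df (rp p + τ • rp e) i = (τ - starRingEnd ℂ τ) * starRingEnd ℂ (e i) := by
    simp only [df, rp, Pi.add_apply, Pi.smul_apply, Sum.elim_inl, Sum.elim_inr, smul_eq_mul,
      map_add, map_mul]
    ring
  rw [h1, norm_mul, Complex.norm_conj]
  refine mul_le_mul_of_nonneg_right ?_ (norm_nonneg _)
  have := norm_sub_le τ (starRingEnd ℂ τ)
  rw [Complex.norm_conj] at this
  linarith

/-- the Schwarz step: from a grid point to a near point -/
lemma near {mx : Finset I} {c C T V μ ε : ℝ} (hc : 0 ≤ c) (hC : 1 ≤ C) (hT : 1 ≤ T) (hV : 1 ≤ V)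
    {α β : I → ℝ} {G : (I ⊕ I → ℂ) → ℂ} (hG : Differentiable ℂ G)
    (hle : ∀ i, |α i| ≤ c ∧ |β i| ≤ c) (hμ0 : 0 < μ)
    (ht : ∀ (y : I ⊕ I → ℂ) (t₁ t₂ : ℝ), 0 ≤ t₁ → t₁ ≤ √V → 0 ≤ t₂ → t₂ ≤ √V →
      (∀ i, i ∉ mx → ‖df y i‖ ≤ t₁) → (∀ i ∈ mx, ‖df y i‖ ≤ t₂) →
      ‖G y‖ ≤ μ * Real.exp (QQ α β y + C * (√T * t₁ + √V * t₂)))
    {p u : I → ℂ} {δ : ℝ} (hδ : δ = 1 / (4 * Real.exp (2 * C + 4 * c * Fintype.card I)))
    (h1 : ∀ k, k ∉ mx → ‖u k - p k‖ ≤ δ / (2 * √T)) (h2 : ∀ k ∈ mx, ‖u k - p k‖ ≤ δ / (2 * √V))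
    (hε : ‖G (rp p)‖ ≤ ε / 4 * Real.exp (QQ α β (rp p))) :
    ‖G (rp u)‖ * Real.exp (-QQ α β (rp u)) ≤ ε / 4 + μ / 2 := by
  have hT1 : 1 ≤ √T := Real.one_le_sqrt.2 hT
  have hV1 : 1 ≤ √V := Real.one_le_sqrt.2 hV
  set K := Real.exp (2 * C + 4 * c * Fintype.card I) with hK
  have hK1 : 1 ≤ K := Real.one_le_exp (by positivity)
  have hδ0 : 0 < δ := by rw [hδ]; positivity
  have hδ1 : δ < 1 := by
    rw [hδ, div_lt_one (by positivity)]; linarith
  set e : I → ℂ := ((δ⁻¹ : ℝ) : ℂ) • (u - p) with he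
  have hek : ∀ k, ‖e k‖ = δ⁻¹ * ‖u k - p k‖ := by
    intro k
    simp only [he, Pi.smul_apply, Pi.sub_apply, smul_eq_mul, norm_mul, Complex.norm_real,
      Real.norm_eq_abs, abs_of_pos (inv_pos.2 hδ0)]
  have hgen : ∀ (k : I) (a : ℝ), 1 ≤ a → ‖u k - p k‖ ≤ δ / (2 * a) → 2 * ‖e k‖ ≤ 1 / a := by
    intro k a ha h
    rw [hek]
    calc 2 * (δ⁻¹ * ‖u k - p k‖) ≤ 2 * (δ⁻¹ * (δ / (2 * a))) :=
          mul_le_mul_of_nonneg_left (mul_le_mul_of_nonneg_left h (inv_pos.2 hδ0).le) zero_le_two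
      _ = 1 / a := by field_simp
  have hT2 : 1 / √T ≤ 1 := (div_le_one (by linarith)).2 hT1
  have hV2 : 1 / √V ≤ 1 := (div_le_one (by linarith)).2 hV1
  have he1 : ∀ k, ‖e k‖ ≤ 1 := by
    intro k
    have h0 := norm_nonneg (e k)
    by_cases hk : k ∈ mx
    · linarith [hgen k _ hV1 (h2 k hk)]
    · linarith [hgen k _ hT1 (h1 k hk)]
  have hγ := qq_le hle he1
  obtain ⟨f, hf, hfn⟩ := line hG α β (rp p) (rp e)
  have hbd : ∀ τ : ℂ, ‖τ‖ ≤ 1 → ‖f τ‖ ≤ μ * K := by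
    intro τ hτ
    have h0 := ht (rp p + τ • rp e) (1 / √T) (1 / √V) (by positivity) (by linarith)
      (by positivity) (by linarith)
      (fun i hi => (df_line p e τ hτ i).trans (hgen i _ hT1 (h1 i hi)))
      (fun i hi => (df_line p e τ hτ i).trans (hgen i _ hV1 (h2 i hi)))
    have h3 : √T * (1 / √T) + √V * (1 / √V) = 2 := by
      field_simp
      norm_num
    rw [h3] at h0
    rw [hfn]
    refine (mul_le_mul_of_nonneg_right h0 (Real.exp_pos _).le).trans ?_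
    rw [mul_assoc, ← Real.exp_add]
    refine mul_le_mul_of_nonneg_left (Real.exp_le_exp.2 ?_) hμ0.le
    have h4 : τ.im ^ 2 ≤ 1 := by
      have := (Complex.abs_im_le_norm τ).trans hτ
      rw [← sq_abs]; exact pow_le_one₀ (abs_nonneg _) this
    have h5 : QQ α β (rp e) * τ.im ^ 2 ≤ 2 * c * Fintype.card I * 1 :=
      mul_le_mul hγ h4 (sq_nonneg _) (by positivity)
    linarith
  have hS := Complex.dist_le_div_mul_dist_of_mapsTo_ball (f := f) (c := 0) (R₁ := 1)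
    (R₂ := 2 * (μ * K)) (z := (δ : ℂ)) hf.differentiableOn
    (by
      intro τ hτ
      rw [Metric.mem_closedBall, dist_eq_norm]
      have h3 := hbd τ (mem_ball_zero_iff.1 hτ).le
      have h4 := hbd 0 (by simp)
      linarith [norm_sub_le (f τ) (f 0)])
    (by rw [mem_ball_zero_iff, Complex.norm_real, Real.norm_eq_abs, abs_of_pos hδ0]; exact hδ1)
  rw [dist_eq_norm, dist_zero_right, Complex.norm_real, Real.norm_eq_abs, abs_of_pos hδ0] at hS
  have h3 : 2 * (μ * K) / 1 * δ = μ / 2 := by rw [hδ]; field_simp; norm_num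
  rw [h3] at hS
  have hδc : (δ : ℂ) ≠ 0 := by exact_mod_cast hδ0.ne'
  have h4 : rp p + (δ : ℂ) • rp e = rp u := by
    funext m
    rcases m with i | i
    · simp only [rp, he, Pi.add_apply, Pi.smul_apply, Pi.sub_apply, Sum.elim_inl, smul_eq_mul,
        Complex.ofReal_inv]
      field_simp
      ring
    · simp only [rp, he, Pi.add_apply, Pi.smul_apply, Pi.sub_apply, Sum.elim_inr, smul_eq_mul,
        map_mul, map_sub, Complex.conj_ofReal]
      rw [Complex.ofReal_inv]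
      field_simp
      ring
  have h5 := hfn δ
  rw [h4, Complex.ofReal_im] at h5
  have h6 := hfn 0
  rw [zero_smul, add_zero, Complex.zero_im] at h6
  simp only [ne_eq, OfNat.ofNat_ne_zero, not_false_eq_true, zero_pow, mul_zero, add_zero] at h5 h6
  have h7 : ‖f 0‖ ≤ ε / 4 := by
    rw [h6]
    refine (mul_le_mul_of_nonneg_right hε (Real.exp_pos _).le).trans ?_
    rw [mul_assoc, ← Real.exp_add]
    simp
  rw [← h5]
  have h8 : ‖f δ‖ ≤ ‖f δ - f 0‖ + ‖f 0‖ := by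
    simpa using norm_add_le (f δ - f 0) (f 0)
  linarith

lemma grid {δ R a : ℝ} (hδ : 0 < δ) (hR : 0 ≤ R) (ha : 1 ≤ a) :
    ∃ s : Finset ℂ, (s.card : ℝ) ≤ (8 * R / δ + 5) ^ 2 * a ∧
      ∀ x : ℂ, ‖x‖ ≤ R → ∃ y ∈ s, ‖x - y‖ ≤ δ / (2 * √a) := by
  have ha1 : 1 ≤ √a := Real.one_le_sqrt.2 ha
  obtain ⟨s, h1, h2⟩ := LT.NetAux.gridC (h := δ / (4 * √a)) (R := R) (by positivity) hR
  refine ⟨s, h1.trans ?_, fun x hx => ?_⟩
  · have e : 2 * R / (δ / (4 * √a)) = 8 * R / δ * √a := by field_simp; ring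
    have h0 : 0 ≤ 8 * R / δ := by positivity
    calc (2 * R / (δ / (4 * √a)) + 5) ^ 2 ≤ ((8 * R / δ + 5) * √a) ^ 2 := by
          refine pow_le_pow_left₀ (by positivity) ?_ 2
          rw [e]
          nlinarith
      _ = _ := by rw [mul_pow, Real.sq_sqrt (by linarith)]
  · obtain ⟨y, hy, hy'⟩ := h2 x hx
    refine ⟨y, hy, hy'.trans (le_of_eq ?_)⟩
    field_simp
    norm_num

end NetAux

theorem netS (h : TubeS) : NetS := by
  classical
  intro I _ mx c R hc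
  obtain ⟨C, hC, htube⟩ := h I mx c hc
  set δ : ℝ := 1 / (4 * Real.exp (2 * C + 4 * c * Fintype.card I)) with hδ
  have hδ0 : 0 < δ := by rw [hδ]; positivity
  set C1 : ℝ := 8 * |R| / δ + 5 with hC1
  have hC0 : 0 ≤ 8 * |R| / δ := by positivity
  have hC11 : 1 ≤ C1 := by linarith
  refine ⟨(C1 ^ 2) ^ Fintype.card I, one_le_pow₀ (one_le_pow₀ hC11), fun T V hT hV => ?_⟩
  have hT' : (1 : ℝ) ≤ T := by exact_mod_cast hT
  obtain ⟨sT, hT1, hT2⟩ := NetAux.grid hδ0 (abs_nonneg R) hT'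
  obtain ⟨sV, hV1, hV2⟩ := NetAux.grid hδ0 (abs_nonneg R) hV
  refine ⟨Fintype.piFinset fun k => if k ∈ mx then sV else sT, ?_, ?_⟩
  · rw [Fintype.card_piFinset]
    push_cast
    have hr : mx.card ≤ Fintype.card I := mx.card_le_univ
    calc ∏ k : I, (((if k ∈ mx then sV else sT).card : ℕ) : ℝ)
        ≤ ∏ k : I, (if k ∈ mx then C1 ^ 2 * V else C1 ^ 2 * T) := by
          refine Finset.prod_le_prod (fun k _ => Nat.cast_nonneg _) fun k _ => ?_
          split_ifs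
          · exact hV1
          · exact hT1
      _ = (C1 ^ 2 * V) ^ mx.card * (C1 ^ 2 * T) ^ (Fintype.card I - mx.card) := by
          rw [Finset.prod_ite, Finset.prod_const, Finset.prod_const]
          congr 2
          · congr 1; ext k; simp
          · have : (Finset.univ.filter fun k => k ∉ mx) = mxᶜ := by ext k; simp
            rw [this, Finset.card_compl]
      _ = (C1 ^ 2) ^ Fintype.card I * (T : ℝ) ^ (Fintype.card I - mx.card) * V ^ mx.card := by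
          obtain ⟨m, hm⟩ := Nat.exists_eq_add_of_le hr
          have e1 : Fintype.card I - mx.card = m := by omega
          rw [e1, hm]
          simp only [mul_pow, pow_add]
          ring
  · intro α β G ε hA hper hε hs
    set S : Set ℝ := Set.range fun u => ‖G (rp u)‖ * Real.exp (-QQ α β (rp u)) with hS
    have hSb : BddAbove S := by
      refine ⟨Real.exp V, ?_⟩
      rintro _ ⟨u, rfl⟩
      refine (mul_le_mul_of_nonneg_right (hA.bd (rp u)) (Real.exp_pos _).le).trans ?_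
      have h0 : df (rp u) = 0 := by
        funext i
        simp [df, rp]
      rw [← Real.exp_add, h0, norm_zero]
      apply le_of_eq; congr 1; ring
    have hSn : S.Nonempty := ⟨_, 0, rfl⟩
    have hconv : ∀ (m : ℝ) (u : I → ℂ), ‖G (rp u)‖ * Real.exp (-QQ α β (rp u)) ≤ m →
        ‖G (rp u)‖ ≤ m * Real.exp (QQ α β (rp u)) := by
      intro m u h
      calc ‖G (rp u)‖ = ‖G (rp u)‖ * Real.exp (-QQ α β (rp u)) * Real.exp (QQ α β (rp u)) := by
            rw [mul_assoc, ← Real.exp_add]; simp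
        _ ≤ _ := mul_le_mul_of_nonneg_right h (Real.exp_pos _).le
    have hle : ∀ u, ‖G (rp u)‖ * Real.exp (-QQ α β (rp u)) ≤ sSup S :=
      fun u => le_csSup hSb ⟨u, rfl⟩
    have hε0 : 0 < ε := (Real.exp_pos _).trans_le hε
    have key : sSup S ≤ ε / 4 + max (sSup S) ε / 2 := by
      refine csSup_le hSn ?_
      rintro _ ⟨u, rfl⟩
      obtain ⟨u', hR, he⟩ := hper u
      show ‖G (rp u)‖ * Real.exp (-QQ α β (rp u)) ≤ _
      rw [he]
      have hk : ∀ k, ∃ y ∈ (if k ∈ mx then sV else sT),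
          (k ∉ mx → ‖u' k - y‖ ≤ δ / (2 * √(T : ℝ))) ∧ (k ∈ mx → ‖u' k - y‖ ≤ δ / (2 * √V)) := by
        intro k
        have h1 : ‖u' k‖ ≤ |R| := ((norm_le_pi_norm u' k).trans hR).trans (le_abs_self R)
        by_cases hk : k ∈ mx
        · obtain ⟨y, hy, hy'⟩ := hV2 (u' k) h1
          exact ⟨y, by rwa [if_pos hk], fun h => absurd hk h, fun _ => hy'⟩
        · obtain ⟨y, hy, hy'⟩ := hT2 (u' k) h1
          exact ⟨y, by rwa [if_neg hk], fun _ => hy', fun h => absurd h hk⟩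
      choose p hp hp1 hp2 using hk
      have hps : p ∈ Fintype.piFinset fun k => if k ∈ mx then sV else sT :=
        Fintype.mem_piFinset.2 hp
      exact NetAux.near hc hC hT' hV hA.hol hA.le (hε0.trans_le (le_max_right _ _))
        (htube T V _ α β G hT hV hA (hε.trans (le_max_right _ _))
          fun u => hconv _ u ((hle u).trans (le_max_left _ _))) hδ hp1 hp2 (hs p hps)
    have hfin : sSup S ≤ ε := by
      rcases le_total (sSup S) ε with h | h
      · exact h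
      · rw [max_eq_left h] at key; linarith
    intro u
    exact hconv _ u ((hle u).trans hfin)

end Pool.Agent.Lib.MP_caab05_ag.WZ
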