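import Mathlib
import Pool.Agent.Lib.MP_caab05_ag.WZ.Stmt
import Pool.Agent.Lib.MP_caab05_ag.LT.JetA

/-! Polynomial differential systems: denominators, the kernel, powers. -/

namespace Pool.Agent.Lib.MP_caab05_ag.WZ

open MvPolynomial Filter Topology Asymptotics Complex
open Pool.Agent.Lib.MP_caab05_ag.LT (AlgCoeff)
open Pool.Agent.Lib.MP_caab05_ag.LT.JetAAux (K AP prim homog lift)

namespace OdeAux

theorem line {Y F : Type} [NormedAddCommGroup Y] [NormedSpace ℂ Y] [NormedAddCommGroup F]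
    [NormedSpace ℂ F] {h : Y → F} {z : Y} (hz : DifferentiableAt ℂ h z) (w : Y) :
    HasDerivAt (fun s : ℂ => h (z + s • w)) (fderiv ℂ h z w) 0 :=
  hz.hasFDerivAt.hasLineDerivAt w

theorem of_AP {Z σ : Type} {Φ : Z → σ → ℂ} {g : Z → ℂ} (h : AP Φ g) :
    ∃ P : MvPolynomial σ ℂ, AlgCoeff P ∧ ∀ z, g z = eval (Φ z) P := by
  obtain ⟨Q, hQ⟩ := h
  refine ⟨map (algebraMap K ℂ) Q, fun m => ?_, fun z => by rw [hQ, eval_map, aeval_def]⟩
  rw [coeff_map]
  exact mem_algebraicClosure_iff.1 (coeff m Q).2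

theorem AP_eval {Z σ τ : Type} {Φ : Z → σ → ℂ} {u : Z → τ → ℂ}
    (hu : ∀ t, AP Φ fun z => u z t) {P : MvPolynomial τ ℂ} (hP : AlgCoeff P) :
    AP Φ fun z => eval (u z) P := by
  obtain ⟨Q, hQ⟩ := lift hP
  simpa only [hQ] using AP.aeval hu Q

theorem AP_prod {Z σ τ : Type} {Φ : Z → σ → ℂ} (s : Finset τ) {g : τ → Z → ℂ}
    (h : ∀ t, AP Φ (g t)) : AP Φ fun z => ∏ t ∈ s, g t z := by
  choose P hP using h
  exact ⟨∏ t ∈ s, P t, fun z => by simp only [map_prod, hP]⟩

theorem mk {ι σ : Type} [Fintype ι] [Fintype σ] {f : (ι → ℂ) → ℂ} (Φ : (ι → ℂ) → σ → ℂ)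
    (D : σ → ι → (ι → ℂ) → ℂ) (g : (ι → ℂ) → ℂ) (h0 : ∀ s, IsAlgebraic ℚ (Φ 0 s))
    (hD : ∀ s k, AP Φ (D s k)) (hg : AP Φ g)
    (h : ∀ᶠ z in 𝓝 (0 : ι → ℂ), (∀ s, DifferentiableAt ℂ (fun z => Φ z s) z) ∧
      (∀ w s, HasDerivAt (fun t : ℂ => Φ (z + t • w) s) (∑ k, w k * D s k z) 0) ∧ f z = g z) :
    Ode f := by
  choose P P1 P2 using fun s k => of_AP (hD s k)
  obtain ⟨P₀, h1, h2⟩ := of_AP hg
  refine ⟨σ, inferInstance, Φ, P, P₀, h0, P1, h1, h.mono fun z ⟨a, b, c⟩ => ?_⟩
  have hd : DifferentiableAt ℂ Φ z := differentiableAt_pi.2 a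
  refine ⟨hd, fun w s => ?_, c.trans (h2 z)⟩
  simp only [← P2]
  exact (hasDerivAt_pi.1 (line hd w) s).unique (b w s)

/-- pulling a system back by a linear map -/
theorem pull {Y κ σ : Type} [NormedAddCommGroup Y] [NormedSpace ℂ Y] [Fintype κ] [Fintype σ]
    {Φ : (κ → ℂ) → σ → ℂ} {q : (κ → ℂ) → (κ → ℂ) → σ → ℂ} {r : (κ → ℂ) → Prop}
    (h : ∀ᶠ z in 𝓝 (0 : κ → ℂ), DifferentiableAt ℂ Φ z ∧ (∀ w s, fderiv ℂ Φ z w s = q z w s) ∧ r z)
    (L : Y →L[ℂ] (κ → ℂ)) :
    ∀ᶠ y in 𝓝 (0 : Y), (∀ s, DifferentiableAt ℂ (fun y => Φ (L y) s) y) ∧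
      (∀ w s, HasDerivAt (fun t : ℂ => Φ (L (y + t • w)) s) (q (L y) (L w) s) 0) ∧ r (L y) := by
  filter_upwards [(L.continuous.tendsto' 0 0 L.map_zero).eventually h] with y ⟨a, b, c⟩
  refine ⟨fun s => differentiableAt_pi.1 (a.comp y L.differentiableAt) s, fun w s => ?_, c⟩
  simp only [map_add, map_smul, ← b]
  exact hasDerivAt_pi.1 (line a (L w)) s

theorem aff (a b : ℂ) : HasDerivAt (fun t : ℂ => a + t * b) b 0 := by
  simpa using ((hasDerivAt_id (0 : ℂ)).mul_const b).const_add a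

end OdeAux

open OdeAux

theorem odeN : OdeNS := by
  classical
  rintro ι _ f ⟨σ, _, Φ, P', P₀', h2, h4, h5, h3⟩
  choose P hP using fun s k => lift (h4 s k)
  obtain ⟨P₀, hP₀⟩ := lift h5
  let R : Option (σ × ι) → MvPolynomial σ K := fun o => o.elim P₀ fun p => P p.1 p.2
  set s : Finset ℂ := Finset.univ.image (Φ 0) ∪ Finset.univ.biUnion
    fun o => (R o).support.image fun m => ((coeff m (R o) : K) : ℂ) with hs
  obtain ⟨c, a, hc, ha, hp⟩ := prim s (by
    intro x hx
    simp only [hs, Finset.mem_union, Finset.mem_image, Finset.mem_univ, true_and,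
      Finset.mem_biUnion] at hx
    rcases hx with ⟨i, rfl⟩ | ⟨p, m, -, rfl⟩
    · exact h2 i
    · exact mem_algebraicClosure_iff.1 (Subtype.property _))
  set κ : ℕ := Finset.univ.sup fun o => (R o).totalDegree with hκ
  choose G hG using fun o => homog c a κ (R o)
    (Finset.le_sup (f := fun o => (R o).totalDegree) (Finset.mem_univ o))
    (fun m hm => hp _ (Finset.mem_union_right _ (Finset.mem_biUnion.2
      ⟨o, Finset.mem_univ _, Finset.mem_image_of_mem _ hm⟩)))
  choose e he using fun i => hp (Φ 0 i)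
    (Finset.mem_union_left _ (Finset.mem_image_of_mem _ (Finset.mem_univ i)))
  refine ⟨σ, inferInstance, c, a ^ κ * a, a ^ κ, fun z i => a * Φ z i, e,
    fun s k => G (some (s, k)), G none, hc, by positivity, pow_pos ha _, fun i => (he i).symm, ?_⟩
  filter_upwards [h3] with z ⟨hd, hz, hf⟩
  have hd' : HasFDerivAt (fun z i => (a : ℂ) * Φ z i) ((a : ℂ) • fderiv ℂ Φ z) z :=
    hd.hasFDerivAt.const_smul (a : ℂ)
  refine ⟨hd'.differentiableAt, fun w i => ?_, ?_⟩
  · rw [hd'.fderiv]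
    simp only [smul_apply, Pi.smul_apply, smul_eq_mul, hz, evc, hG, hP,
      Finset.mul_sum, Nat.cast_pow, R, Option.elim]
    exact Finset.sum_congr rfl fun j _ => by ring
  · simp only [evc, hG, hf, hP₀, R, Option.elim]
    push_cast
    ring

theorem odeK : OdeKS := by
  classical
  rintro κ _ θ ⟨σ, _, Φ, P, P₀, h2, h4, h5, h3⟩
  let L : ((κ ⊕ κ) ⊕ Option κ → ℂ) →L[ℂ] (κ → ℂ) := ContinuousLinearMap.pi fun k =>
    ContinuousLinearMap.proj (.inl (.inl k)) + ContinuousLinearMap.proj (.inr (some k))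
  have hL : ∀ y k, L y k = y (.inl (.inl k)) + y (.inr (some k)) := fun _ _ => rfl
  let X : ((κ ⊕ κ) ⊕ Option κ → ℂ) → ℂ := fun y =>
    cexp (y (.inr none) - ∑ k, y (.inl (.inr k)) * y (.inr (some k)))
  let Ψ : ((κ ⊕ κ) ⊕ Option κ → ℂ) → σ ⊕ Option ((κ ⊕ κ) ⊕ Option κ) → ℂ := fun y =>
    Sum.elim (Φ (L y)) fun o => o.elim (X y) y
  have a0 : AP Ψ fun _ => 0 := AP.const Ψ isAlgebraic_zero
  have a1 : ∀ {Q : MvPolynomial σ ℂ}, AlgCoeff Q → AP Ψ fun y => eval (Φ (L y)) Q := fun hQ =>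
    AP_eval (fun t => AP.coord Ψ (.inl t)) hQ
  have aX : AP Ψ X := AP.coord Ψ (.inr none)
  have ay : ∀ m, AP Ψ fun y => y m := fun m => AP.coord Ψ (.inr (some m))
  refine mk Ψ (Sum.elim
    (fun s => Sum.elim (Sum.elim (fun k y => eval (Φ (L y)) (P s k)) fun _ _ => 0)
      fun o => o.elim (fun _ => 0) fun k y => eval (Φ (L y)) (P s k))
    fun o => o.elim (Sum.elim (Sum.elim (fun _ _ => 0) fun k y => -(X y * y (.inr (some k))))
      fun o => o.elim X fun k y => -(X y * y (.inl (.inr k))))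
      fun m k _ => if k = m then 1 else 0)
    (fun y => X y * eval (Φ (L y)) P₀) ?_ ?_ (aX.mul (a1 h5)) ?_
  · rintro (s | _ | m)
    · show IsAlgebraic ℚ (Φ (L 0) s)
      rw [map_zero]
      exact h2 s
    · show IsAlgebraic ℚ (X 0)
      simpa [X] using isAlgebraic_one
    · exact isAlgebraic_zero
  · rintro (s | _ | m)
    · rintro ((k | k) | _ | k)
      exacts [a1 (h4 s k), a0, a0, a1 (h4 s k)]
    · rintro ((k | k) | _ | k)
      exacts [a0, (aX.mul (ay _)).neg, aX, (aX.mul (ay _)).neg]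
    · intro k
      refine AP.const Ψ (c := if k = m then 1 else 0) ?_
      split_ifs
      exacts [isAlgebraic_one, isAlgebraic_zero]
  · filter_upwards [pull (q := fun z w s => ∑ k, w k * eval (Φ z) (P s k))
      (r := fun z => θ z = eval (Φ z) P₀) h3 L] with y ⟨b1, b2, b3⟩
    refine ⟨?_, ?_, ?_⟩
    · rintro (s | _ | m)
      · exact b1 s
      · show DifferentiableAt ℂ X y
        simp only [X]
        fun_prop
      · exact differentiableAt_apply m y
    · rintro w (s | _ | m)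
      · refine (b2 w s).congr_deriv ?_
        simp only [Fintype.sum_sum_type, Fintype.sum_option, Sum.elim_inl, Sum.elim_inr,
          Option.elim, hL, add_mul, Finset.sum_add_distrib, mul_zero, Finset.sum_const_zero,
          add_zero, zero_add]
      · have c1 := ((aff (y (.inr none)) (w (.inr none))).fun_sub (HasDerivAt.fun_sum
          (u := Finset.univ) fun k _ => (aff (y (.inl (.inr k))) (w (.inl (.inr k)))).fun_mul
            (aff (y (.inr (some k))) (w (.inr (some k)))))).cexp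
        refine c1.congr_deriv ?_
        simp only [Fintype.sum_sum_type, Fintype.sum_option, Sum.elim_inl, Sum.elim_inr,
          Option.elim, Finset.sum_add_distrib, mul_zero, Finset.sum_const_zero, zero_mul,
          add_zero, zero_add, X, mul_sub, mul_add, Finset.mul_sum, mul_neg,
          Finset.sum_neg_distrib]
        rw [sub_eq_add_neg, neg_add, add_left_comm]
        congr 1
        · exact congrArg _ (Finset.sum_congr rfl fun k _ => by ring)
        · congr 1
          · ring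
          · exact congrArg _ (Finset.sum_congr rfl fun k _ => by ring)
      · refine (aff (y m) (w m)).congr_deriv ?_
        simp
    · rw [← b3, ker, psi]
      simp only [X, sub_eq_add_neg, Complex.exp_add]
      rw [mul_assoc, mul_comm (cexp (-_))]
      rfl

theorem powS : PowS where
  diff κ _ θ p h := by
    classical
    intro z
    exact (HasFDerivAt.finsetProd (u := Finset.univ) (g := fun i (z : Fin p × κ → ℂ) =>
      θ fun k => z (i, k)) fun i _ => ((h.comp (by fun_prop)) z).hasFDerivAt).differentiableAt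
  bound κ _ θ h c₀ p hb z := by
    rw [pw, norm_prod]
    refine (Finset.prod_le_prod (fun i _ => norm_nonneg _) fun i _ => hb _).trans_eq ?_
    rw [Finset.prod_mul_distrib, Finset.prod_const, Finset.card_univ, Fintype.card_fin,
      ← Real.exp_sum, qf, Fintype.sum_prod_type]
    rfl
  law κ _ θ h p l hl := by
    choose b b1 b2 using hl
    refine ⟨∑ i, b i, ?_, fun z => ?_⟩
    · rw [Complex.re_sum, qf, Fintype.sum_prod_type]
      exact Finset.sum_congr rfl fun i _ => b1 i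
    · rw [pw, pw, dotProduct, Fintype.sum_prod_type, ← Finset.sum_add_distrib, Complex.exp_sum,
        ← Finset.prod_mul_distrib]
      exact Finset.prod_congr rfl fun i _ => b2 i fun k => z (i, k)
  ode κ _ θ p := by
    classical
    rintro ⟨σ, _, Φ, P, P₀, h2, h4, h5, h3⟩
    let L : Fin p → (Fin p × κ → ℂ) →L[ℂ] (κ → ℂ) := fun i => ContinuousLinearMap.pi fun k =>
      ContinuousLinearMap.proj (i, k)
    let Ψ : (Fin p × κ → ℂ) → Fin p × σ → ℂ := fun z s => Φ (L s.1 z) s.2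
    have a1 : ∀ (i) {Q : MvPolynomial σ ℂ}, AlgCoeff Q → AP Ψ fun y => eval (Φ (L i y)) Q :=
      fun i _ hQ => AP_eval (fun t => AP.coord Ψ (i, t)) hQ
    refine mk Ψ (fun s k y => if k.1 = s.1 then eval (Φ (L s.1 y)) (P s.2 k.2) else 0)
      (fun y => ∏ i, eval (Φ (L i y)) P₀) (fun s => ?_) (fun s k => ?_)
      (AP_prod _ fun i => a1 i h5) ?_
    · show IsAlgebraic ℚ (Φ (L s.1 0) s.2)
      rw [map_zero]
      exact h2 _
    · split_ifs
      exacts [a1 _ (h4 _ _), AP.const Ψ isAlgebraic_zero]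
    · filter_upwards [eventually_all.2 fun i => pull
        (q := fun z w s => ∑ k, w k * eval (Φ z) (P s k))
        (r := fun z => θ z = eval (Φ z) P₀) h3 (L i)] with y hy
      refine ⟨fun s => (hy s.1).1 s.2, fun w s => ((hy s.1).2.1 w s.2).congr_deriv ?_,
        Finset.prod_congr rfl fun i _ => (hy i).2.2⟩
      rw [Fintype.sum_prod_type, Finset.sum_eq_single s.1 (fun i _ hi => by simp [hi])
        (by simp)]
      simp only [if_true]
      rfl

end Pool.Agent.Lib.MP_caab05_ag.WZ
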