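import Mathlib
import Pool.Agent.Lib.MP_caab05_ag.WZ.Stmt
import Pool.Agent.Lib.MP_caab05_ag.LT.PowZ

/-! The multiplicity estimate on a power, by induction on the number of factors. -/

namespace Pool.Agent.Lib.MP_caab05_ag.WZ

open Filter Topology Asymptotics Complex
open Pool.Agent.Lib.MP_caab05_ag.LT (isBigO_pow_iff)
open Pool.Agent.Lib.MP_caab05_ag.LT.PowZAux (leib)
open Pool.Agent.Lib.MP_caab05_ag.ZE (Ord)

namespace PowZAux

section General

variable {Y : Type} [NormedAddCommGroup Y] [NormedSpace ℂ Y]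

/-- the span of the products of functions of the single blocks -/
def Fp {Y : Type} (V : Submodule ℂ (Y → ℂ)) (p : ℕ) : Submodule ℂ ((Fin p → Y) → ℂ) :=
  Submodule.span ℂ {f | ∃ P : Fin p → Y → ℂ, (∀ j, P j ∈ V) ∧ f = fun z => ∏ j, P j (z j)}

lemma diff_Fp {V : Submodule ℂ (Y → ℂ)} (hV : ∀ f ∈ V, Differentiable ℂ f) {p : ℕ}
    {f : (Fin p → Y) → ℂ} (hf : f ∈ Fp V p) (v : Fin p → Y) :
    Differentiable ℂ fun τ : ℂ => f (τ • v) := by
  induction hf using Submodule.span_induction with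
  | mem f hf =>
    obtain ⟨P, hP, rfl⟩ := hf
    exact Differentiable.fun_finsetProd fun j _ =>
      (hV _ (hP j)).comp (f := fun τ : ℂ => τ • v j) (differentiable_id.smul_const (v j))
  | zero => exact differentiable_const 0
  | add f g _ _ hf hg => exact hf.add hg
  | smul c f _ hf => exact hf.const_smul c

lemma sep {Y : Type} {V : Submodule ℂ (Y → ℂ)} {p : ℕ} {f : (Fin (p + 1) → Y) → ℂ}
    (hf : f ∈ Fp V (p + 1)) : ∃ (n : ℕ) (a : Fin n → Y → ℂ) (g : Fin n → (Fin p → Y) → ℂ),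
      (∀ i, a i ∈ V) ∧ (∀ i, g i ∈ Fp V p) ∧
      ∀ z₀ z', f (Fin.cons z₀ z') = ∑ i, a i z₀ * g i z' := by
  obtain ⟨n, c, G, rfl⟩ := Submodule.mem_span_set'.1 hf
  choose P hP hG using fun i => (G i).2
  refine ⟨n, fun i => c i • P i 0, fun i z => ∏ j, P i (Fin.succ j) (z j),
    fun i => V.smul_mem _ (hP i 0), fun i => Submodule.subset_span ⟨_, fun j => hP i j.succ, rfl⟩,
    fun z₀ z' => ?_⟩
  simp only [Finset.sum_apply, Pi.smul_apply, smul_eq_mul, hG, Fin.prod_univ_succ, Fin.cons_zero,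
    Fin.cons_succ, mul_assoc]

theorem main {V : Submodule ℂ (Y → ℂ)} (hV : ∀ f ∈ V, Differentiable ℂ f)
    (W : Submodule ℂ (Y)) (k : ℕ) (h0 : ∀ f ∈ V, Ord W f 0 (k + 1) → ∀ z, f z = 0) (p : ℕ) :
    ∀ f ∈ Fp V p, (∀ v : Fin p → Y, (∀ j, v j ∈ W) →
      (fun τ : ℂ => f (τ • v)) =O[𝓝 0] fun τ : ℂ => τ ^ (p * k + 1)) → ∀ z, f z = 0 := by
  induction p with
  | zero =>
    intro f hf h z
    have h1 := (isBigO_pow_iff ((diff_Fp hV hf z).analyticAt 0) _).1 (h z fun j => j.elim0) 0
      (by omega)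
    rw [iteratedDeriv_zero] at h1
    rw [← h1]
    exact congrArg f (Subsingleton.elim _ _)
  | succ p ih =>
    intro f hf h z
    obtain ⟨n, a, g, ha, hg, hfe⟩ := sep hf
    rw [← Fin.cons_self_tail z, hfe]
    set z' := Fin.tail z
    have hm : (∑ i, g i z' • a i) ∈ V := V.sum_mem fun i _ => V.smul_mem _ (ha i)
    have hz := h0 _ hm ?_ (z 0)
    · rw [← hz]
      simp only [Finset.sum_apply, Pi.smul_apply, smul_eq_mul]
      exact Finset.sum_congr rfl fun i _ => mul_comm _ _
    intro u hu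
    have hau : ∀ i, Differentiable ℂ fun τ : ℂ => a i (τ • u) := fun i =>
      (hV _ (ha i)).comp (differentiable_id.smul_const u)
    have e1 : (fun τ : ℂ => (∑ i, g i z' • a i) (0 + τ • u)) =
        fun τ : ℂ => ∑ i, g i z' * a i (τ • u) := by
      funext τ
      simp only [Finset.sum_apply, Pi.smul_apply, smul_eq_mul, zero_add]
    rw [e1]
    have hd : ∀ i, Differentiable ℂ fun τ : ℂ => g i z' * a i (τ • u) := fun i =>
      (hau i).const_mul _
    rw [isBigO_pow_iff ((Differentiable.fun_sum fun i _ => hd i).analyticAt 0)]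
    intro j hj
    rw [iteratedDeriv_fun_sum fun i _ => (hd i).contDiff.contDiffAt]
    simp only [iteratedDeriv_const_mul_field]
    set c : Fin n → ℂ := fun i => iteratedDeriv j (fun τ : ℂ => a i (τ • u)) 0 with hc
    have hm' : (∑ i, c i • g i) ∈ Fp V p :=
      Submodule.sum_mem _ fun i _ => Submodule.smul_mem _ _ (hg i)
    have hz' := ih _ hm' ?_ z'
    · refine Eq.trans ?_ hz'
      simp only [Finset.sum_apply, Pi.smul_apply, smul_eq_mul]
      exact Finset.sum_congr rfl fun i _ => mul_comm _ _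
    intro v hv
    have e2 : (fun τ : ℂ => (∑ i, c i • g i) (τ • v)) = fun τ : ℂ => ∑ i, c i * g i (τ • v) := by
      funext τ
      simp only [Finset.sum_apply, Pi.smul_apply, smul_eq_mul]
    rw [e2]
    have hgv : ∀ i, Differentiable ℂ fun τ : ℂ => g i (τ • v) := fun i => diff_Fp hV (hg i) v
    have hd' : ∀ i, Differentiable ℂ fun τ : ℂ => c i * g i (τ • v) := fun i =>
      (hgv i).const_mul _
    rw [isBigO_pow_iff ((Differentiable.fun_sum fun i _ => hd' i).analyticAt 0)]
    intro r hr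
    rw [iteratedDeriv_fun_sum fun i _ => (hd' i).contDiff.contDiffAt]
    simp only [iteratedDeriv_const_mul_field]
    refine leib _ _ hau hgv ((p + 1) * k) (fun t => ?_) j r (by nlinarith)
    have h1 := h (Fin.cons (t • u) v) (Fin.cases (W.smul_mem t hu) hv)
    refine h1.congr_left fun l => ?_
    have e3 : l • (Fin.cons (t • u) v : Fin (p + 1) → Y) = Fin.cons ((t * l) • u) (l • v) := by
      funext m
      refine Fin.cases ?_ (fun m => ?_) m
      · simp [smul_smul, mul_comm]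
      · simp
    rw [e3, hfe]

lemma cons_mem {Y : Type} {V : Submodule ℂ (Y → ℂ)} {p : ℕ} {a : Y → ℂ} (ha : a ∈ V)
    {g : (Fin p → Y) → ℂ} (hg : g ∈ Fp V p) :
    (fun v : Fin (p + 1) → Y => a (v 0) * g fun i => v i.succ) ∈ Fp V (p + 1) := by
  induction hg using Submodule.span_induction with
  | mem f hf =>
    obtain ⟨P, hP, rfl⟩ := hf
    refine Submodule.subset_span ⟨Fin.cons a P, Fin.cases ha hP, ?_⟩
    funext v
    simp only [Fin.prod_univ_succ, Fin.cons_zero, Fin.cons_succ]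
  | zero =>
    convert (Fp V (p + 1)).zero_mem using 1
    funext v
    simp
  | add f g _ _ hf hg =>
    have := Submodule.add_mem _ hf hg
    convert this using 1
    funext v
    simp only [Pi.add_apply, mul_add]
  | smul c f _ hf =>
    have := Submodule.smul_mem _ c hf
    convert this using 1
    funext v
    simp only [Pi.smul_apply, smul_eq_mul, mul_left_comm]

end General

variable {κ : Type} [Fintype κ]

lemma diff_psi {θ : (κ → ℂ) → ℂ} (hθ : Differentiable ℂ θ) (x : EE κ) (s : κ → ℂ) :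
    Differentiable ℂ fun τ : ℂ => psi θ x (τ • s) := by
  unfold psi
  refine (hθ.comp ((differentiable_id.smul_const s).const_add (zz x))).mul ?_
  simp only [dotProduct_smul, smul_eq_mul]
  fun_prop

lemma prod_mem {θ : (κ → ℂ) → ℂ} (hθ : Differentiable ℂ θ) (D p : ℕ) :
    ∀ (j : ℕ) (s : Fin p → κ → ℂ), j ≤ D →
      (fun v : Fin p → EE κ => iteratedDeriv j (fun τ : ℂ => ∏ i, psi θ (v i) (τ • s i)) 0) ∈
        Fp (Lan θ D) p := by
  induction p with
  | zero =>
    intro j s _
    have h1 : (fun _ : Fin 0 → EE κ => (1 : ℂ)) ∈ Fp (Lan θ D) 0 :=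
      Submodule.subset_span ⟨fun i => i.elim0, fun i => i.elim0, by simp⟩
    have := Submodule.smul_mem _ (iteratedDeriv j (fun _ : ℂ => (1 : ℂ)) 0) h1
    convert this using 1
    funext v
    simp
  | succ p ih =>
    intro j s hj
    have h1 : (∑ m ∈ Finset.range (j + 1), (j.choose m : ℂ) •
        fun v : Fin (p + 1) → EE κ => lan θ m (s 0) (v 0) *
          iteratedDeriv (j - m) (fun τ : ℂ => ∏ i : Fin p, psi θ (v i.succ) (τ • s i.succ)) 0) ∈
        Fp (Lan θ D) (p + 1) := by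
      refine Submodule.sum_mem _ fun m hm => Submodule.smul_mem _ _ ?_
      have hm' := Finset.mem_range.1 hm
      have ha : lan θ m (s 0) ∈ Lan θ D := Submodule.subset_span ⟨m, s 0, by omega, rfl⟩
      exact cons_mem ha (ih (j - m) (fun i => s i.succ) (by omega))
    convert h1 using 1
    funext v
    simp only [Fin.prod_univ_succ, Finset.sum_apply, Pi.smul_apply, smul_eq_mul]
    rw [iteratedDeriv_fun_mul (diff_psi hθ _ _).contDiff.contDiffAt
      (Differentiable.fun_finsetProd fun i _ => diff_psi hθ _ _).contDiff.contDiffAt]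
    exact Finset.sum_congr rfl fun m _ => by rw [mul_assoc]; rfl

/-- the blocks of a vector -/
def slice {p : ℕ} (x : EE (Fin p × κ)) (i : Fin p) : EE κ := x ∘ Sum.map (Prod.mk i) (Prod.mk i)

lemma psi_pw (p : ℕ) (θ : (κ → ℂ) → ℂ) (x : EE (Fin p × κ)) (s : Fin p × κ → ℂ) :
    psi (pw p θ) x s = ∏ i, psi θ (slice x i) fun k => s (i, k) := by
  unfold psi pw
  rw [Finset.prod_mul_distrib, ← Complex.exp_sum, Finset.sum_neg_distrib]
  congr 3
  unfold dotProduct
  rw [Fintype.sum_prod_type]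
  rfl

lemma lift {θ : (κ → ℂ) → ℂ} (hθ : Differentiable ℂ θ) (D p : ℕ) {f : EE (Fin p × κ) → ℂ}
    (hf : f ∈ Lan (pw p θ) D) : ∃ F ∈ Fp (Lan θ D) p, ∀ x, f x = F (slice x) := by
  induction hf using Submodule.span_induction with
  | mem f hf =>
    obtain ⟨j, s, hj, rfl⟩ := hf
    refine ⟨_, prod_mem hθ D p j (fun i k => s (i, k)) hj, fun x => ?_⟩
    unfold lan
    simp only [psi_pw]
    rfl
  | zero => exact ⟨0, Submodule.zero_mem _, fun _ => rfl⟩
  | add f g _ _ hf hg =>
    obtain ⟨F, hF, e⟩ := hf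
    obtain ⟨G, hG, e'⟩ := hg
    exact ⟨F + G, Submodule.add_mem _ hF hG, fun x => by simp only [Pi.add_apply, e, e']⟩
  | smul c f _ hf =>
    obtain ⟨F, hF, e⟩ := hf
    exact ⟨c • F, Submodule.smul_mem _ c hF, fun x => by simp only [Pi.smul_apply, e]⟩

end PowZAux

open PowZAux in
theorem powZ (h : LanS) : PowZS := by
  intro κ I _ θ pl ori x D k p hθ h0 f hf hO
  obtain ⟨F, hF, he⟩ := lift hθ D p hf
  funext z
  rw [he]
  refine main (h.diff κ θ hθ D) (Wsp (side pl ori) x) k
    (fun g hg hg' z => congrFun (h0 g hg hg') z) p F hF (fun v hv => ?_) _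
  choose y hy using fun j => (show ∃ y, jm (side pl ori) x y = v j from hv j)
  let u : EE (Fin p × κ) := Sum.elim (fun q => v q.1 (.inl q.2)) fun q => v q.1 (.inr q.2)
  have hu : u ∈ Wsp (side (Prod.map id pl) fun k : Fin p × κ => ori k.2)
      (x ∘ Sum.map Prod.snd Prod.snd) := by
    refine ⟨Sum.elim (fun q => y q.1 (.inl q.2)) fun q => y q.1 (.inr q.2), ?_⟩
    funext m
    rcases m with ⟨i, a⟩ | ⟨i, a⟩ <;> cases ho : ori a <;> simp [u, ← hy, jm, side, ho]
  refine (hO u hu).congr_left fun τ => ?_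
  rw [he, zero_add]
  congr 1
  funext j m
  rcases m with a | a <;> rfl

end Pool.Agent.Lib.MP_caab05_ag.WZ
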