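import Mathlib
import Pool.Agent.Lib.MP_caab05_ag.WZ.Stmt

/-! Growth away from the real points: circle trick and three lines. -/

namespace Pool.Agent.Lib.MP_caab05_ag.WZ

open Complex

namespace TubeAux

/-- clearing the pole of a Moebius substitution -/
theorem clear {f : ℂ → ℂ → ℂ} {T : ℕ} (h1 : ∀ b, Differentiable ℂ fun ζ => f ζ b)
    (h2 : ∀ ζ, ∃ P : Polynomial ℂ, P.natDegree ≤ T ∧ ∀ b, f ζ b = P.eval b) (r s : ℂ) :
    ∃ g : ℂ → ℂ, Differentiable ℂ g ∧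
      ∀ ζ, ζ + r ≠ 0 → g ζ = (ζ + r) ^ T * f ζ (-r + s / (ζ + r)) := by
  have hi : Set.InjOn (Nat.cast : ℕ → ℂ) (Finset.range (T + 1) : Set ℕ) :=
    Nat.cast_injective.injOn
  refine ⟨fun ζ => ∑ i ∈ Finset.range (T + 1), f ζ i * ∑ n ∈ Finset.range (T + 1),
    (Lagrange.basis (Finset.range (T + 1)) Nat.cast i).coeff n *
      ((ζ + r) ^ (T - n) * (-r * (ζ + r) + s) ^ n), ?_, fun ζ hζ => ?_⟩
  · exact Differentiable.fun_sum fun i _ => (h1 _).mul (by fun_prop)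
  · obtain ⟨P, hP, e⟩ := h2 ζ
    have k := Lagrange.eq_interpolate (f := P) hi (by
      rw [Finset.card_range]
      exact P.degree_le_natDegree.trans_lt (by exact_mod_cast Nat.lt_succ_of_le hP))
    rw [e (-r + s / (ζ + r)), k, Lagrange.interpolate_apply, Polynomial.eval_finsetSum,
      Finset.mul_sum]
    refine Finset.sum_congr rfl fun i hi' => ?_
    rw [Polynomial.eval_mul, Polynomial.eval_C, ← e, mul_left_comm,
      Polynomial.eval_eq_sum_range' (n := T + 1) (by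
        rw [Lagrange.natDegree_basis hi hi', Finset.card_range]
        omega), Finset.mul_sum (a := (ζ + r) ^ T)]
    congr 1
    refine Finset.sum_congr rfl fun n hn => ?_
    have e2 : -r * (ζ + r) + s = (ζ + r) * (-r + s / (ζ + r)) := by field_simp
    rw [e2, mul_pow, ← mul_assoc ((ζ + r) ^ (T - n)), ← pow_add,
      Nat.sub_add_cancel (Nat.lt_succ_iff.1 (Finset.mem_range.1 hn))]
    ring

/-- the circle trick -/
theorem circle {f : ℂ → ℂ → ℂ} {T : ℕ} (hT : 1 ≤ T) (h1 : ∀ b, Differentiable ℂ fun ζ => f ζ b)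
    (h2 : ∀ ζ, ∃ P : Polynomial ℂ, P.natDegree ≤ T ∧ ∀ b, f ζ b = P.eval b) {μ q γ K δ : ℝ}
    {b : ℂ} (hμ : 0 ≤ μ) (hγ : |γ| ≤ K) (hδ : 0 ≤ δ)
    (h3 : ∀ ζ, ‖f ζ (starRingEnd ℂ ζ)‖ ≤ μ * Real.exp (q + (b * ζ).re + γ * ‖ζ‖ ^ 2)) :
    ‖f 0 δ‖ ≤ μ * Real.exp (q + (K + 1) * (√T * δ)) := by
  obtain ⟨r, hr⟩ : ∃ r : ℝ, r = √T := ⟨_, rfl⟩
  have r0 : 0 < r := hr ▸ Real.sqrt_pos.2 (by exact_mod_cast hT)
  have r2 : r ^ 2 = T := hr ▸ Real.sq_sqrt (Nat.cast_nonneg T)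
  obtain ⟨ρ, hρ⟩ : ∃ ρ : ℝ, ρ = √(r ^ 2 + r * δ) := ⟨_, rfl⟩
  have ρ0 : 0 < ρ := hρ ▸ Real.sqrt_pos.2 (by positivity)
  have ρ2 : ρ ^ 2 = r ^ 2 + r * δ := hρ ▸ Real.sq_sqrt (by positivity)
  obtain ⟨g, g1, g2⟩ := clear h1 h2 r ((ρ ^ 2 : ℝ) : ℂ)
  have hd : Differentiable ℂ fun ζ => g ζ * cexp (-((b - 2 * r * γ) * ζ)) := g1.mul (by fun_prop)
  have H := norm_le_of_forall_mem_frontier_norm_le (U := Metric.ball (-(r : ℂ)) ρ)
    Metric.isBounded_ball hd.diffContOnCl (C := ρ ^ T * (μ * Real.exp (q + γ * (r * δ))))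
    (fun ζ hζ => by
      rw [frontier_ball _ ρ0.ne', mem_sphere_iff_norm, sub_neg_eq_add] at hζ
      have n0 : ζ + r ≠ 0 := by rw [← norm_pos_iff, hζ]; exact ρ0
      have e1 : -(r : ℂ) + ((ρ ^ 2 : ℝ) : ℂ) / (ζ + r) = starRingEnd ℂ ζ := by
        rw [← hζ, ← normSq_eq_norm_sq, ← mul_conj, mul_div_cancel_left₀ _ n0, map_add, conj_ofReal]
        ring
      have e2 : ‖ζ‖ ^ 2 = r * δ - 2 * r * ζ.re := by
        have := congrArg (· ^ 2) hζ
        simp only [← normSq_eq_norm_sq, normSq_apply, add_re, add_im, ofReal_re, ofReal_im] at this ⊢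
        linarith
      rw [g2 ζ n0, e1, norm_mul, norm_mul, norm_pow, hζ, norm_exp, mul_assoc]
      refine mul_le_mul_of_nonneg_left ?_ (by positivity)
      refine (mul_le_mul_of_nonneg_right (h3 ζ) (Real.exp_pos _).le).trans_eq ?_
      rw [mul_assoc, ← Real.exp_add, e2]
      congr 2
      simp only [neg_re, mul_re, sub_re, sub_im, mul_im, ofReal_re, ofReal_im, re_ofNat, im_ofNat]
      ring) (z := 0) (by
      rw [closure_ball _ ρ0.ne', mem_closedBall_iff_norm, sub_neg_eq_add, zero_add, norm_real,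
        Real.norm_eq_abs, abs_of_pos r0]
      exact le_of_sq_le_sq (by nlinarith [mul_nonneg r0.le hδ]) ρ0.le)
  have r1 : (r : ℂ) ≠ 0 := by exact_mod_cast r0.ne'
  have e3 : -(r : ℂ) + ((ρ ^ 2 : ℝ) : ℂ) / (0 + r) = δ := by
    rw [ρ2, zero_add]
    push_cast
    field_simp
    ring
  rw [g2 0 (by simpa using r0.ne'), e3, mul_zero, neg_zero, exp_zero, mul_one, norm_mul, norm_pow,
    zero_add, norm_real, Real.norm_eq_abs, abs_of_pos r0] at H
  have k1 : ρ ≤ r * Real.exp (δ / r) := by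
    have k2 : ρ ≤ r + δ := le_of_sq_le_sq (by nlinarith [mul_nonneg r0.le hδ]) (by positivity)
    have k3 := mul_le_mul_of_nonneg_left (Real.add_one_le_exp (δ / r)) r0.le
    rw [mul_add, mul_div_cancel₀ _ r0.ne'] at k3
    linarith
  have k4 : ρ ^ T ≤ r ^ T * Real.exp (r * δ) := by
    refine (pow_le_pow_left₀ ρ0.le k1 T).trans_eq ?_
    rw [mul_pow, ← Real.exp_nat_mul, ← r2]
    congr 2
    field_simp
  refine le_of_mul_le_mul_left (H.trans ((mul_le_mul_of_nonneg_right k4 (by positivity)).trans ?_))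
    (pow_pos r0 T)
  rw [mul_assoc, mul_left_comm (Real.exp _), ← Real.exp_add, ← hr]
  refine mul_le_mul_of_nonneg_left (mul_le_mul_of_nonneg_left (Real.exp_le_exp.2 ?_) hμ)
    (by positivity)
  nlinarith [mul_le_mul_of_nonneg_right ((le_abs_self γ).trans hγ) (mul_nonneg r0.le hδ)]

/-- three lines -/
theorem lines {F : ℂ → ℂ} (hF : Differentiable ℂ F) {μ q γ K L v t : ℝ} {b : ℂ} (hγ : |γ| ≤ K)
    (hv : 0 < v) (ht0 : 0 ≤ t) (ht : t ≤ v) (hμ : Real.exp (-v ^ 2) ≤ μ)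
    (h1 : ∀ σ : ℂ, σ.im = 0 → ‖F σ‖ ≤ μ * Real.exp (q + (b * σ).re + γ * ‖σ‖ ^ 2))
    (h2 : ∀ σ : ℂ, 0 ≤ σ.im → σ.im ≤ v →
      ‖F σ‖ ≤ Real.exp (q + (b * σ).re + γ * ‖σ‖ ^ 2 + L * v ^ 2)) :
    ‖F (I * t)‖ ≤ μ * Real.exp (q + (b * (I * t)).re + γ * ‖I * (t : ℂ)‖ ^ 2 +
      (1 + L + 4 * K) * (v * t)) := by
  have hμ0 : 0 < μ := (Real.exp_pos _).trans_le hμ
  have hd : Differentiable ℂ fun σ : ℂ =>
      F (I * σ) * cexp (-(q + b * (I * σ) + γ * (I * σ) ^ 2)) :=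
    (hF.comp (f := fun σ : ℂ => I * σ) (by fun_prop)).mul (by fun_prop)
  have hn : ∀ σ : ℂ, ‖F (I * σ) * cexp (-(q + b * (I * σ) + γ * (I * σ) ^ 2))‖ = ‖F (I * σ)‖ *
      Real.exp (-(q + (b * (I * σ)).re + γ * ‖I * σ‖ ^ 2) + 2 * γ * σ.re ^ 2) := fun σ => by
    rw [norm_mul, norm_exp, ← normSq_eq_norm_sq]
    congr 2
    simp only [normSq_apply, neg_re, add_re, mul_re, mul_im, pow_two,
      ofReal_re, ofReal_im, I_re, I_im]
    ring
  have him : ∀ σ : ℂ, (I * σ).im = σ.re := fun σ => by simp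
  have hs : ∀ σ : ℂ, 0 ≤ σ.re → σ.re ≤ v →
      ‖F (I * σ) * cexp (-(q + b * (I * σ) + γ * (I * σ) ^ 2))‖ ≤
        Real.exp ((L + 2 * K) * v ^ 2) := fun σ k0 k1 => by
    rw [hn]
    refine (mul_le_mul_of_nonneg_right (h2 _ (him σ ▸ k0) (him σ ▸ k1)) (Real.exp_pos _).le).trans ?_
    rw [← Real.exp_add, Real.exp_le_exp]
    have k3 : γ * σ.re ^ 2 ≤ K * v ^ 2 := mul_le_mul ((le_abs_self γ).trans hγ)
      (pow_le_pow_left₀ k0 k1 2) (sq_nonneg _) ((abs_nonneg γ).trans hγ)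
    linarith
  have H := HadamardThreeLines.norm_le_interp_of_mem_verticalClosedStrip'
    (f := fun σ : ℂ => F (I * σ) * cexp (-(q + b * (I * σ) + γ * (I * σ) ^ 2))) (z := (t : ℂ))
    (a := μ) (b := Real.exp ((L + 2 * K) * v ^ 2)) (l := 0) (u := v) hv ⟨ht0, ht⟩
    hd.diffContOnCl ⟨Real.exp ((L + 2 * K) * v ^ 2), by
      rintro _ ⟨σ, hσ, rfl⟩
      exact hs σ hσ.1 hσ.2⟩
    (fun σ (hσ : σ.re = 0) => by
      rw [hn, hσ]
      refine (mul_le_mul_of_nonneg_right (h1 _ ((him σ).trans hσ)) (Real.exp_pos _).le).trans_eq ?_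
      rw [mul_assoc, ← Real.exp_add, zero_pow two_ne_zero, mul_zero, add_zero, add_neg_cancel,
        Real.exp_zero, mul_one])
    (fun σ (hσ : σ.re = v) => hs σ (hσ ▸ hv.le) hσ.le)
  simp only [ofReal_re, sub_zero] at H
  rw [hn, ofReal_re, ← Real.exp_mul] at H
  generalize q + (b * (I * t)).re + γ * ‖I * (t : ℂ)‖ ^ 2 = Q at H ⊢
  have hθ : v ^ 2 * (t / v) = v * t := by field_simp
  have k1 : μ ^ (1 - t / v) ≤ μ * Real.exp (v * t) := by
    rw [Real.rpow_sub hμ0, Real.rpow_one, div_le_iff₀ (Real.rpow_pos_of_pos hμ0 _), mul_assoc]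
    refine le_mul_of_one_le_right hμ0.le ?_
    have k2 := Real.rpow_le_rpow (Real.exp_pos _).le hμ (div_nonneg ht0 hv.le)
    rw [← Real.exp_mul, neg_mul, hθ] at k2
    refine le_trans ?_ (mul_le_mul_of_nonneg_left k2 (Real.exp_pos _).le)
    rw [← Real.exp_add, add_neg_cancel, Real.exp_zero]
  have k3 : -γ * t ^ 2 ≤ K * (v * t) := mul_le_mul ((neg_le_abs γ).trans hγ) (by nlinarith)
    (sq_nonneg _) ((abs_nonneg γ).trans hγ)
  rw [← le_div_iff₀ (Real.exp_pos _), mul_assoc (L + 2 * K), hθ] at H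
  refine H.trans ?_
  rw [div_le_iff₀ (Real.exp_pos _)]
  refine (mul_le_mul_of_nonneg_right k1 (Real.exp_pos _).le).trans ?_
  rw [mul_assoc, mul_assoc μ, ← Real.exp_add, ← Real.exp_add]
  refine mul_le_mul_of_nonneg_left (Real.exp_le_exp.2 ?_) hμ0.le
  linarith

variable {ι : Type} [Fintype ι] {mx : Finset ι} {c V μ : ℝ} {T : ℕ} {α β : ι → ℝ}
  {G : (ι ⊕ ι → ℂ) → ℂ}

theorem sq_line (p q σ : ℂ) :
    ‖p + σ * q‖ ^ 2 = ‖p‖ ^ 2 + (2 * starRingEnd ℂ p * q * σ).re + ‖q‖ ^ 2 * ‖σ‖ ^ 2 := by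
  simp only [← normSq_eq_norm_sq, normSq_apply, add_re, add_im, mul_re, mul_im, conj_re, conj_im,
    re_ofNat, im_ofNat]
  ring

theorem quad (h : ∀ i, |α i| ≤ c ∧ |β i| ≤ c) (x w : ι ⊕ ι → ℂ) (hw : ∀ m, ‖w m‖ ≤ 1) :
    ∃ (b : ℂ) (γ : ℝ), |γ| ≤ 2 * c * Fintype.card ι ∧
      ∀ σ : ℂ, QQ α β (x + σ • w) = QQ α β x + (b * σ).re + γ * ‖σ‖ ^ 2 := by
  refine ⟨∑ i, (α i * (2 * starRingEnd ℂ (x (.inl i)) * w (.inl i)) +
    β i * (2 * starRingEnd ℂ (x (.inr i)) * w (.inr i))), QQ α β w, ?_, fun σ => ?_⟩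
  · have k : ∀ (a : ℝ) m, |a| ≤ c → |a * ‖w m‖ ^ 2| ≤ c := fun a m ha => by
      rw [abs_mul, abs_sq]
      exact (mul_le_of_le_one_right (abs_nonneg a) (pow_le_one₀ (norm_nonneg _) (hw m))).trans ha
    refine (Finset.abs_sum_le_sum_abs _ _).trans ((Finset.sum_le_card_nsmul _ _ (2 * c)
      fun i _ => (abs_add_le _ _).trans ?_).trans_eq ?_)
    · linarith [k _ (.inl i) (h i).1, k _ (.inr i) (h i).2]
    · rw [nsmul_eq_mul, Finset.card_univ, mul_comm]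
  · simp only [QQ, Pi.add_apply, Pi.smul_apply, smul_eq_mul, sq_line, Finset.sum_mul, re_sum,
      ← Finset.sum_add_distrib, add_mul, add_re, mul_assoc, re_ofReal_mul]
    exact Finset.sum_congr rfl fun i _ => by ring

/-- the first step -/
theorem step (hT : 1 ≤ T) (hG : Adm mx c T V α β G) (hμ : 0 ≤ μ)
    (hU : ∀ a, ‖G (rp a)‖ ≤ μ * Real.exp (QQ α β (rp a))) (y : ι ⊕ ι → ℂ) {t : ℝ} (ht : 0 ≤ t)
    (h1 : ∀ i, i ∉ mx → ‖df y i‖ ≤ t) (h2 : ∀ i ∈ mx, df y i = 0) :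
    ‖G y‖ ≤ μ * Real.exp (QQ α β y + (2 * c * Fintype.card ι + 1) * (√T * t)) := by
  have h3 : ∀ i, ‖df y i‖ ≤ t := fun i => by
    by_cases hi : i ∈ mx
    · rw [h2 i hi, norm_zero]
      exact ht
    · exact h1 i hi
  obtain ⟨e, e1, e2, e3⟩ : ∃ e : ι → ℂ, (∀ i, ‖e i‖ ≤ 1) ∧ (∀ i ∈ mx, e i = 0) ∧
      ∀ i, df y i = t * e i := by
    refine ⟨fun i => df y i / t, fun i => ?_, fun i hi => by simp [h2 i hi], fun i => ?_⟩
    · rw [norm_div, norm_real, Real.norm_eq_abs, abs_of_nonneg ht]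
      exact div_le_one_of_le₀ (h3 i) ht
    · rcases ht.eq_or_lt with rfl | h0
      · simpa using h3 i
      · rw [mul_div_cancel₀ _ (by exact_mod_cast h0.ne')]
  obtain ⟨b, γ, hγ, hq⟩ := quad hG.le y (Sum.elim (fun i => starRingEnd ℂ (e i)) 0) (by
    rintro (i | i)
    · simpa using e1 i
    · simp)
  have H := circle (f := fun ζ s => G (rp (fun i => y (.inl i)) +
      ζ • Sum.elim (fun i => starRingEnd ℂ (e i)) 0 + s • Sum.elim (0 : ι → ℂ) e)) hT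
    (fun s => hG.hol.comp (by fun_prop)) (fun ζ => hG.poly _ e e2) (q := QQ α β y) (b := b) hμ hγ ht
    (fun ζ => by
      have k1 : rp (fun i => y (.inl i)) + ζ • Sum.elim (fun i => starRingEnd ℂ (e i)) 0 +
          starRingEnd ℂ ζ • Sum.elim (0 : ι → ℂ) e =
          rp fun i => y (.inl i) + ζ * starRingEnd ℂ (e i) := by
        funext m
        rcases m with i | i <;> simp [rp]
      rw [k1, ← hq]
      refine (hU _).trans_eq ?_
      congr 2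
      refine Finset.sum_congr rfl fun i _ => ?_
      by_cases hi : i ∈ mx
      · have k2 : y (.inr i) = starRingEnd ℂ (y (.inl i)) := sub_eq_zero.1 (h2 i hi)
        simp [rp, e2 i hi, k2]
      · simp [rp, hG.pure i hi])
  have k3 : rp (fun i => y (.inl i)) + (0 : ℂ) • Sum.elim (fun i => starRingEnd ℂ (e i)) 0 +
      (t : ℂ) • Sum.elim (0 : ι → ℂ) e = y := by
    funext m
    rcases m with i | i
    · simp [rp]
    · simp [rp, ← e3 i, df]
  rwa [k3] at H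

end TubeAux

open TubeAux in
theorem tubeS : TubeS := by
  classical
  intro ι _ mx c hc
  have hK : 0 ≤ 2 * c * Fintype.card ι := by positivity
  refine ⟨2 + 2 * c + 4 * (2 * c * Fintype.card ι), by linarith, ?_⟩
  intro T V μ α β G hT hV hG hμ hU y t₁ t₂ a1 a2 b1 b2 h1 h2
  have hμ0 : 0 < μ := (Real.exp_pos _).trans_le hμ
  obtain ⟨v, hv⟩ : ∃ v : ℝ, v = √V := ⟨_, rfl⟩
  have v1 : 1 ≤ v := hv ▸ Real.one_le_sqrt.2 hV
  have v2 : v ^ 2 = V := hv ▸ Real.sq_sqrt (by linarith)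
  rw [← hv] at a2 b2 ⊢
  obtain ⟨e, e1, e2, e3⟩ : ∃ e : ι → ℂ, (∀ i, ‖e i‖ ≤ 1) ∧ (∀ i, i ∉ mx → e i = 0) ∧
      ∀ i ∈ mx, df y i = 2 * I * t₂ * e i := by
    refine ⟨fun i => if i ∈ mx then df y i / (2 * I * t₂) else 0, fun i => ?_,
      fun i hi => if_neg hi, fun i hi => ?_⟩
    · dsimp only
      split_ifs with hi
      · rw [norm_div]
        refine div_le_one_of_le₀ ((h2 i hi).trans ?_) (norm_nonneg _)
        simp only [norm_mul, norm_ofNat, norm_I, norm_real, Real.norm_eq_abs, abs_of_nonneg b1]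
        linarith
      · simp
    · simp only [if_pos hi]
      rcases b1.eq_or_lt with rfl | h0
      · simpa using h2 i hi
      · rw [mul_div_cancel₀ _ (by simpa using h0.ne')]
  obtain ⟨w, hw⟩ : ∃ w : ι ⊕ ι → ℂ, w = Sum.elim (fun i => starRingEnd ℂ (e i)) e := ⟨_, rfl⟩
  have d0 : ∀ (σ : ℂ) i, df (y - (I * t₂) • w + σ • w) i =
      df y i - 2 * I * t₂ * e i + 2 * I * σ.im * e i := fun σ i => by
    have k := sub_conj σ
    simp only [hw, df, Pi.add_apply, Pi.sub_apply, Pi.smul_apply, smul_eq_mul, Sum.elim_inl,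
      Sum.elim_inr, map_add, map_sub, map_mul, conj_conj, conj_I, conj_ofReal]
    push_cast at k
    linear_combination e i * k
  have d1 : ∀ (σ : ℂ) i, i ∉ mx → ‖df (y - (I * t₂) • w + σ • w) i‖ ≤ t₁ := fun σ i hi => by
    simpa [d0, e2 i hi] using h1 i hi
  have d2 : ∀ (σ : ℂ), ∀ i ∈ mx, df (y - (I * t₂) • w + σ • w) i = 2 * I * σ.im * e i :=
    fun σ i hi => by rw [d0, e3 i hi, sub_self, zero_add]
  obtain ⟨b, γ, hγ, hq⟩ := quad hG.le (y - (I * t₂) • w) w (by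
    rintro (i | i) <;> simpa [hw] using e1 i)
  have p1 : 0 ≤ √T * t₁ := by positivity
  have H := lines (F := fun σ => G (y - (I * t₂) • w + σ • w)) (hG.hol.comp (by fun_prop))
    (μ := μ * Real.exp ((2 * c * Fintype.card ι + 1) * (√T * t₁))) (q := QQ α β (y - (I * t₂) • w))
    (b := b) (L := 1 + 2 * c) hγ (by linarith) b1 b2
    (v2 ▸ hμ.trans (le_mul_of_one_le_right hμ0.le (Real.one_le_exp (by positivity))))
    (fun σ hσ => by
      rw [← hq, mul_assoc, ← Real.exp_add, add_comm _ (QQ _ _ _)]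
      exact step hT hG hμ0.le hU _ a1 (d1 σ) fun i hi => by simp [d2 σ i hi, hσ])
    (fun σ k0 k1 => by
      rw [← hq]
      refine (hG.bd _).trans (Real.exp_le_exp.2 ?_)
      have k2 : ‖df (y - (I * t₂) • w + σ • w)‖ ≤ 2 * v ^ 2 := by
        refine (pi_norm_le_iff_of_nonneg (by positivity)).2 fun i => ?_
        by_cases hi : i ∈ mx
        · rw [d2 σ i hi]
          simp only [norm_mul, norm_ofNat, norm_I, norm_real, Real.norm_eq_abs, abs_of_nonneg k0]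
          nlinarith [mul_le_of_le_one_right k0 (e1 i)]
        · nlinarith [d1 σ i hi]
      nlinarith [mul_le_mul_of_nonneg_left k2 hc])
  rw [← hq, sub_add_cancel, mul_assoc, ← Real.exp_add] at H
  refine H.trans (mul_le_mul_of_nonneg_left (Real.exp_le_exp.2 ?_) hμ0.le)
  nlinarith [mul_nonneg hK p1, mul_nonneg hc p1]

end Pool.Agent.Lib.MP_caab05_ag.WZ
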