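import Mathlib
import Pool.Agent.Lib.MP_caab05_ag.LT.DetA
import Pool.Agent.Lib.MP_caab05_ag.LT.ElimAff
import Pool.Agent.Lib.MP_caab05_ag.LT.FacBd
import Pool.Agent.Lib.MP_caab05_ag.LT.Norm
import Pool.Agent.Lib.MP_caab05_ag.LT.Per
import Pool.Agent.Lib.MP_caab05_ag.ZE.All
import Pool.Agent.Lib.MP_caab05_ag.WZ.AuxF
import Pool.Agent.Lib.MP_caab05_ag.WZ.Br
import Pool.Agent.Lib.MP_caab05_ag.WZ.Core
import Pool.Agent.Lib.MP_caab05_ag.WZ.Ind
import Pool.Agent.Lib.MP_caab05_ag.WZ.Jet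
import Pool.Agent.Lib.MP_caab05_ag.WZ.Jet2
import Pool.Agent.Lib.MP_caab05_ag.WZ.Lan
import Pool.Agent.Lib.MP_caab05_ag.WZ.MainA
import Pool.Agent.Lib.MP_caab05_ag.WZ.Net
import Pool.Agent.Lib.MP_caab05_ag.WZ.Ode
import Pool.Agent.Lib.MP_caab05_ag.WZ.PowZ
import Pool.Agent.Lib.MP_caab05_ag.WZ.Tube

/-! The abstract transcendence theorem and the multiplicity estimate, without hypotheses. -/

namespace Pool.Agent.Lib.MP_caab05_ag.WZ

theorem mainA' : MainAS :=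
  mainA lanS indS (auxS lanS tubeS (netS tubeS)) (jetS lanS odeN odeK jet2)
    (coreS (LT.elimA (LT.detA LT.per LT.facBd (LT.normS LT.per)))) powS (powZ lanS)

theorem brS' : BrS := brS ZE.ze2'

end Pool.Agent.Lib.MP_caab05_ag.WZ
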