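import Mathlib
import Pool.Agent.Lib.MP_caab05_ag.WZ.Stmt
import Pool.Agent.Lib.MP_caab05_ag.GB.Der
import Pool.Agent.Lib.MP_caab05_ag.GB.Cyc

/-! The theorem for two adjacent types. -/

namespace Pool.Agent.Lib.MP_caab05_ag.WZ

open MvPolynomial Filter Topology Asymptotics Complex
open Pool.Agent.Lib.MP_caab05_ag.ZE (Ord VX)
open Pool.Agent.Lib.MP_caab05_ag.GB (Der Emb cj IsCj IsType elt)
open Pool.Agent.Lib.MP_caab05_ag.GB.CycAux (cj_cj card_type)

namespace CMAux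

theorem exists_field (F : IntermediateField ℚ ℂ) : ∃ F' : IntermediateField ℚ ℂ,
    (∀ x : ℂ, IsAlgebraic F x → x ∈ F') ∧ Algebra.trdeg ℚ F' = Algebra.trdeg ℚ F := by
  refine ⟨(algebraicClosure F ℂ).restrictScalars ℚ, fun x hx => mem_algebraicClosure_iff.2 hx, ?_⟩
  have h1 := trdeg_add_eq ℚ F (A := algebraicClosure F ℂ)
  rw [trdeg_eq_zero (R := F) (A := algebraicClosure F ℂ), add_zero] at h1
  exact h1.symm

theorem D_alg (D : Der) (x : ℂ) (hx : IsAlgebraic ℚ x) : D x = 0 := by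
  have hi : IsIntegral ℚ x := hx.isIntegral
  have hs : (minpoly ℚ x).Separable := (minpoly.irreducible hi).separable
  have h1 := hs.aeval_derivative_ne_zero (minpoly.aeval ℚ x)
  have h2 := D.map_aeval (minpoly ℚ x) x
  rw [minpoly.aeval, map_zero, smul_eq_mul] at h2
  exact (mul_eq_zero.1 h2.symm).resolve_left h1

theorem D_div (D : Der) {a b l : ℂ} (hb : b ≠ 0) (h1 : D a = l * a) (h2 : D b = l * b) :
    D (a * b⁻¹) = 0 := by
  have h3 := D.leibniz (a * b⁻¹) b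
  rw [inv_mul_cancel_right₀ hb, h1, h2, smul_eq_mul, smul_eq_mul] at h3
  have h4 : a * b⁻¹ * (l * b) = l * a := by field_simp
  rw [h4] at h3
  have h5 : b * D (a * b⁻¹) = 0 := by linear_combination -h3
  exact (mul_eq_zero.1 h5).resolve_left hb

theorem D_dual (D : Der) {w y p μ : ℂ} (hw : w ≠ 0) (hp : p ≠ 0)
    (ha : IsAlgebraic ℚ (w * y / p)) (h1 : D w = μ * w) (h2 : D p = 2 * μ * p) : D y = μ * y := by
  have h3 := D.leibniz (w * y / p) p
  rw [div_mul_cancel₀ _ hp, D_alg D _ ha, D.leibniz, h1, h2] at h3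
  simp only [smul_eq_mul, mul_zero, add_zero] at h3
  have h4 : w * y / p * (2 * μ * p) = 2 * μ * (w * y) := by field_simp
  rw [h4] at h3
  have h5 : w * (D y - μ * y) = 0 := by linear_combination h3
  exact sub_eq_zero.1 ((mul_eq_zero.1 h5).resolve_left hw)

variable {L : Type} [Field L]

theorem cj_mem {Φ : Set (Emb L)} (h : IsType Φ) {φ : Emb L} (hφ : φ ∉ Φ) : cj φ ∈ Φ := by
  by_contra h1
  exact hφ ((h φ).2 h1)

open Classical in
/-- the place of an embedding, as an element of the type -/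
noncomputable def plc {Φ : Set (Emb L)} (h : IsType Φ) (φ : Emb L) : Φ :=
  if hφ : φ ∈ Φ then ⟨φ, hφ⟩ else ⟨cj φ, cj_mem h hφ⟩

theorem plc_pos {Φ : Set (Emb L)} (h : IsType Φ) {φ : Emb L} (hφ : φ ∈ Φ) :
    (plc h φ : Emb L) = φ := by
  rw [plc, dif_pos hφ]

theorem plc_neg {Φ : Set (Emb L)} (h : IsType Φ) {φ : Emb L} (hφ : φ ∉ Φ) :
    (plc h φ : Emb L) = cj φ := by
  rw [plc, dif_neg hφ]

theorem plc_inj {Φ Ψ : Set (Emb L)} (h : IsType Φ) (h' : IsType Ψ) {φ ψ : Emb L} (hφ : φ ∈ Ψ)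
    (hψ : ψ ∈ Ψ) (e : plc h φ = plc h ψ) : φ = ψ := by
  have e1 := congrArg Subtype.val e
  by_cases a : φ ∈ Φ <;> by_cases b : ψ ∈ Φ
  · rwa [plc_pos h a, plc_pos h b] at e1
  · rw [plc_pos h a, plc_neg h b] at e1
    exact absurd (e1 ▸ hφ) ((h' ψ).1 hψ)
  · rw [plc_neg h a, plc_pos h b] at e1
    exact absurd (e1 ▸ hψ) ((h' φ).1 hφ)
  · rw [plc_neg h a, plc_neg h b] at e1
    rw [← cj_cj φ, e1, cj_cj]

theorem two_cases (i : Fin 2) : i = 0 ∨ i = 1 := by
  revert i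
  decide

theorem two_eq (i a b : Fin 2) (ha : a ≠ i) (hb : b ≠ i) : a = b := by
  revert i a b
  decide

end CMAux

open CMAux in
theorem cmS (h1 : MainAS) (h2 : BrS) (h3 : OdeVS) (h4 : Var3S) (h5 : Gen4S) (h6 : LatS) :
    CMS := by
  classical
  intro L _ _ c Φ e hc _ hΦ he hrange htrans hcomm hsep hcard F hF
  obtain ⟨F', hF', htr⟩ := exists_field F
  rw [← htr]
  have hd : 0 < Module.finrank ℚ L := Module.finrank_pos
  obtain ⟨g, hg⟩ : ∃ g, Module.finrank ℚ L = 2 * g :=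
    ⟨(Set.range fun k => (e k).1).ncard - 1, by omega⟩
  have hmem : ∀ k, (e k).1 ∈ Φ (e k).2 := fun k => by
    have : e k ∈ Set.range e := ⟨k, rfl⟩
    rw [hrange] at this
    exact this
  have hex : ∀ i, ∀ φ ∈ Φ i, ∃ k, e k = (φ, i) := fun i φ hφ => by
    have : (φ, i) ∈ Set.range e := by
      rw [hrange]
      exact hφ
    exact this
  have hun : (Set.range fun k => (e k).1) = Φ 0 ∪ Φ 1 := by
    ext φ
    constructor
    · rintro ⟨k, rfl⟩
      have := hmem k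
      rcases two_cases (e k).2 with a | a
      · exact Or.inl (a ▸ this)
      · exact Or.inr (a ▸ this)
    · rintro (a | a)
      · obtain ⟨k, hk⟩ := hex 0 φ a
        exact ⟨k, by simp only [hk]⟩
      · obtain ⟨k, hk⟩ := hex 1 φ a
        exact ⟨k, by simp only [hk]⟩
  have hone : (Φ 1 \ Φ 0).ncard = 1 := by
    have a1 := card_type (hΦ 0) hg
    have a2 : (Φ 0 ∪ Φ 1 \ Φ 0).ncard = (Φ 0).ncard + (Φ 1 \ Φ 0).ncard :=
      Set.ncard_union_eq Set.disjoint_sdiff_right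
    rw [Set.union_sdiff_self, ← hun] at a2
    omega
  obtain ⟨ψ, hψ⟩ := Set.ncard_eq_one.1 hone
  let i1 : Fintype (Φ 0) := Fintype.ofFinite _
  have hI : Fintype.card (Φ 0) = g := by
    rw [← Nat.card_eq_fintype_card, Nat.card_coe_set_eq]
    exact card_type (hΦ 0) hg
  let pl : Fin (Module.finrank ℚ L) → Φ 0 := fun k => plc (hΦ 0) (e k).1
  let ori : Fin (Module.finrank ℚ L) → Bool := fun k => decide ((e k).1 ∈ Φ 0)
  obtain ⟨M, A, h, ω, 𝔪, hcan, har, hω, hh, halg, h𝔪, hΛ, hD⟩ := h4 L c Φ _ e hc hΦ he hrange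
  obtain ⟨hlaw, c₀, hc₀⟩ := h2.grow _ M A h hcan
  obtain ⟨R, hR⟩ := h6 L (Φ 0) 𝔪 (hΦ 0) h𝔪
  have hsurj : Function.Surjective pl := fun i => by
    obtain ⟨k, hk⟩ := hex 0 i.1 i.2
    refine ⟨k, Subtype.ext ?_⟩
    simp only [pl, hk]
    exact plc_pos _ i.2
  have hgen : GenP A pl := fun U hU hU0 => by
    obtain ⟨i, hi⟩ := h5 L Φ _ M e A.toAbVar ω 𝔪 hΦ he hrange hω hΛ htrans hcomm hsep U hU hU0
    refine ⟨{k | (e k).2 = i}, hi, fun k hk k' hk' hkk => he (Prod.ext ?_ ?_)⟩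
    · have a := two_eq i _ _ hk hk'
      exact plc_inj (hΦ 0) (hΦ (e k).2) (hmem k) (a ▸ hmem k') hkk
    · exact two_eq i _ _ hk hk'
  obtain ⟨Cz, hCz⟩ := h2.zero _ M A h (Φ 0) pl ori hcan hh hsurj hd (by omega) hgen
  let k0 : Fin (Module.finrank ℚ L) := ⟨0, hd⟩
  have hmain := h1 (Fin (Module.finrank ℚ L)) (Φ 0) (fun z => A.θ z 0) h pl ori ω
    (plc (hΦ 0) ψ) c₀ R Cz (differentiable_pi.1 A.holo 0) ⟨0, A.origin⟩ (h3 _ M A har) hc₀
    (fun k hk => by
      have a : (e k).1 ∉ Φ 0 := by simpa [ori] using hk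
      have b : (e k).1 ∈ Φ 1 \ Φ 0 := by
        refine ⟨?_, a⟩
        have := hmem k
        rcases two_cases (e k).2 with a' | a'
        · exact absurd (a' ▸ this) a
        · exact a' ▸ this
      rw [hψ, Set.mem_singleton_iff] at b
      simp only [pl, b])
    (by rw [Fintype.card_fin, hI, hg])
    (fun a => by
      obtain ⟨x, hx, hax⟩ := hR fun φ => if hφ : φ ∈ Φ 0 then a ⟨φ, hφ⟩ else 0
      have : Nonempty (Φ 0) := ⟨pl k0⟩
      refine ⟨fun i => i.1 x, (pi_norm_le_iff_of_nonempty _).2 fun i => ?_, hlaw _ ?_⟩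
      · have := hax i.1 i.2
        simp only [dif_pos i.2] at this
        exact this
      · refine (hΛ _).2 ⟨_, hx, funext fun k => ?_⟩
        by_cases b : (e k).1 ∈ Φ 0
        · simp [zz, jm, side, lf, rp, ori, pl, b, plc_pos _ b, mul_comm]
        · simp [zz, jm, side, lf, rp, ori, pl, b, plc_neg _ b, mul_comm])
    hCz F' (fun _ => (ω k0)⁻¹)
    (fun m => by
      constructor
      · refine mul_ne_zero ?_ (inv_ne_zero (hω k0))
        rcases m with k | k
        · exact hω k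
        · have a := hω k
          have b := hh k
          simp [lf, WZ.hc, a, b]
      · refine hF' _ (GB.der F _ fun D hD0 => ?_)
        obtain ⟨μ, a, b⟩ := hF D hD0
        have hw : ∀ k, D (ω k) = μ * ω k := fun k => by rw [hD D k, b _ _ (hmem k)]
        refine D_div D (l := μ) (hω k0) ?_ (hw k0)
        rcases m with k | k
        · exact hw k
        · exact D_dual D (hω k) (Complex.ofReal_ne_zero.2 Real.pi_ne_zero) (halg k) (hw k) a)
  rw [hI] at hmain
  rw [hg, Nat.cast_mul, Nat.cast_ofNat]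
  exact mul_le_mul_right hmain 2

end Pool.Agent.Lib.MP_caab05_ag.WZ
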