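import Mathlib
import Pool.Agent.Lib.MP_caab05_ag.WZ.Stmt
import Pool.Agent.Lib.MP_caab05_ag.GB.Gen2
import Pool.Agent.Lib.MP_caab05_ag.GB.Weak

/-! Subtori of a product of two tori with complex multiplication, and the diagonal lattice. -/

namespace Pool.Agent.Lib.MP_caab05_ag.WZ

open Complex NumberField Matrix
open Pool.Agent.Lib.MP_caab05_ag.GB (Emb weak)

open GB.Gen2Aux in
theorem gen4 : Gen4S := by
  classical
  intro L _ _ Φ d M e A ω 𝔪 hΦ he hr hω hΛ h1 h2 h3 U hU hU0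
  let S : Set (Fin 2 → L) := {x | rho e ω (ev L (Fin 2) x) ∈ U}
  let P : Submodule ℚ (Fin 2 → L) :=
    (U.restrictScalars ℚ).comap (((rho e ω).restrictScalars ℚ).comp (ev L (Fin 2)))
  have hUS : ∀ w ∈ U, w ∈ Submodule.span ℝ ((fun x => rho e ω (ev L (Fin 2) x)) '' S) := by
    intro w hw
    have hw' : w ∈ Submodule.span ℝ ((U : Set (Fin d → ℂ)) ∩ (A.Λ : Set (Fin d → ℂ))) := by
      rw [hU]
      exact hw
    refine Submodule.span_mono ?_ hw'
    rintro y ⟨hy1, hy2⟩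
    obtain ⟨x, -, rfl⟩ := (hΛ y).1 hy2
    exact ⟨x, hy1, rfl⟩
  obtain ⟨x₀, hx₀, hx₀0⟩ : ∃ x ∈ P, x ≠ 0 := by
    by_contra hne
    refine hU0 (eq_bot_iff.2 fun w hw => ?_)
    have hle : Submodule.span ℝ ((fun x => rho e ω (ev L (Fin 2) x)) '' S) ≤ ⊥ := by
      rw [Submodule.span_le]
      rintro _ ⟨x, hx, rfl⟩
      have hx0 : x = 0 := not_not.1 fun h0 => hne ⟨x, hx, h0⟩
      show rho e ω (ev L (Fin 2) x) = 0
      rw [hx0, map_zero, map_zero]
    exact hle (hUS w hw)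
  obtain ⟨i, hi⟩ := Function.ne_iff.1 hx₀0
  let Q : Submodule ℂ (Emb L × Fin 2 → ℂ) := U.comap (rho e ω)
  have hPQ : Submodule.span ℂ (ev L (Fin 2) '' (P : Set (Fin 2 → L))) ≤ Q := by
    rw [Submodule.span_le]
    rintro _ ⟨x, hx, rfl⟩
    exact hx
  have hs : ∀ φ : Emb L, (Pi.single (φ, i) 1 : Emb L × Fin 2 → ℂ) ∈ Q := fun φ =>
    hPQ (single_mem _ (fun σ : L ≃ₐ[ℚ] L => shift (Fin 2) σ ⁻¹' Set.range e)
      (fun σ X hX => stab weak e he h1 h2 P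
        (fun y hy x hx => relation hΦ e he hr hω U S hUS y hy x hx) σ hX)
      (fun p q hpq => by
        obtain ⟨σ, hσ1, hσ2⟩ := h3 p q hpq
        rw [hr]
        exact ⟨σ, hσ1, hσ2⟩)
      (Submodule.subset_span ⟨x₀, hx₀, rfl⟩) ((_root_.map_ne_zero φ).2 hi))
  refine ⟨i, fun k hk => ?_⟩
  have e1 : (Pi.single k 1 : Fin d → ℂ) = (ω k)⁻¹ • rho e ω (Pi.single ((e k).1, i) 1) := by
    rw [← hk]
    funext l
    show _ = (ω k)⁻¹ * ((Pi.single (e k) 1 : Emb L × Fin 2 → ℂ) (e l) * ω l)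
    by_cases hl : l = k
    · rw [hl, Pi.single_eq_same, Pi.single_eq_same, one_mul, inv_mul_cancel₀ (hω k)]
    · rw [Pi.single_eq_of_ne hl, Pi.single_eq_of_ne (he.ne hl), zero_mul, mul_zero]
  rw [e1]
  exact U.smul_mem _ (hs _)

theorem latS : LatS := by
  intro L _ _ Φ 𝔪 hΦ h𝔪
  let b := Module.finBasis ℚ L
  choose n hn hm using fun j => h𝔪 fun _ => b j
  refine ⟨1 + ∑ j, ∑ ψ : Emb L, ‖ψ (n j • b j)‖, fun a => ?_⟩
  obtain ⟨y, hy⟩ := weak.approx L Φ (fun φ h => (hΦ φ).1 h) a 1 one_pos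
  refine ⟨∑ j, ⌊b.repr y j / n j⌋ • n j • b j, ?_, fun φ hφ => ?_⟩
  · have e : (fun _ : Fin 2 => ∑ j, ⌊b.repr y j / n j⌋ • n j • b j) =
        ∑ j, ⌊b.repr y j / n j⌋ • n j • fun _ : Fin 2 => b j := by
      funext i
      simp only [Finset.sum_apply, Pi.smul_apply]
    rw [e]
    exact 𝔪.sum_mem fun j _ => 𝔪.smul_mem _ (hm j)
  · have e : y - ∑ j, ⌊b.repr y j / n j⌋ • n j • b j =
        ∑ j, Int.fract (b.repr y j / n j) • n j • b j := by
      rw [sub_eq_iff_eq_add, ← Finset.sum_add_distrib]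
      refine (b.sum_repr y).symm.trans (Finset.sum_congr rfl fun j _ => ?_)
      rw [← Int.cast_smul_eq_zsmul ℚ ⌊_⌋, ← add_smul, Int.fract_add_floor,
        ← Int.cast_smul_eq_zsmul ℚ (n j), smul_smul, div_mul_cancel₀ _ (Int.cast_ne_zero.2 (hn j))]
    have h1 : ‖φ y - φ (∑ j, ⌊b.repr y j / n j⌋ • n j • b j)‖ ≤
        ∑ j, ∑ ψ : Emb L, ‖ψ (n j • b j)‖ := by
      rw [← map_sub, e, map_sum]
      refine (norm_sum_le _ _).trans (Finset.sum_le_sum fun j _ => ?_)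
      rw [map_rat_smul, norm_smul]
      refine (mul_le_of_le_one_left (norm_nonneg _) ?_).trans
        (Finset.single_le_sum (f := fun ψ : Emb L => ‖ψ (n j • b j)‖) (fun _ _ => norm_nonneg _)
          (Finset.mem_univ φ))
      rw [← Rat.norm_cast_real, Real.norm_eq_abs,
        abs_of_nonneg (by exact_mod_cast Int.fract_nonneg _)]
      exact_mod_cast (Int.fract_lt_one _).le
    refine (norm_sub_le_norm_sub_add_norm_sub _ (φ y) _).trans (add_le_add ?_ h1)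
    rw [norm_sub_rev]
    exact (hy φ hφ).le

end Pool.Agent.Lib.MP_caab05_ag.WZ
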