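import Mathlib
import Pool.Agent.Lib.MP_caab05_ag.WZ.Stmt
import Pool.Agent.Lib.MP_caab05_ag.GB.Osg
import Pool.Agent.Lib.MP_caab05_ag.LT.JetA

/-! The differential system of a theta function, from the addition formula. -/

namespace Pool.Agent.Lib.MP_caab05_ag.WZ

open MvPolynomial Filter Topology Asymptotics Complex
open Pool.Agent.Lib.MP_caab05_ag.LT (AlgCoeff E)
open Pool.Agent.Lib.MP_caab05_ag.LT.JetAAux (K AP)
open Pool.Agent.Lib.MP_caab05_ag.ZE (VX)

namespace OdeVAux

section Alg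

variable {Z σ : Type} {Φ : Z → σ → ℂ} {g h : Z → ℂ}

lemma ap_add (hg : AP Φ g) (hh : AP Φ h) : AP Φ fun z => g z + h z := by
  obtain ⟨P, hP⟩ := hg
  obtain ⟨Q, hQ⟩ := hh
  exact ⟨P + Q, fun z => by rw [map_add, ← hP, ← hQ]⟩

lemma ap_congr (hg : AP Φ g) (e : ∀ z, h z = g z) : AP Φ h := by
  obtain ⟨P, hP⟩ := hg
  exact ⟨P, fun z => (e z).trans (hP z)⟩

lemma ap_sum {ι : Type} (s : Finset ι) {F : ι → Z → ℂ} (hF : ∀ i ∈ s, AP Φ (F i)) :
    AP Φ fun z => ∑ i ∈ s, F i z := by
  classical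
  induction s using Finset.induction_on with
  | empty => exact ap_congr (AP.const Φ isAlgebraic_zero) fun z => by simp
  | insert a s ha ih =>
    exact ap_congr (ap_add (hF a (by simp)) (ih fun i hi => hF i (by simp [hi]))) fun z => by
      rw [Finset.sum_insert ha]

/-- families of entire functions whose jets are polynomials in the parameter -/
def JA (g : (σ → ℂ) → ℂ → ℂ) : Prop :=
  (∀ x, Differentiable ℂ (g x)) ∧ ∀ j, AP (fun x : σ → ℂ => x) fun x => iteratedDeriv j (g x) 0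

lemma ja_const {c : (σ → ℂ) → ℂ} (hc : AP (fun x : σ → ℂ => x) c) : JA fun x _ => c x := by
  refine ⟨fun x => differentiable_const _, fun j => ?_⟩
  by_cases hj : j = 0
  · exact ap_congr hc fun x => by rw [iteratedDeriv_const, if_pos hj]
  · exact ap_congr (AP.const _ isAlgebraic_zero) fun x => by rw [iteratedDeriv_const, if_neg hj]

lemma ja_add {g h : (σ → ℂ) → ℂ → ℂ} (hg : JA g) (hh : JA h) : JA fun x t => g x t + h x t :=
  ⟨fun x => (hg.1 x).add (hh.1 x), fun j => ap_congr (ap_add (hg.2 j) (hh.2 j)) fun x =>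
    iteratedDeriv_fun_add (hg.1 x).contDiff.contDiffAt (hh.1 x).contDiff.contDiffAt⟩

lemma ja_mul {g h : (σ → ℂ) → ℂ → ℂ} (hg : JA g) (hh : JA h) : JA fun x t => g x t * h x t :=
  ⟨fun x => (hg.1 x).mul (hh.1 x), fun j => ap_congr (ap_sum (Finset.range (j + 1)) fun i _ =>
    ((AP.const _ (isAlgebraic_nat (j.choose i))).mul (hg.2 i)).mul (hh.2 (j - i))) fun x =>
    iteratedDeriv_fun_mul (hg.1 x).contDiff.contDiffAt (hh.1 x).contDiff.contDiffAt⟩

lemma ja_aeval {κ : Type} {y : ℂ → κ → ℂ} (hy : ∀ k, Differentiable ℂ fun t => y t k)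
    (ha : ∀ k j, IsAlgebraic ℚ (iteratedDeriv j (fun t => y t k) 0))
    (B : MvPolynomial (σ ⊕ κ) K) : JA fun x t => aeval (Sum.elim x (y t)) B := by
  induction B using MvPolynomial.induction_on with
  | C a =>
    simp only [aeval_C]
    exact ja_const (AP.const _ (mem_algebraicClosure_iff.1 a.2))
  | add p q hp hq =>
    simp only [map_add]
    exact ja_add hp hq
  | mul_X p i hp =>
    simp only [map_mul, aeval_X]
    refine ja_mul hp ?_
    rcases i with i | k
    · exact ja_const (AP.coord _ i)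
    · exact ⟨fun _ => hy k, fun j => AP.const _ (ha k j)⟩

end Alg

variable {d M : ℕ}

lemma line {g : E d → ℂ} (hg : Differentiable ℂ g) (z w : E d) (t : ℂ) :
    HasDerivAt (fun s : ℂ => g (z + s • w)) (fderiv ℂ g (z + t • w) w) t := by
  have h1 : HasDerivAt (fun s : ℂ => z + s • w) w t := by
    simpa using ((hasDerivAt_id t).smul_const w).const_add z
  exact (hg _).hasFDerivAt.comp_hasDerivAt t h1

lemma line' {g : E d → ℂ} (hg : Differentiable ℂ g) (z w : E d) (t : ℂ) :
    HasDerivAt (fun s : ℂ => g (z - s • w)) (-fderiv ℂ g (z - t • w) w) t := by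
  simpa [sub_eq_add_neg] using line hg z (-w) t

lemma anal {g : E d → ℂ} (hg : Differentiable ℂ g) (z : E d) : AnalyticAt ℂ g z :=
  GB.osg _ _ g Set.univ isOpen_univ hg.differentiableOn z trivial

/-- the derivative in the direction `v` -/
noncomputable def dd (g : E d → ℂ) (v z : E d) : ℂ := fderiv ℂ g z v

lemma diff_dd {g : E d → ℂ} (hg : Differentiable ℂ g) (v : E d) : Differentiable ℂ (dd g v) :=
  fun z => (anal hg z).fderiv.differentiableAt.clm_apply (differentiableAt_const v)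

lemma dd_dd {g : E d → ℂ} (hg : Differentiable ℂ g) (v w z : E d) :
    fderiv ℂ (dd g v) z w = fderiv ℂ (fderiv ℂ g) z w v := by
  have := ((anal hg z).fderiv.differentiableAt.hasFDerivAt.clm_apply
    (hasFDerivAt_const v z)).fderiv
  change fderiv ℂ (dd g v) z = _ at this
  rw [this]
  simp

lemma one_jet {f g : E d → ℂ} (hf : Differentiable ℂ f) (hg : Differentiable ℂ g) (z w : E d) :
    deriv (fun t : ℂ => f (z + t • w) * g (z - t • w)) =
      fun t => dd f w (z + t • w) * g (z - t • w) - f (z + t • w) * dd g w (z - t • w) := by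
  funext t
  rw [((line hf z w t).fun_mul (line' hg z w t)).deriv, dd, dd]
  ring

lemma two_jet {f : E d → ℂ} (hf : Differentiable ℂ f) (z w : E d) :
    iteratedDeriv 2 (fun t : ℂ => f (z + t • w) * f (z - t • w)) 0 =
      2 * (f z * fderiv ℂ (fderiv ℂ f) z w w - fderiv ℂ f z w ^ 2) := by
  rw [iteratedDeriv_succ, iteratedDeriv_one, one_jet hf hf]
  have h1 := ((line (diff_dd hf w) z w 0).fun_mul (line' hf z w 0)).fun_sub
    ((line hf z w 0).fun_mul (line' (diff_dd hf w) z w 0))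
  rw [h1.deriv]
  simp only [zero_smul, add_zero, sub_zero, dd_dd hf, dd]
  ring

/-- the jets of the addition formula -/
lemma jets (A : VX d M) (hA : Arith A) (w : Fin d → ℕ) (a b : Fin (M + 1)) (j : ℕ) :
    ∃ P : MvPolynomial (Fin (M + 1)) K, ∀ z, A.θ z 0 ≠ 0 →
      iteratedDeriv j (fun t : ℂ => A.θ (z + t • fun k => (w k : ℂ)) a *
        A.θ (z - t • fun k => (w k : ℂ)) b) 0 =
      A.θ z 0 ^ 2 * aeval (fun i => A.θ z i / A.θ z 0) P := by
  obtain ⟨B, hB⟩ := LT.JetAAux.lift (hA.1 a b)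
  obtain ⟨P, hP⟩ := (ja_aeval (y := fun t : ℂ => A.θ (t • fun k => (w k : ℂ))) (fun k =>
    (differentiable_pi.1 A.holo k).comp (differentiable_id.smul_const _))
    (fun k j => hA.2 w j k) B).2 j
  refine ⟨P, fun z hz => ?_⟩
  rw [← hP, ← iteratedDeriv_const_mul_field]
  congr 1
  funext t
  have e : A.θ z = A.θ z 0 • fun i => A.θ z i / A.θ z 0 := by
    funext i
    simp only [Pi.smul_apply, smul_eq_mul]
    field_simp
  have h1 := A.scal a b (A.θ z 0) 1 (fun i => A.θ z i / A.θ z 0) (A.θ (t • fun k => (w k : ℂ)))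
  rw [← e, one_smul, one_pow, mul_one] at h1
  rw [A.add2, h1, hB]

lemma cast_single (k : Fin d) :
    (fun i => (((Pi.single k 1 : Fin d → ℕ) i : ℕ) : ℂ)) = Pi.single k 1 := by
  funext i
  by_cases h : i = k <;> simp [h]

lemma cast_pair (k l : Fin d) :
    (fun i => (((Pi.single k 1 + Pi.single l 1 : Fin d → ℕ) i : ℕ) : ℂ)) =
      Pi.single k 1 + Pi.single l 1 := by
  rw [← cast_single, ← cast_single]
  funext i
  simp

/-- the solution of the system -/
noncomputable def Ph (A : VX d M) (z : E d) : Option (Fin (M + 1) ⊕ Fin d) → ℂ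
  | none => A.θ z 0
  | some (.inl a) => A.θ z a / A.θ z 0
  | some (.inr k) => dd (fun z => A.θ z 0) (Pi.single k 1) z / A.θ z 0

lemma th (A : VX d M) (a : Fin (M + 1)) : Differentiable ℂ fun z => A.θ z a :=
  differentiable_pi.1 A.holo a

lemma ap_x (A : VX d M) (P : MvPolynomial (Fin (M + 1)) K) :
    AP (fun z : {z // A.θ z 0 ≠ 0} => Ph A z) fun z =>
      aeval (fun i => A.θ z i / A.θ z 0) P :=
  AP.aeval (fun i => AP.coord (fun z : {z // A.θ z 0 ≠ 0} => Ph A z) (some (.inl i))) P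

lemma system (A : VX d M) (hA : Arith A) (s : Option (Fin (M + 1) ⊕ Fin d)) (k : Fin d) :
    ∃ P : MvPolynomial (Option (Fin (M + 1) ⊕ Fin d)) K, ∀ z, A.θ z 0 ≠ 0 →
      HasDerivAt (fun t : ℂ => Ph A (z + t • Pi.single k 1) s) (aeval (Ph A z) P) 0 := by
  suffices h : ∃ D : {z // A.θ z 0 ≠ 0} → ℂ, AP (fun z : {z // A.θ z 0 ≠ 0} => Ph A z) D ∧
      ∀ z : {z // A.θ z 0 ≠ 0},
        HasDerivAt (fun t : ℂ => Ph A (z.1 + t • Pi.single k 1) s) (D z) 0 by
    obtain ⟨D, ⟨P, hP⟩, h⟩ := h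
    exact ⟨P, fun z hz => hP ⟨z, hz⟩ ▸ h ⟨z, hz⟩⟩
  rcases s with _ | a | l
  · refine ⟨_, (AP.coord _ (some (.inr k))).mul (AP.coord _ none), fun ⟨z, hz⟩ => ?_⟩
    refine (line (th A 0) z _ 0).congr_deriv ?_
    simp only [Ph, dd, zero_smul, add_zero]
    field_simp
  · obtain ⟨P, hP⟩ := jets A hA (Pi.single k 1) a 0 1
    refine ⟨_, ap_x A P, fun ⟨z, hz⟩ => ?_⟩
    refine ((line (th A a) z _ 0).fun_div (line (th A 0) z _ 0) (by simpa using hz)).congr_deriv ?_
    have h1 := hP z hz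
    rw [cast_single, iteratedDeriv_one, one_jet (th A a) (th A 0)] at h1
    simp only [dd, zero_smul, add_zero, sub_zero] at h1 ⊢
    rw [h1]
    field_simp
  · obtain ⟨P1, h1⟩ := jets A hA (Pi.single k 1) 0 0 2
    obtain ⟨P2, h2⟩ := jets A hA (Pi.single l 1) 0 0 2
    obtain ⟨P3, h3⟩ := jets A hA (Pi.single k 1 + Pi.single l 1) 0 0 2
    refine ⟨_, (AP.const _ (isAlgebraic_nat 4).inv).mul
      (((ap_x A P3).sub (ap_x A P1)).sub (ap_x A P2)), fun ⟨z, hz⟩ => ?_⟩
    refine ((line (diff_dd (th A 0) _) z _ 0).fun_div (line (th A 0) z _ 0)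
      (by simpa using hz)).congr_deriv ?_
    have e1 := h1 z hz
    have e2 := h2 z hz
    have e3 := h3 z hz
    rw [cast_single, two_jet (th A 0)] at e1 e2
    rw [cast_pair, two_jet (th A 0)] at e3
    have sy := (anal (th A 0) z).contDiffAt.isSymmSndFDerivAt_of_omega
      (Pi.single l 1) (Pi.single k 1)
    simp only [map_add, ContinuousLinearMap.add_apply, sy] at e3
    simp only [dd_dd (th A 0), dd, zero_smul, add_zero]
    rw [div_eq_iff (pow_ne_zero 2 hz)]
    push_cast
    linear_combination (e3 - e1 - e2) / 4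

end OdeVAux

open OdeVAux in
theorem odeV : OdeVS := by
  intro d M A hA
  choose P hP using system A hA
  have a0 : ∀ a, IsAlgebraic ℚ (A.θ 0 a) := fun a => by simpa using hA.2 0 0 a
  have ac : ∀ Q : MvPolynomial (Option (Fin (M + 1) ⊕ Fin d)) K,
      AlgCoeff (map (algebraMap K ℂ) Q) := fun Q m => by
    rw [coeff_map]
    exact mem_algebraicClosure_iff.1 (Subtype.property _)
  refine ⟨Option (Fin (M + 1) ⊕ Fin d), inferInstance, Ph A,
    fun s k => map (algebraMap K ℂ) (P s k), map (algebraMap K ℂ) (X none), ?_,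
    fun s k => ac _, ac _, ?_⟩
  · rintro (_ | a | k)
    · exact a0 0
    · exact A.origin_alg a
    · have h1 := hA.2 (Pi.single k 1) 1 0
      have h2 := (line (th A 0) 0 (Pi.single k 1) 0).deriv
      simp only [zero_add, zero_smul] at h2
      rw [cast_single, iteratedDeriv_one, h2] at h1
      change IsAlgebraic ℚ (_ / _)
      rw [div_eq_mul_inv]
      exact h1.mul (a0 0).inv
  filter_upwards [(th A 0).continuous.continuousAt.eventually_ne A.origin] with z hz
  have hd : DifferentiableAt ℂ (Ph A) z := by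
    refine differentiableAt_pi.2 ?_
    rintro (_ | a | k)
    · exact th A 0 z
    · simp only [Ph, div_eq_mul_inv]
      exact (th A a z).fun_mul ((th A 0 z).fun_inv hz)
    · simp only [Ph, div_eq_mul_inv]
      exact (diff_dd (th A 0) _ z).fun_mul ((th A 0 z).fun_inv hz)
  refine ⟨hd, fun w s => ?_, by simp [Ph]⟩
  have hw : w = ∑ j, w j • (Pi.single j 1 : E d) := by
    ext k
    simp [Finset.sum_apply, Pi.single_apply]
  conv_lhs => rw [hw]
  simp only [map_sum, map_smul, Finset.sum_apply, Pi.smul_apply, smul_eq_mul]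
  refine Finset.sum_congr rfl fun k _ => ?_
  rw [eval_map, ← aeval_def,
    (hasDerivAt_pi.1 (LT.JetAAux.line hd (Pi.single k 1)) s).unique (hP s k z hz)]

end Pool.Agent.Lib.MP_caab05_ag.WZ
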