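import Mathlib
import Pool.Agent.Lib.MP_caab05_ag.WZ.Stmt
import Pool.Agent.Lib.MP_caab05_ag.GB.Osg
import Pool.Agent.Lib.MP_caab05_ag.GB.Pol
import Pool.Agent.Lib.MP_caab05_ag.GB.Twc
import Pool.Agent.Lib.MP_caab05_ag.GB.Dep
import Pool.Agent.Lib.MP_caab05_ag.GB.Rel
import Pool.Agent.Lib.MP_caab05_ag.GB.Hom

/-! Invariance of the quadratic twist under unitary endomorphisms. -/

namespace Pool.Agent.Lib.MP_caab05_ag.WZ

open MvPolynomial Filter Topology Asymptotics Complex
open Pool.Agent.Lib.MP_caab05_ag.ZE (VX)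
open Pool.Agent.Lib.MP_caab05_ag.GB (Der Tw cD dP BiH Charts osg pol)
open Pool.Agent.Lib.MP_caab05_ag.GB.HomAux (zero_of_mul diff_elim diff_ev diff_dP)

namespace QTwAux

variable {d M : ℕ}

theorem tw : GB.TwS := GB.twc osg pol

theorem imm (A : VX d M) (w : Fin d → ℂ) (c : ℂ) (h : fderiv ℂ A.θ 0 w = c • A.θ 0) : w = 0 := by
  refine (injective_iff_map_eq_zero _).1 A.immersion w ?_
  have h1 := (A.holo 0).hasFDerivAt
  have h0 : HasFDerivAt (fun z => A.θ z 0) _ 0 := hasFDerivAt_pi'.1 h1 0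
  have h2 := ((hasDerivAt_inv A.origin).comp_hasFDerivAt (0 : Fin d → ℂ) h0).smul h1
  have e : (fun z i => A.θ z i / A.θ z 0) =
      ((fun y : ℂ => y⁻¹) ∘ fun z => A.θ z 0) • A.θ := by
    funext z i
    simp [div_eq_inv_mul]
  rw [e, h2.fderiv]
  funext i
  have ho := A.origin
  simp [h]
  field_simp
  ring

theorem diff_qd (ν : Fin d → Fin d → ℂ) : Differentiable ℂ (qd ν) := by
  unfold qd
  fun_prop

theorem tw_pow {D : Der} {F s : (Fin d → ℂ) → ℂ} (h : Tw D F fun z => s z * F z) (n : ℕ) :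
    Tw D (fun z => F z ^ n) fun z => n * s z * F z ^ n := by
  induction n with
  | zero =>
    refine tw.congr _ D _ _ _ _ (tw.const _ D 1) (Eventually.of_forall fun z => by simp)
      (Eventually.of_forall fun z => by simp)
  | succ n ih =>
    refine tw.congr _ D _ _ _ _ (tw.mul _ D _ _ _ _ ih h)
      (Eventually.of_forall fun z => (pow_succ _ _).symm) (Eventually.of_forall fun z => ?_)
    push_cast
    ring

theorem dP_last {α : Type} [Fintype α] (Q : MvPolynomial (α ⊕ Fin 2) ℂ) (x : α ⊕ Fin 2 → ℂ)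
    (y : ℂ) : dP Q x (Sum.elim 0 ![0, y]) = eval x (pderiv (Sum.inr 1) Q) * y := by
  simp [dP, Fintype.sum_sum_type, Fin.sum_univ_two]

/-- the abstract form: an endomorphism `a` multiplying the factor of automorphy by `n` -/
theorem core (A : VX d M) (D : Der) (s : (Fin d → ℂ) → ℂ) (hs : Differentiable ℂ s)
    (hT : ∀ i, Tw D (fun z => A.θ z i) fun z => s z * A.θ z i)
    (a : (Fin d → ℂ) → Fin d → ℂ) (ha : Differentiable ℂ a) (ha0 : a 0 = 0)
    (haT : ∀ i, Tw D (fun z => a z i) fun _ => 0) (n : ℕ)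
    (hl : ∀ l ∈ A.Λ, ∀ z, A.θ (a (z + l)) = cexp (A.H l ⬝ᵥ z + A.β l) ^ n • A.θ (a z))
    (z : Fin d → ℂ) : s (a z) - n * s z = s 0 - n * s 0 := by
  obtain ⟨R, hR⟩ := LT.exists_fund A.toAbVar
  have hθ := A.holo
  have hθa : Differentiable ℂ fun z => A.θ (a z) := hθ.comp ha
  let Y : (Fin d → ℂ) → Fin (M + 1) ⊕ Fin (M + 1) → ℂ := fun z =>
    Sum.elim (fun b => A.θ z b ^ n) (A.θ (a z))
  have hY : Differentiable ℂ Y :=
    diff_elim (differentiable_pi.2 fun b => (differentiable_pi.1 hθ b).pow n) hθa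
  have hYl : ∀ l ∈ A.Λ, ∀ z, Y (z + l) = cexp (A.H l ⬝ᵥ z + A.β l) ^ n • Y z := by
    intro l h z
    funext b
    rcases b with b | b
    · simp only [Y, Sum.elim_inl, A.law l h z, Pi.smul_apply, smul_eq_mul, mul_pow]
    · simp only [Y, Sum.elim_inr, hl l h z, Pi.smul_apply]
  have hc : Charts (ι := Unit) (fun _ => (Set.univ : Set (Fin d → ℂ)))
      (fun _ => Metric.closedBall 0 R) (fun _ => A.θ) (fun _ => Y) :=
    { op := fun _ => isOpen_univ
      cpt := fun _ => isCompact_closedBall _ _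
      sub := fun _ => Set.subset_univ _
      holX := fun _ => hθ.differentiableOn
      holY := fun _ => hY.differentiableOn
      neX := fun _ p _ => A.ne_zero p
      neY := fun _ p _ h => A.ne_zero (a p) (funext fun b => congrFun h (.inr b))
      mtch := fun _ u _ => by
        obtain ⟨l, h1, h2⟩ := hR u
        refine subset_closure ⟨Set.mem_univ _, (), u - l, mem_closedBall_zero_iff.2 h2,
          cexp (A.H l ⬝ᵥ (u - l) + A.β l), cexp (A.H l ⬝ᵥ (u - l) + A.β l) ^ n, ?_, ?_⟩
        · rw [← A.law l h1, sub_add_cancel]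
        · rw [← hYl l h1, sub_add_cancel] }
  obtain ⟨Q, k, k', hQ, hz, u0, -, hu0⟩ := GB.rel osg pol (GB.dep osg) _ _ _ _ _ _ _ _ hc ()
    ![.inl 0, .inr 0] isPreconnected_univ ⟨0, Set.mem_univ _, A.ne_zero 0, imm A⟩
    ⟨0, Set.mem_univ _, pow_ne_zero n A.origin⟩
  let y : (Fin d → ℂ) → Fin 2 → ℂ := fun z b => Y z (![.inl 0, .inr 0] b)
  have hy : Differentiable ℂ y := differentiable_pi.2 fun b => differentiable_pi.1 hY _
  have hyl : ∀ l ∈ A.Λ, ∀ z, y (z + l) = cexp (A.H l ⬝ᵥ z + A.β l) ^ n • y z := by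
    intro l h z
    funext b
    simp only [y, hYl l h z, Pi.smul_apply]
  let F : (Fin d → ℂ) → Fin (M + 1) ⊕ Fin 2 → ℂ := fun z => Sum.elim (A.θ z) (y z)
  have hF : Differentiable ℂ F := diff_elim hθ hy
  have hz' : ∀ z, eval (F z) Q = 0 := fun z => hz z (Set.mem_univ _)
  have hu0' : eval (F u0) (pderiv (Sum.inr 1) Q) ≠ 0 := hu0
  let ρ : (Fin d → ℂ) → ℂ := fun z => s (a z) - n * s z
  have hρ : Differentiable ℂ ρ := (hs.comp ha).sub (hs.const_mul _)
  have hy1 : Differentiable ℂ fun z => y z 1 := differentiable_pi.1 hy 1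
  have hP : Differentiable ℂ fun z => eval (F z) (pderiv (Sum.inr 1) Q) := diff_ev pol _ hF
  have hE : Differentiable ℂ fun z => eval (F z) (cD D Q) +
      ρ z * (eval (F z) (pderiv (Sum.inr 1) Q) * y z 1) :=
    (diff_ev pol _ hF).add (hρ.mul (hP.mul hy1))
  have hA := osg _ _ _ Set.univ isOpen_univ hE.differentiableOn
  have hp := tw.poly _ _ D F (fun z => Sum.elim (s z • A.θ z) ((n * s z) • y z) +
      ρ z • Sum.elim (0 : Fin (M + 1) → ℂ) ![0, y z 1]) Q (by
    rintro (i | b)
    · refine tw.congr _ D _ _ _ _ (hT i) (Eventually.of_forall fun z => rfl)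
        (Eventually.of_forall fun z => ?_)
      simp
    · fin_cases b
      · refine tw.congr _ D _ _ _ _ (tw_pow (hT 0) n) (Eventually.of_forall fun z => rfl)
          (Eventually.of_forall fun z => ?_)
        simp [y, Y]
      · have h1 := tw.comp _ _ D _ _ a (fun _ _ => 0) (hT 0)
          (osg _ _ _ Set.univ isOpen_univ (differentiable_pi.1 hθ 0).differentiableOn 0
            (Set.mem_univ _)) ha0 haT
        refine tw.congr _ D _ _ _ _ h1 (Eventually.of_forall fun z => rfl)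
          (Eventually.of_forall fun z => ?_)
        have e : (fun _ => 0 : Fin d → ℂ) = 0 := rfl
        simp only [e, map_zero]
        simp [y, Y, ρ]
        ring)
  have hp' : Tw D (fun _ : Fin d → ℂ => (0 : ℂ)) fun z => eval (F z) (cD D Q) +
      ρ z * (eval (F z) (pderiv (Sum.inr 1) Q) * y z 1) := by
    refine tw.congr _ D _ _ _ _ hp (Eventually.of_forall hz') (Eventually.of_forall fun z => ?_)
    have e := pol.euler _ _ Q k k' hQ (s z) (n * s z) (A.θ z) (y z)
    have e0 : eval (Sum.elim (A.θ z) (y z)) Q = 0 := hz' z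
    rw [e0, mul_zero] at e
    have e' : dP Q (F z) (Sum.elim (s z • A.θ z) ((n * s z) • y z)) = 0 := e
    simp only [pol.dP_add, pol.dP_smul, e', zero_add, dP_last]
  have hu := tw.uniq _ D _ _ _ hp' (tw.const _ D 0) (hA 0 (Set.mem_univ _)) analyticAt_const
  rw [map_zero] at hu
  have hE0 : ∀ z, eval (F z) (cD D Q) +
      ρ z * (eval (F z) (pderiv (Sum.inr 1) Q) * y z 1) = 0 := fun z =>
    hA.eqOn_zero_of_preconnected_of_eventuallyEq_zero isPreconnected_univ (Set.mem_univ 0) hu
      (Set.mem_univ z)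
  have hper : ∀ l ∈ A.Λ, ∀ z, ρ (z + l) = ρ z := by
    intro l h
    have hρl : Differentiable ℂ fun z => ρ (z + l) - ρ z :=
      (hρ.comp (differentiable_id.add_const l)).sub hρ
    have key : ∀ z, eval (F z) (pderiv (Sum.inr 1) Q) * (y z 1 * (ρ (z + l) - ρ z)) = 0 := by
      intro z
      obtain ⟨e, he⟩ : ∃ e, e = cexp (A.H l ⬝ᵥ z + A.β l) := ⟨_, rfl⟩
      have he0 : e ≠ 0 := he ▸ Complex.exp_ne_zero _
      have eF : F (z + l) = Sum.elim (e • A.θ z) (e ^ n • y z) := by
        simp only [F, A.law l h z, hyl l h z, he]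
      have e1 := pol.bih_eval _ _ _ k k' (pol.bih_cD _ _ D Q k k' hQ) e (e ^ n) (A.θ z) (y z)
      have e2 := pol.bih_dP _ _ Q k k' hQ e (e ^ n) (A.θ z) 0 (y z) ![0, y z 1]
      have e3 : e ^ n • ![0, y z 1] = ![0, y (z + l) 1] := by
        rw [hyl l h z, ← he]
        simp
      rw [smul_zero, e3, ← eF, dP_last, dP_last] at e2
      rw [← eF] at e1
      have h1 := hE0 (z + l)
      have h2 := hE0 z
      rw [e1, e2] at h1
      have hne : e ^ k * (e ^ n) ^ k' ≠ 0 :=
        mul_ne_zero (pow_ne_zero _ he0) (pow_ne_zero _ (pow_ne_zero _ he0))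
      refine mul_left_cancel₀ hne ?_
      simp only [F] at h2 ⊢
      linear_combination h1 - e ^ k * (e ^ n) ^ k' * h2
    have k2 := zero_of_mul osg hP (hy1.mul hρl) key hu0'
    have h0 : y 0 1 ≠ 0 := by
      have := A.origin
      simpa [y, Y, ha0] using this
    exact fun z => sub_eq_zero.1 (zero_of_mul osg hy1 hρl k2 h0 z)
  have hb : Bornology.IsBounded (Set.range ρ) := by
    refine ((isCompact_closedBall (0 : Fin d → ℂ) R).image hρ.continuous).isBounded.subset ?_
    rintro _ ⟨u, rfl⟩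
    obtain ⟨l, h1, h2⟩ := hR u
    refine ⟨u - l, mem_closedBall_zero_iff.2 h2, ?_⟩
    rw [← hper l h1, sub_add_cancel]
  have := hρ.apply_eq_apply_of_bounded hb z 0
  simpa only [ρ, ha0] using this

end QTwAux

open QTwAux

theorem qTw : QTwS := by
  intro d M A h D ν c γ m hH hT hm hγ hΛ hβ z
  have hg : ∀ k, starRingEnd ℂ (γ k) * γ k = 1 := fun k => by
    rw [mul_comm, Complex.mul_conj, Complex.normSq_eq_norm_sq, (hγ k).1]
    simp
  have key := core A D (fun z => qd ν z + c) ((diff_qd ν).add_const c) hT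
    (fun z k => m * γ k * z k) (by fun_prop) (by funext k; simp)
    (fun i => by
      refine tw.congr _ D _ _ _ _
        (tw.mul _ D _ _ _ _ (tw.const _ D (m * γ i)) (tw.coord _ D i))
        (Eventually.of_forall fun z => rfl) (Eventually.of_forall fun z => ?_)
      simp [Derivation.leibniz, (hγ i).2]) (m ^ 2)
    (fun l hl z => by
      have e : (fun k => m * γ k * (z + l) k) =
          (fun k => m * γ k * z k) + fun k => m * γ k * l k := by
        funext k
        simp [mul_add]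
      rw [e, A.law _ (hΛ l hl), hβ l hl, ← Complex.exp_nat_mul, hH, hH]
      congr 2
      push_cast
      rw [mul_add]
      congr 1
      simp only [dotProduct, hc, Finset.mul_sum, map_mul, map_natCast]
      refine Finset.sum_congr rfl fun k _ => ?_
      linear_combination (m : ℂ) ^ 2 * h k * starRingEnd ℂ (l k) * z k * hg k) z
  have e1 : qd ν (fun k => m * γ k * z k) = (m : ℂ) ^ 2 * qd ν fun k => γ k * z k := by
    simp only [qd, Finset.mul_sum]
    refine Finset.sum_congr rfl fun k _ => Finset.sum_congr rfl fun l _ => ?_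
    ring
  have e0 : qd ν 0 = 0 := by simp [qd]
  have hm' : (m : ℂ) ^ 2 ≠ 0 := pow_ne_zero _ (Nat.cast_ne_zero.2 hm.ne')
  simp only [e1, e0] at key
  push_cast at key
  refine mul_left_cancel₀ hm' ?_
  linear_combination key

end Pool.Agent.Lib.MP_caab05_ag.WZ
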