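import Mathlib
import Pool.Agent.Lib.MP_caab05_ag.WZ.Stmt
import Pool.Agent.Lib.MP_caab05_ag.GB.Osg
import Pool.Agent.Lib.MP_caab05_ag.GB.Pol
import Pool.Agent.Lib.MP_caab05_ag.GB.Twc
import Pool.Agent.Lib.MP_caab05_ag.GB.Weak
import Pool.Agent.Lib.MP_caab05_ag.GB.Der

/-! The jets of the canonical theta functions are algebraic. -/

namespace Pool.Agent.Lib.MP_caab05_ag.WZ

open MvPolynomial Filter Topology Asymptotics Complex
open Pool.Agent.Lib.MP_caab05_ag.LT (AlgCoeff val)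
open Pool.Agent.Lib.MP_caab05_ag.ZE (Ord VX)
open Pool.Agent.Lib.MP_caab05_ag.GB (Der Emb cj IsCj IsType elt BB Tw)

namespace Var3Aux

theorem alg_of_der {x : ℂ} (h : ∀ D : Der, D x = 0) : IsAlgebraic ℚ x :=
  (GB.der ⊥ x fun D _ => h D).restrictScalars ℚ

/-- the bilinear form with matrix `ν` -/
noncomputable def bl {d : ℕ} (ν : Fin d → Fin d → ℂ) (z w : Fin d → ℂ) : ℂ :=
  ∑ k, ∑ l, ν k l * z k * w l

theorem qd_add {d : ℕ} (ν : Fin d → Fin d → ℂ) (z w : Fin d → ℂ) :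
    qd ν (z + w) = qd ν z + qd ν w + bl ν z w + bl ν w z := by
  simp only [qd, bl, ← Finset.sum_add_distrib, Pi.add_apply]
  exact Finset.sum_congr rfl fun k _ => Finset.sum_congr rfl fun l _ => by ring

theorem bl_single {d : ℕ} (ν : Fin d → Fin d → ℂ) (k l : Fin d) (a b : ℂ) :
    bl ν (Pi.single k a) (Pi.single l b) = ν k l * a * b := by
  unfold bl
  rw [Finset.sum_eq_single k, Finset.sum_eq_single l]
  · simp
  · intro j _ hj
    simp [Pi.single_eq_of_ne hj]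
  · simp
  · intro j _ hj
    simp [Pi.single_eq_of_ne hj]
  · simp

theorem mul_single {d : ℕ} (γ : Fin d → ℂ) (k : Fin d) :
    (fun j => γ j * (Pi.single k (1 : ℂ) : Fin d → ℂ) j) = Pi.single k (γ k) := by
  funext j
  by_cases hj : j = k
  · subst hj; simp
  · simp [Pi.single_eq_of_ne hj]

/-- a quadratic form invariant under a diagonal map without reciprocal eigenvalues vanishes -/
theorem qd_eq_zero {d : ℕ} (ν : Fin d → Fin d → ℂ) (γ : Fin d → ℂ)
    (h : ∀ z, qd ν (fun k => γ k * z k) = qd ν z) (hγ : ∀ k l, γ k * γ l ≠ 1)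
    (z : Fin d → ℂ) : qd ν z = 0 := by
  have h1 : ∀ k l, ν k l + ν l k = 0 := by
    intro k l
    have a1 := h (Pi.single k 1)
    have a2 := h (Pi.single l 1)
    have a3 := h (Pi.single k 1 + Pi.single l 1)
    have a4 : (fun j => γ j * (Pi.single k (1 : ℂ) + Pi.single l 1 : Fin d → ℂ) j) =
        Pi.single k (γ k) + Pi.single l (γ l) := by
      rw [← mul_single γ k, ← mul_single γ l]
      funext j
      simp only [Pi.add_apply, mul_add]
    rw [mul_single] at a1 a2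
    rw [a4, qd_add, qd_add, a1, a2, bl_single, bl_single, bl_single, bl_single] at a3
    have a5 : (ν k l + ν l k) * (γ k * γ l - 1) = 0 := by linear_combination a3
    exact (mul_eq_zero.1 a5).resolve_right (sub_ne_zero.2 (hγ k l))
  have h2 : qd ν z = ∑ k, ∑ l, ν l k * z k * z l := by
    unfold qd
    rw [Finset.sum_comm]
    exact Finset.sum_congr rfl fun k _ => Finset.sum_congr rfl fun l _ => by ring
  have h3 : qd ν z + qd ν z = 0 := by
    conv_lhs => arg 2; rw [h2]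
    unfold qd
    rw [← Finset.sum_add_distrib]
    refine Finset.sum_eq_zero fun k _ => ?_
    rw [← Finset.sum_add_distrib]
    refine Finset.sum_eq_zero fun l _ => ?_
    linear_combination z k * z l * h1 k l
  linear_combination h3 / 2

theorem pos_of_near {x : ℂ} (h : ‖x - (1 + I)‖ < 1) : 0 < x.re ∧ 0 < x.im := by
  have h1 := (abs_re_le_norm (x - (1 + I))).trans_lt h
  have h2 := (abs_im_le_norm (x - (1 + I))).trans_lt h
  simp only [sub_re, add_re, one_re, I_re, add_zero, sub_im, add_im, one_im, I_im, zero_add] at h1 h2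
  exact ⟨by linarith [(abs_lt.1 h1).1], by linarith [(abs_lt.1 h2).1]⟩

theorem ne_zero_of_pos {x : ℂ} (h : 0 < x.re ∧ 0 < x.im) : x ≠ 0 := by
  rintro rfl
  simp at h

theorem quot_mul_ne {x y : ℂ} (hx : 0 < x.re ∧ 0 < x.im) (hy : 0 < y.re ∧ 0 < y.im) :
    x / starRingEnd ℂ x * (y / starRingEnd ℂ y) ≠ 1 := by
  intro h
  have h1 : starRingEnd ℂ x ≠ 0 := (map_ne_zero _).2 (ne_zero_of_pos hx)
  have h2 : starRingEnd ℂ y ≠ 0 := (map_ne_zero _).2 (ne_zero_of_pos hy)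
  rw [div_mul_div_comm, div_eq_one_iff_eq (mul_ne_zero h1 h2), ← map_mul] at h
  have h3 := congrArg Complex.im h
  rw [conj_im, mul_im] at h3
  nlinarith [mul_pos hx.1 hy.2, mul_pos hx.2 hy.1]

/-- a multiple of a rational endomorphism preserves the lattice -/
theorem exists_mul {L : Type} [Field L] [NumberField L] {d M : ℕ} (e : Fin d → Emb L × Fin 2)
    (A : LT.AbVar d M) (ω : Fin d → ℂ) (𝔪 : Submodule ℤ (Fin 2 → L))
    (hfull : ∀ x : Fin 2 → L, ∃ n : ℤ, n ≠ 0 ∧ n • x ∈ 𝔪)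
    (hΛ : ∀ y, y ∈ A.Λ ↔ ∃ x ∈ 𝔪, y = fun k => (e k).1 (x (e k).2) * ω k) (y : Fin 2 → L) :
    ∃ m : ℕ, 0 < m ∧ ∀ l ∈ A.Λ, (fun k => m * (e k).1 (y (e k).2) * l k) ∈ A.Λ := by
  obtain ⟨ι, _, b, hb⟩ := LT.exists_basis A
  have h1 : ∀ j, b j ∈ A.Λ := fun j => hb ▸ Submodule.subset_span ⟨j, rfl⟩
  choose x _ hx using fun j => (hΛ _).1 (h1 j)
  choose n hn hn' using fun j => hfull (y * x j)
  refine ⟨(∏ j, n j).natAbs, Int.natAbs_pos.2 (Finset.prod_ne_zero_iff.2 fun j _ => hn j), ?_⟩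
  intro l hl
  rw [← hb] at hl
  induction hl using Submodule.span_induction with
  | mem l hl =>
    obtain ⟨j, rfl⟩ := hl
    obtain ⟨r, hr⟩ : n j ∣ ((∏ j, n j).natAbs : ℤ) :=
      Int.dvd_natAbs.2 (Finset.dvd_prod_of_mem _ (Finset.mem_univ j))
    refine (hΛ _).2 ⟨r • n j • (y * x j), 𝔪.smul_mem r (hn' j), funext fun k => ?_⟩
    have hr' : (((∏ j, n j).natAbs : ℕ) : ℂ) = (n j : ℂ) * (r : ℂ) := by
      rw [← Int.cast_mul, ← hr, Int.cast_natCast]
    rw [hr', hx j, Pi.smul_apply, Pi.smul_apply, Pi.mul_apply]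
    simp only [zsmul_eq_mul, map_mul, map_intCast]
    ring
  | zero =>
    simp only [Pi.zero_apply, mul_zero]
    exact A.Λ.zero_mem
  | add l l' _ _ h h' =>
    simp only [Pi.add_apply, mul_add]
    exact A.Λ.add_mem h h'
  | smul r l _ h =>
    have := A.Λ.smul_mem r h
    convert this using 1
    funext k
    simp only [Pi.smul_apply, zsmul_eq_mul]
    ring

theorem qf_mul {d : ℕ} (h : Fin d → ℝ) (γ l : Fin d → ℂ) (m : ℕ) (hγ : ∀ k, ‖γ k‖ = 1) :
    qf h (fun k => m * γ k * l k) = (m : ℝ) ^ 2 * qf h l := by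
  unfold qf
  rw [Finset.mul_sum]
  refine Finset.sum_congr rfl fun k _ => ?_
  rw [norm_mul, norm_mul, hγ, Complex.norm_natCast]
  ring

/-- a function with zero twist has jets killed by the derivation -/
theorem jets {d : ℕ} (D : Der) (F : (Fin d → ℂ) → ℂ) (hF : Differentiable ℂ F)
    (hT : Tw D F fun _ => 0) (w : Fin d → ℕ) (j : ℕ) :
    D (iteratedDeriv j (fun t : ℂ => F (t • fun k => (w k : ℂ))) 0) = 0 := by
  have tw := GB.twc GB.osg GB.pol
  have hA : AnalyticAt ℂ F 0 :=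
    GB.osg _ _ F Set.univ isOpen_univ hF.differentiableOn 0 (Set.mem_univ _)
  have hU : ∀ k, Tw D (fun u : Unit → ℂ => (u () • fun k => (w k : ℂ)) k)
      fun u => (0 : Fin d → ℂ) k := by
    intro k
    refine tw.congr _ D _ _ _ _ (tw.mul _ D _ _ _ _ (tw.coord Unit D ()) (tw.const Unit D (w k)))
      (Eventually.of_forall fun u => rfl) (Eventually.of_forall fun u => ?_)
    simp
  have h1 := tw.comp Unit (Fin d) D F _ (fun u => u () • fun k => (w k : ℂ)) (fun _ => 0) hT hA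
    (by simp) hU
  have hf : Differentiable ℂ fun t : ℂ => F (t • fun k => (w k : ℂ)) :=
    hF.comp (differentiable_id.smul_const _)
  have h2 := (tw.jet D (fun t : ℂ => F (t • fun k => (w k : ℂ))) (fun _ => 0) (hf.analyticAt 0)
    analyticAt_const).1 (tw.congr _ D _ _ _ _ h1 (Eventually.of_forall fun u => rfl)
      (Eventually.of_forall fun u => by simp)) j
  rw [← h2]
  simp

end Var3Aux

open Var3Aux in
theorem var3 (h1 : QTwS) (h2 : VarAS) : Var3S := by
  intro L _ _ c Φ d e hc hΦ he hr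
  obtain ⟨M, A, h, ω, 𝔪, hH, hβ, h0, hB, hω, hh, halg, hfull, hΛ, hDω, htw⟩ :=
    h2 L c Φ d e hc hΦ he hr
  refine ⟨M, A, h, ω, 𝔪, ⟨hH, fun l _ => by rw [hβ, ofReal_re]⟩, ⟨hB, fun w j a => ?_⟩, hω, hh,
    halg, hfull, hΛ, hDω⟩
  refine alg_of_der fun D => ?_
  obtain ⟨ν, c', hT⟩ := htw D
  choose β hβ' using fun i => GB.weak.approx L (Φ i) (fun φ hφ => (hΦ i φ).1 hφ)
    (fun _ => 1 + I) 1 one_pos
  have hpos : ∀ k, 0 < ((e k).1 (β (e k).2)).re ∧ 0 < ((e k).1 (β (e k).2)).im := fun k =>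
    pos_of_near (hβ' _ _ (show e k ∈ {p : Emb L × Fin 2 | p.1 ∈ Φ p.2} from
      hr ▸ Set.mem_range_self k))
  obtain ⟨m, hm, hmΛ⟩ := exists_mul e A.toAbVar ω 𝔪 hfull hΛ fun i => β i / c (β i)
  have hγ : ∀ k, (e k).1 (β (e k).2 / c (β (e k).2)) =
      (e k).1 (β (e k).2) / starRingEnd ℂ ((e k).1 (β (e k).2)) := fun k => by
    rw [map_div₀, hc]
  have hn : ∀ k, ‖(e k).1 (β (e k).2 / c (β (e k).2))‖ = 1 := fun k => by
    rw [hγ, norm_div, Complex.norm_conj, div_self (norm_ne_zero_iff.2 (ne_zero_of_pos (hpos k)))]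
  have hq := h1 d M A h D ν c' (fun k => (e k).1 (β (e k).2 / c (β (e k).2))) m hH hT hm
    (fun k => ⟨hn k, GB.pol.D_alg D _
      ((Algebra.IsAlgebraic.isAlgebraic (R := ℚ) _).algHom (e k).1.toRatAlgHom)⟩) hmΛ
    (fun l _ => by rw [hβ, hβ, qf_mul h _ l m hn]; push_cast; rfl)
  have hz := qd_eq_zero ν _ hq fun k l => by
    rw [hγ, hγ]
    exact quot_mul_ne (hpos k) (hpos l)
  have tw := GB.twc GB.osg GB.pol
  have hc' : c' = 0 := by
    have := tw.val _ D _ _ (hT 0)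
    simpa [hz, h0] using this
  refine jets D (fun z => A.θ z a) (differentiable_pi.1 A.holo a) ?_ w j
  refine tw.congr _ D _ _ _ _ (hT a) (Eventually.of_forall fun u => rfl)
    (Eventually.of_forall fun u => ?_)
  simp [hz, hc']

end Pool.Agent.Lib.MP_caab05_ag.WZ
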