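import Mathlib
import Pool.Agent.Lib.MP_caab05_ag.WZ.Stmt
import Pool.Agent.Lib.MP_caab05_ag.GB.All
import Pool.Agent.Lib.MP_caab05_ag.GB.Var2

/-! The canonical theta functions of a product of two abelian varieties with complex
multiplication. -/

namespace Pool.Agent.Lib.MP_caab05_ag.WZ

open MvPolynomial Filter Topology Asymptotics Complex
open Pool.Agent.Lib.MP_caab05_ag.GB

namespace VarAAux

variable {g d : ℕ}

/-! ### Quadratic forms -/

theorem qd_dot (a c : Fin d → V g) (z : Fin d → ℂ) :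
    (∑ k, z k • a k) ⬝ᵥ (∑ l, z l • c l) = qd (fun k l => a k ⬝ᵥ c l) z := by
  unfold qd
  rw [sum_dotProduct]
  refine Finset.sum_congr rfl fun k _ => ?_
  rw [dotProduct_sum]
  refine Finset.sum_congr rfl fun l _ => ?_
  rw [smul_dotProduct, dotProduct_smul, smul_eq_mul, smul_eq_mul]
  ring

theorem qd_mul (r : ℂ) (Q : Fin d → Fin d → ℂ) (z : Fin d → ℂ) :
    qd (fun k l => r * Q k l) z = r * qd Q z := by
  unfold qd
  rw [Finset.mul_sum]
  refine Finset.sum_congr rfl fun k _ => ?_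
  rw [Finset.mul_sum]
  exact Finset.sum_congr rfl fun l _ => by ring

theorem qd_add (Q R : Fin d → Fin d → ℂ) (z : Fin d → ℂ) :
    qd (fun k l => Q k l + R k l) z = qd Q z + qd R z := by
  unfold qd
  rw [← Finset.sum_add_distrib]
  refine Finset.sum_congr rfl fun k _ => ?_
  rw [← Finset.sum_add_distrib]
  exact Finset.sum_congr rfl fun l _ => by ring

theorem qd_zero (Q : Fin d → Fin d → ℂ) : qd Q 0 = 0 :=
  Finset.sum_eq_zero fun _ _ => Finset.sum_eq_zero fun _ _ => mul_zero _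

/-! ### The factor of automorphy -/

theorem per_sum' (τ : Mat g) (y : Fin d → W g) (z : Fin d → ℂ) :
    per τ (∑ k, z k • y k) = ∑ k, z k • per τ (y k) := by
  rw [← VarAux.perL_apply, map_sum]
  exact Finset.sum_congr rfl fun k _ => by rw [map_smul, VarAux.perL_apply]

theorem lft_sum' (y : Fin d → W g) (z : Fin d → ℂ) :
    lft (∑ k, z k • y k) = ∑ k, z k • lft (y k) := by
  funext i
  simp only [lft, Finset.sum_apply, Pi.smul_apply]

theorem app_symm {τ : Mat g} (hτ : ∀ i j, τ i j = τ j i) (x y : V g) :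
    app τ x ⬝ᵥ y = app τ y ⬝ᵥ x := by
  simp only [dotProduct, HomAux.app_apply, Finset.sum_mul]
  rw [Finset.sum_comm]
  exact Finset.sum_congr rfl fun i _ => Finset.sum_congr rfl fun j _ => by rw [hτ j i]; ring

theorem per_dot {τ : Mat g} (hτ : ∀ i j, τ i j = τ j i) (x y : W g) :
    per τ x ⬝ᵥ lft y = per τ y ⬝ᵥ lft x - JJ x y := by
  unfold per JJ
  rw [add_dotProduct, add_dotProduct, app_symm hτ (lft x) (lft y), dotProduct_comm (lft x) (rgt y)]
  ring

theorem ee_four (τ : Mat g) (p : Zg g) (u : V g) :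
    ee τ ((4 : ℤ) • p) u = cexp (-(8 * Real.pi * I) * (u ⬝ᵥ lft (cst p)) -
      4 * Real.pi * I * (per τ (cst p) ⬝ᵥ lft (cst p))) := by
  have e : per τ (cst ((4 : ℤ) • p)) = (4 : ℂ) • per τ (cst p) := by
    rw [← VarAux.perL_apply, ← VarAux.perL_apply, ← map_smul]
    congr 1
    funext i
    simp only [cst, Pi.smul_apply, smul_eq_mul]
    push_cast
    ring
  unfold ee
  rw [e]
  congr 1
  simp only [dotProduct, Finset.mul_sum, ← Finset.sum_sub_distrib]
  refine Finset.sum_congr rfl fun j _ => ?_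
  simp only [lft, cst, Pi.smul_apply, smul_eq_mul]
  push_cast
  ring

theorem JJ_left (y : Fin d → W g) (z : Fin d → ℂ) (P : W g) :
    JJ (∑ k, z k • y k) P = ∑ k, z k * JJ (y k) P := by
  have h := RiemAux.JJ_sum z (fun _ : Unit => (1 : ℂ)) y fun _ => P
  simpa only [Finset.univ_unique, Finset.sum_singleton, one_smul, mul_one] using h

theorem hc_dot (h : Fin d → ℝ) (l : Fin d → ℂ) : hc h l ⬝ᵥ l = 2 * (qf h l : ℂ) := by
  unfold qf hc
  rw [ofReal_sum, Finset.mul_sum]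
  refine Finset.sum_congr rfl fun k _ => ?_
  rw [mul_assoc, conj_mul']
  push_cast
  ring

/-- the quadratic form which makes the factor of automorphy canonical -/
noncomputable def QF (τ : Mat g) (y : Fin d → W g) : Fin d → Fin d → ℂ :=
  fun k l => 4 * Real.pi * I * (per τ (y k) ⬝ᵥ lft (y l))

theorem qd_QF (τ : Mat g) (y : Fin d → W g) (z : Fin d → ℂ) :
    qd (QF τ y) z =
      4 * Real.pi * I * (per τ (∑ k, z k • y k) ⬝ᵥ lft (∑ k, z k • y k)) := by
  rw [per_sum', lft_sum', qd_dot]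
  exact qd_mul _ _ z

theorem factor {τ : Mat g} (hτ : ∀ i j, τ i j = τ j i) {y : Fin d → W g}
    (hy : ∀ k l, JJ (y k) (y l) = 0) (h : Fin d → ℝ) (p : Zg g) (l z : Fin d → ℂ)
    (hl : per τ (∑ k, l k • y k) = per τ (cst p))
    (hJ : ∀ k, 8 * Real.pi * I * JJ (y k) (cst p) = hc h l k) :
    ee τ ((4 : ℤ) • p) (per τ (∑ k, z k • y k)) * cexp (qd (QF τ y) (z + l) - qd (QF τ y) z) =
      cexp (hc h l ⬝ᵥ z + qf h l) := by
  have e0 : ∑ k, (z + l) k • y k = ∑ k, z k • y k + ∑ k, l k • y k := by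
    rw [← Finset.sum_add_distrib]
    exact Finset.sum_congr rfl fun k _ => add_smul _ _ _
  have e1 : ∀ w : Fin d → ℂ, 8 * Real.pi * I * JJ (∑ k, w k • y k) (cst p) = hc h l ⬝ᵥ w := by
    intro w
    rw [JJ_left, Finset.mul_sum]
    exact Finset.sum_congr rfl fun k _ => by rw [← hJ k]; ring
  have e2 : JJ (∑ k, z k • y k) (∑ k, l k • y k) = 0 := by
    rw [RiemAux.JJ_sum]
    exact Finset.sum_eq_zero fun k _ => Finset.sum_eq_zero fun j _ => by rw [hy, mul_zero]
  have e3 := e1 z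
  have e4 := (e1 l).trans (hc_dot h l)
  rw [ee_four, ← Complex.exp_add, qd_QF, qd_QF, e0]
  congr 1
  generalize ∑ k, z k • y k = X at *
  generalize ∑ k, l k • y k = Y at *
  have a1 := per_dot hτ X (cst p)
  have a2 := per_dot hτ Y (cst p)
  have a3 := per_dot hτ X Y
  have a4 : per τ (X + Y) = per τ X + per τ Y := (VarAux.perL τ).map_add X Y
  have a5 : lft (X + Y) = lft X + lft Y := rfl
  rw [← hl] at a1 a2 ⊢
  rw [a4, a5, add_dotProduct, dotProduct_add, dotProduct_add, a1, a2, a3, e2]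
  linear_combination e3 + e4 / 2

/-! ### Twists -/

theorem tw_qd (D : Der) (Q : Fin d → Fin d → ℂ) :
    Tw D (qd Q) (qd fun k l => D (Q k l)) := by
  have h := twc'.sum _ _ D _ _ fun k => twc'.sum _ _ D _ _ fun l =>
    twc'.mul _ D _ _ _ _ (twc'.mul _ D _ _ _ _ (twc'.const (Fin d) D (Q k l))
      (twc'.coord _ D k)) (twc'.coord _ D l)
  refine twc'.congr _ D _ _ _ _ h (Eventually.of_forall fun u => rfl)
    (Eventually.of_forall fun u => ?_)
  simp only [mul_zero, add_zero]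
  rfl

theorem tw_exp (D : Der) (Q : Fin d → Fin d → ℂ) :
    Tw D (fun z => cexp (qd Q z)) fun z => qd (fun k l => D (Q k l)) z * cexp (qd Q z) := by
  have h0 : Tw D (fun u : Unit → ℂ => cexp (u ())) fun u => (fun _ : ℂ => (0 : ℂ)) (u ()) := by
    refine (twc'.jet D cexp (fun _ => 0) analyticAt_cexp analyticAt_const).2 fun j => ?_
    rw [iteratedDeriv_eq_iterate, iteratedDeriv_eq_iterate, Complex.iter_deriv_exp,
      Complex.exp_zero, D.map_one_eq_zero]
    have e : ∀ n : ℕ, deriv^[n] (fun _ : ℂ => (0 : ℂ)) = fun _ => 0 := fun n =>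
      Function.iterate_fixed (by funext x; exact deriv_const x 0) n
    rw [e]
  have hp : ∀ u : Unit → ℂ, HasFDerivAt (fun u : Unit → ℂ => u ())
      (ContinuousLinearMap.proj (R := ℂ) (φ := fun _ : Unit => ℂ) ()) u := fun u =>
    (ContinuousLinearMap.proj (R := ℂ) (φ := fun _ : Unit => ℂ) ()).hasFDerivAt
  have ha : AnalyticAt ℂ (fun u : Unit → ℂ => cexp (u ())) 0 :=
    ((ContinuousLinearMap.proj (R := ℂ) (φ := fun _ : Unit => ℂ) ()).analyticAt 0).cexp
  have h := twc'.comp _ _ D _ _ (fun z _ => qd Q z) (fun z _ => qd (fun k l => D (Q k l)) z) h0 ha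
    (funext fun _ => qd_zero Q) fun _ => tw_qd D Q
  refine twc'.congr _ D _ _ _ _ h (Eventually.of_forall fun u => rfl)
    (Eventually.of_forall fun u => ?_)
  show 0 + _ = _
  rw [(hp _).cexp.fderiv, zero_add]
  exact mul_comm _ _

theorem tw_th {D : Der} {τ M N : Mat g} {c : ℂ} (hτ : Sg τ) (hT : IsTw D τ M 0 N c)
    (p : Fin d → V g) (hp : ∀ k, (fun i => D (p k i)) = -app M (p k)) (a : Ix g) :
    Tw D (fun z : Fin d → ℂ => th τ (∑ k, z k • p k) a)
      fun z => (qd (fun k l => p k ⬝ᵥ app N (p l)) z + c) * th τ (∑ k, z k • p k) a := by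
  have hA : ∀ (K : Mat g) (z : Fin d → ℂ), app K (∑ k, z k • p k) = ∑ k, z k • app K (p k) := by
    intro K z
    have h := map_sum (Matrix.mulVecLin (Matrix.of K)) (fun k => z k • p k) Finset.univ
    simp only [map_smul] at h
    exact h
  have ha : AnalyticAt ℂ (fun u => th τ u a) 0 :=
    osg _ _ _ Set.univ isOpen_univ
      (differentiable_pi.1 (law'.holu g τ hτ).1 a).differentiableOn 0 trivial
  have h := twc'.comp _ _ D _ _ (fun z : Fin d → ℂ => ∑ k, z k • p k)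
    (fun z => -app M (∑ k, z k • p k)) (hT.2 a) ha
    (Finset.sum_eq_zero fun k _ => zero_smul _ _) fun i => by
      have h1 := twc'.sum _ _ D _ _ fun k =>
        twc'.mul _ D _ _ _ _ (twc'.coord _ D k) (twc'.const (Fin d) D (p k i))
      refine twc'.congr _ D _ _ _ _ h1 (Eventually.of_forall fun u => ?_)
        (Eventually.of_forall fun u => ?_)
      · simp only [Finset.sum_apply, Pi.smul_apply, smul_eq_mul]
      · simp only [hA, Pi.neg_apply, Finset.sum_apply, Pi.smul_apply, smul_eq_mul,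
          ← Finset.sum_neg_distrib]
        refine Finset.sum_congr rfl fun k _ => ?_
        rw [congrFun (hp k) i, Pi.neg_apply]
        ring
  refine twc'.congr _ D _ _ _ _ h (Eventually.of_forall fun u => rfl)
    (Eventually.of_forall fun u => ?_)
  have e1 : ∀ x w : V g, du τ x (-w) = -du τ x w := fun x w => map_neg _ w
  have e2 : ∀ x : V g, dK τ 0 x = 0 := fun x => map_zero _
  beta_reduce
  rw [HomAux.fderiv_comp_apply law' hτ, e1, e2, ← qd_dot, ← hA, Pi.neg_apply, Pi.zero_apply]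
  ring

theorem tw_all {D : Der} {τ M N : Mat g} {c t : ℂ} (hτ : Sg τ) (hT : IsTw D τ M 0 N c)
    (p : Fin d → V g) (hp : ∀ k, (fun i => D (p k i)) = -app M (p k)) (ht : t ≠ 0)
    (Q : Fin d → Fin d → ℂ) : ∃ (ν : Fin d → Fin d → ℂ) (c' : ℂ), ∀ a,
    Tw D (fun z : Fin d → ℂ => cexp (qd Q z) / t * th τ (∑ k, z k • p k) a)
      fun z => (qd ν z + c') * (cexp (qd Q z) / t * th τ (∑ k, z k • p k) a) := by
  refine ⟨fun k l => D (Q k l) + p k ⬝ᵥ app N (p l), c + t * D t⁻¹, fun a => ?_⟩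
  have h := twc'.mul _ D _ _ _ _ (twc'.mul _ D _ _ _ _ (tw_exp D Q) (twc'.const (Fin d) D t⁻¹))
    (tw_th hτ hT p hp a)
  refine twc'.congr _ D _ _ _ _ h (Eventually.of_forall fun u => ?_)
    (Eventually.of_forall fun u => ?_)
  · simp only [div_eq_mul_inv]
  · beta_reduce
    rw [qd_add]
    field_simp
    ring

/-! ### The model -/

open VarAux RiemAux

variable {k : ℕ} {L : Type} [Field L] [NumberField L] {ξ : Fin k → L}
  {v : Emb L → Fin k → W g} {Φ : Fin k → Set (Emb L)}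

/-- the period matrix of the product -/
theorem model {c : L ≃ₐ[ℚ] L} (hc : IsCj c) (hΦ : ∀ i, IsType (Φ i)) :
    ∃ (g : ℕ) (ξ : Fin k → L) (v : Emb L → Fin k → W g) (τ : Mat g),
      (∀ (φ : Emb L) i, (φ (ξ i)).re = 0 ∧ (φ (ξ i)).im ≠ 0) ∧
      IsSym ξ v ∧ Sg τ ∧ ∀ X, per τ (vec v X) = 0 ↔ ∀ φ i, φ ∈ Φ i → X φ i = 0 := by
  choose ξ a1 a2 a3 using fun i => weak.xi L c (Φ i) hc (hΦ i)
  obtain ⟨g, v, hs⟩ := sym' L c k ξ hc a1 a2
  have hne := fun (φ : Emb L) i => im_ne hc (a1 i) (a2 i) φ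
  have hpos : ∀ (φ : Emb L) i, φ ∉ Φ i → 0 < (φ (ξ i)).im := fun φ i h =>
    lt_of_le_of_ne (not_lt.1 (mt (a3 i φ).2 h)) (hne φ i).symm
  obtain ⟨τ, -, h4⟩ := gen hs riem (κ := Unit) (card_Io hs hne) Set.univ
    (fun _ => ex ξ) (fun _ _ _ => differentiableOn_const _)
    (fun _ X => ∀ φ i, φ ∈ Φ i → X φ i = 0)
    (fun _ X => ⟨fun h => ⟨fun a => X a.1.1 a.1.2, by
        ext φ i
        by_cases hφ : φ ∈ Φ i
        · rw [h φ i hφ, ex_neg _ ((a3 i φ).1 hφ).le]
        · rw [ex_pos _ (hpos φ i hφ)]⟩, by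
      rintro ⟨t, rfl⟩ φ i hφ
      exact ex_neg _ ((a3 i φ).1 hφ).le⟩)
    (fun _ t h => by
      ext a
      exact (ex_pos t a.2).symm.trans (congrFun (congrFun h _) _))
    (fun _ X Y hX hY φ => Finset.sum_eq_zero fun i _ => by
      by_cases hφ : φ ∈ Φ i
      · rw [hX φ i hφ, zero_mul, zero_mul]
      · rw [hY (cj φ) i ((a3 i _).2 (by rw [cj_im]; linarith [hpos φ i hφ])), mul_zero, zero_mul])
    (fun _ _ X hX φ h => by
      obtain ⟨i, hi⟩ := Function.ne_iff.1 h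
      refine Finset.sum_pos' (fun j _ => ?_) ⟨i, Finset.mem_univ _,
        mul_pos (pow_pos (norm_pos_iff.2 hi) 2) (hpos φ i fun hφ => hi (hX φ i hφ))⟩
      by_cases hφ : φ ∈ Φ j
      · rw [hX φ j hφ, norm_zero, zero_pow two_ne_zero, zero_mul]
      · exact mul_nonneg (sq_nonneg _) (hpos φ j hφ).le)
  exact ⟨g, ξ, v, τ 0, fun φ i => ⟨re_zero hc (a1 i) φ, hne φ i⟩, hs, (h4 0 trivial).1,
    (h4 0 trivial).2⟩

theorem JJ_smul (r : ℂ) (x y : W g) : JJ (r • x) y = r * JJ x y := by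
  have h := JJ_left (fun _ : Fin 1 => x) (fun _ => r) y
  simpa only [Finset.univ_unique, Finset.sum_singleton] using h

theorem JJ_smul₂ (r s : ℂ) (x y : W g) : JJ (r • x) (s • y) = r * s * JJ x y := by
  have h := JJ_sum (fun _ : Unit => r) (fun _ : Unit => s) (fun _ => x) fun _ => y
  simpa only [Finset.univ_unique, Finset.sum_singleton] using h

theorem JJ_basis (hs : IsSym ξ v) (φ : Emb L) (i : Fin k) (Y : Emb L → Fin k → ℂ) :
    JJ (v φ i) (vec v Y) = Y (cj φ) i * φ (ξ i) := by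
  classical
  have h := JJ_sum (fun _ : Unit => (1 : ℂ)) (fun p : Emb L × Fin k => Y p.1 p.2)
    (fun _ => v φ i) fun p => v p.1 p.2
  simp only [Finset.univ_unique, Finset.sum_singleton, one_smul, one_mul] at h
  rw [vec_eq, h, Finset.sum_eq_single (cj φ, i)]
  · rw [hs.symp, if_pos ⟨rfl, rfl⟩]
  · rintro ⟨ψ, j⟩ _ hne
    rw [hs.symp, if_neg, mul_zero]
    rintro ⟨rfl, rfl⟩
    exact hne rfl
  · exact fun h => absurd (Finset.mem_univ _) h

theorem herm {a ω : ℂ} (ha : a.re = 0) (hω : ω ≠ 0) :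
    ((-8 * Real.pi * a.im / ‖ω‖ ^ 2 : ℝ) : ℂ) * starRingEnd ℂ ω = 8 * Real.pi * I * (ω⁻¹ * a) := by
  have e1 : a = a.im * I := by
    conv_lhs => rw [← re_add_im a, ha, ofReal_zero, zero_add]
  have e2 : ((‖ω‖ : ℂ)) ^ 2 = starRingEnd ℂ ω * ω := (conj_mul' ω).symm
  have e3 : starRingEnd ℂ ω ≠ 0 := (map_ne_zero _).2 hω
  generalize a.im = t at e1
  subst e1
  push_cast
  rw [e2]
  field_simp
  linear_combination (-(t : ℂ)) * I_sq

end VarAAux

open VarAux VarAAux in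
theorem varA (h : VarBS) : VarAS := by
  intro L _ _ c Φ d e hc hΦ he hr
  obtain ⟨g, ξ, v, τ, hξ, hs, hτ, hk⟩ := model hc hΦ
  have hst := Var2Aux.still pol twM' xd' ell' hc hΦ hs hτ hk
  obtain ⟨a₀, h0⟩ := Function.ne_iff.1 (geo'.nz g τ hτ 0)
  have h0' : th τ 0 a₀ ≠ 0 := h0
  have ht : th τ 0 a₀ ^ 2 ≠ 0 := pow_ne_zero 2 h0'
  have hp : ∀ k, ∃ a, om τ (per τ (v (e k).1 (e k).2)) (a, a₀) ≠ 0 := by
    intro k
    by_contra hn
    have h := xhol'.neom' g τ _ a₀ hτ h0' fun a => not_not.1 fun ha => hn ⟨a, ha⟩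
    have h2 := Var2Aux.comb_inj hk he hr (Pi.single k 1) (by
      rw [Finset.sum_eq_single k (fun j _ hj => by rw [Pi.single_eq_of_ne hj, zero_smul])
        (fun h => absurd (Finset.mem_univ k) h), h, smul_zero])
    have h3 := congrFun h2 k
    rw [Pi.single_eq_same] at h3
    exact one_ne_zero h3
  choose a ha using hp
  have hD : ∀ (D : Der) (k : Fin d) (s : Ix g × Ix g),
      D (om τ (per τ (v (e k).1 (e k).2)) s / th τ 0 a₀ ^ 2) =
        ell D (Φ (e k).2) (e k).1 * (om τ (per τ (v (e k).1 (e k).2)) s / th τ 0 a₀ ^ 2) := by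
    intro D k s
    obtain ⟨M, N, c', hT, hz, hl⟩ := hst D
    have e1 : (app M (per τ (v (e k).1 (e k).2)) + fun j => D (per τ (v (e k).1 (e k).2) j)) =
        ell D (Φ (e k).2) (e k).1 • per τ (v (e k).1 (e k).2) := by
      rw [hl, funext (hz (e k).1 (e k).2)]
      exact add_zero _
    have e2 := xd'.dom g D τ M N c' hτ hT (per τ (v (e k).1 (e k).2)) s
    rw [e1, xhol'.om_smul, Pi.smul_apply, smul_eq_mul, ← add_mul] at e2
    rw [der_div D ht e2 (der_sq D (xd'.nul g D τ M N c' hτ hT a₀)), add_sub_cancel_right]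
  have hω : ∀ k, om τ (per τ (v (e k).1 (e k).2)) (a k, a₀) / th τ 0 a₀ ^ 2 ≠ 0 :=
    fun k => div_ne_zero (ha k) ht
  generalize hωe : (fun k => om τ (per τ (v (e k).1 (e k).2)) (a k, a₀) / th τ 0 a₀ ^ 2) = ω
  have hωk : ∀ k, om τ (per τ (v (e k).1 (e k).2)) (a k, a₀) / th τ 0 a₀ ^ 2 = ω k :=
    congrFun hωe
  have hω' : ∀ k, ω k ≠ 0 := fun k => hωk k ▸ hω k
  have hDω : ∀ (D : Der) (k : Fin d), D (ω k) = ell D (Φ (e k).2) (e k).1 * ω k :=
    fun D k => hωk k ▸ hD D k (a k, a₀)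
  have hb := Var2Aux.crd_bij hs hk he hr hω'
  obtain ⟨S, hS, hz⟩ := ideal' g τ hτ fun D => by
    obtain ⟨M, N, c', hT, -⟩ := hst D
    exact ⟨M, N, c', hT⟩
  have hlat : ∀ (p : Zg g) (x : Fin 2 → L), cst p = (vec v fun φ i => φ (x i)) →
      crd (fun j => per τ (v (e j).1 (e j).2)) ω (fun k => (e k).1 (x (e k).2) * ω k) =
        per τ (cst p) := fun p x hx => by
    rw [hx, Var2Aux.per_sum hk he hr, crd_mul _ hω' fun k => (e k).1 (x (e k).2)]
  have hb1 : ∀ z, crd (fun j => per τ (v (e j).1 (e j).2)) ω z =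
      ∑ k, z k • (ω k)⁻¹ • per τ (v (e k).1 (e k).2) := fun z => by
    rw [crd_apply]
    exact Finset.sum_congr rfl fun k _ => (smul_smul _ _ _).symm
  have hb2 : ∀ z, crd (fun j => per τ (v (e j).1 (e j).2)) ω z =
      per τ (∑ k, z k • (ω k)⁻¹ • v (e k).1 (e k).2) := fun z => by
    rw [hb1, per_sum']
    exact Finset.sum_congr rfl fun k _ => congrArg _ ((perL τ).map_smul _ _).symm
  have hh := fun k => herm (hξ (e k).1 (e k).2).1 (hω' k)
  have hh0 : ∀ k, -8 * Real.pi * ((e k).1 (ξ (e k).2)).im / ‖ω k‖ ^ 2 ≠ 0 := fun k =>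
    div_ne_zero (mul_ne_zero (mul_ne_zero (by norm_num) Real.pi_ne_zero) (hξ _ _).2)
      (pow_ne_zero 2 (norm_ne_zero_iff.2 (hω' k)))
  generalize hhe : (fun k => -8 * Real.pi * ((e k).1 (ξ (e k).2)).im / ‖ω k‖ ^ 2) = hm
  have hhk : ∀ k, -8 * Real.pi * ((e k).1 (ξ (e k).2)).im / ‖ω k‖ ^ 2 = hm k := congrFun hhe
  simp only [hhk] at hh hh0
  obtain ⟨M, σ, A, hσ, hA, hθ, hH, hβ, hB⟩ := h g d τ _ a₀
    (QF τ fun k => (ω k)⁻¹ • v (e k).1 (e k).2) hm S hτ hb h0'
    (fun a' => alg_of_der der fun D => by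
      obtain ⟨M, N, c', hT, -⟩ := hst D
      rw [der_div D h0' (xd'.nul g D τ M N c' hτ hT a') (xd'.nul g D τ M N c' hτ hT a₀), sub_self,
        zero_mul])
    (fun a' j => alg_of_der der fun D => by
      rw [crd_single, xhol'.om_smul, Pi.smul_apply, smul_eq_mul, mul_div_assoc, ← div_eq_inv_mul,
        der_div D (hω' j) (hD D j (a', a₀)) (hDω D j), sub_self, zero_mul])
    hS hz
    (fun p l z hl => by
      obtain ⟨x, hx⟩ := hs.surj (cst p) fun j => ⟨p j, (Rat.cast_intCast (p j)).symm⟩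
      have e1 : l = fun k => (e k).1 (x (e k).2) * ω k := hb.1 (hl.trans (hlat p x hx).symm)
      rw [hb2] at hl ⊢
      refine factor hτ.1 (fun k j => ?_) hm p l z hl fun k => ?_
      · rw [JJ_smul₂, hs.symp, if_neg, mul_zero]
        rintro ⟨b1, b2⟩
        have b3 := Var2Aux.mem_of hr j
        rw [b1, ← b2] at b3
        exact (hΦ _ _).1 (Var2Aux.mem_of hr k) b3
      · rw [JJ_smul, hx, JJ_basis hs, e1]
        show _ = hm k * starRingEnd ℂ ((e k).1 (x (e k).2) * ω k)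
        have e2 : cj (e k).1 (x (e k).2) = starRingEnd ℂ ((e k).1 (x (e k).2)) := rfl
        rw [map_mul, e2]
        linear_combination (-starRingEnd ℂ ((e k).1 (x (e k).2))) * hh k)
  refine ⟨M, A, hm, ω, Var2Aux.latL v, hH, hβ, ?_, hB, hω', hh0, fun k => ?_, fun x => ?_,
    fun y => ?_, fun D k => ?_, fun D => ?_⟩
  · rw [hθ, hσ, map_zero, qd_zero, Complex.exp_zero, one_div, inv_mul_cancel₀ h0']
  · have e1 : ω k * WZ.hc hm ω k / Real.pi = 8 * I * (e k).1 (ξ (e k).2) := by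
      have e2 : (Real.pi : ℂ) ≠ 0 := ofReal_ne_zero.2 Real.pi_ne_zero
      have e3 := hω' k
      show ω k * (hm k * starRingEnd ℂ (ω k)) / Real.pi = _
      rw [hh k]
      field_simp
    have e4 : IsAlgebraic ℚ I := IsAlgebraic.of_pow two_pos (by
      rw [I_sq]
      exact isAlgebraic_one.neg)
    rw [e1]
    exact ((isAlgebraic_natCast 8).mul e4).mul
      ((Algebra.IsAlgebraic.isAlgebraic _).algHom (e k).1.toRatAlgHom)
  · obtain ⟨n, p, hn, hp⟩ := exists_den (hs.rat x)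
    exact ⟨n, hn, p, hp.symm.trans (map_zsmul (Var2Aux.ratL v) n x).symm⟩
  · rw [hA]
    constructor
    · rintro ⟨p, hp⟩
      obtain ⟨x, hx⟩ := hs.surj (cst p) fun j => ⟨p j, (Rat.cast_intCast (p j)).symm⟩
      exact ⟨x, ⟨p, hx⟩, hb.1 (hp.trans (hlat p x hx).symm)⟩
    · rintro ⟨x, ⟨p, hp⟩, rfl⟩
      exact ⟨p, hlat p x hp⟩
  · rw [hDω, elt, if_pos (Var2Aux.mem_of hr k)]
  · obtain ⟨M', N, c', hT, hz', hl⟩ := hst D
    obtain ⟨ν, c'', hν⟩ := tw_all hτ hT (fun k => (ω k)⁻¹ • per τ (v (e k).1 (e k).2))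
      (fun k => by
        rw [HomAux.app_smul, hl]
        funext i
        have e3 := hω' k
        simp only [Pi.smul_apply, Pi.neg_apply, smul_eq_mul]
        rw [D.leibniz, hz', D.leibniz_inv, hDω]
        simp only [smul_eq_mul]
        field_simp
        ring) h0' (QF τ fun k => (ω k)⁻¹ • v (e k).1 (e k).2)
    refine ⟨ν, c'', fun a => ?_⟩
    simp only [hθ, hb1]
    exact hν (σ a)

end Pool.Agent.Lib.MP_caab05_ag.WZ
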