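import Mathlib
import Pool.Agent.Lib.MP_caab05_ag.WZ.Stmt
import Pool.Agent.Lib.MP_caab05_ag.GB.All
import Pool.Agent.Lib.MP_caab05_ag.GB.Var

/-! The theta functions of level four multiplied by the exponential of a quadratic form. -/

namespace Pool.Agent.Lib.MP_caab05_ag.WZ

open MvPolynomial Filter Topology Asymptotics Complex
open Pool.Agent.Lib.MP_caab05_ag.LT (AlgCoeff val)
open Pool.Agent.Lib.MP_caab05_ag.ZE (Ord VX)

namespace VarBAux

open GB GB.VarAux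

variable {g d M : ℕ}

theorem qd_par (Q : Fin d → Fin d → ℂ) (u v : Fin d → ℂ) :
    qd Q (u + v) + qd Q (u - v) = 2 * qd Q u + 2 * qd Q v := by
  unfold qd
  simp only [Finset.mul_sum, ← Finset.sum_add_distrib]
  refine Finset.sum_congr rfl fun k _ => Finset.sum_congr rfl fun l _ => ?_
  simp only [Pi.add_apply, Pi.sub_apply]
  ring

theorem qd_diff (Q : Fin d → Fin d → ℂ) : Differentiable ℂ (qd Q) := by
  unfold qd
  fun_prop

/-- the scalar factor -/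
noncomputable def sf (Q : Fin d → Fin d → ℂ) (t : ℂ) (z : Fin d → ℂ) : ℂ := cexp (qd Q z) / t

theorem sf_ne (Q : Fin d → Fin d → ℂ) {t : ℂ} (ht : t ≠ 0) (z : Fin d → ℂ) : sf Q t z ≠ 0 :=
  div_ne_zero (Complex.exp_ne_zero _) ht

theorem sf_diff (Q : Fin d → Fin d → ℂ) (t : ℂ) : Differentiable ℂ (sf Q t) := by
  have e : sf Q t = fun z => cexp (qd Q z) * t⁻¹ := funext fun z => div_eq_mul_inv _ _
  rw [e]
  exact (qd_diff Q).cexp.mul_const _

theorem sf_par (Q : Fin d → Fin d → ℂ) {t : ℂ} (ht : t ≠ 0) (u v : Fin d → ℂ) :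
    sf Q t (u + v) * sf Q t (u - v) = t ^ 2 * (sf Q t u ^ 2 * sf Q t v ^ 2) := by
  have h : cexp (qd Q (u + v)) * cexp (qd Q (u - v)) =
      cexp (qd Q u) ^ 2 * cexp (qd Q v) ^ 2 := by
    rw [← Complex.exp_add, qd_par, Complex.exp_add, two_mul, two_mul, Complex.exp_add,
      Complex.exp_add, pow_two, pow_two]
  unfold sf
  rw [div_mul_div_comm, h]
  field_simp

theorem sf_add (Q : Fin d → Fin d → ℂ) (t : ℂ) (z l : Fin d → ℂ) :
    sf Q t (z + l) = cexp (qd Q (z + l) - qd Q z) * sf Q t z := by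
  unfold sf
  rw [← mul_div_assoc, ← Complex.exp_add, sub_add_cancel]

/-- the antilinear map as a real linear map -/
noncomputable def hcL (h : Fin d → ℝ) : (Fin d → ℂ) →ₗ[ℝ] (Fin d → ℂ) where
  toFun := hc h
  map_add' x y := by
    funext k
    simp only [hc, Pi.add_apply, map_add, mul_add]
  map_smul' c x := by
    funext k
    simp only [hc, Pi.smul_apply, RingHom.id_apply, Complex.real_smul, map_mul, Complex.conj_ofReal]
    ring

/-- the pairing with a vector as a linear map -/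
noncomputable def dotL (x : Fin d → ℂ) : (Fin d → ℂ) →ₗ[ℂ] ℂ where
  toFun z := x ⬝ᵥ z
  map_add' z w := dotProduct_add x z w
  map_smul' c z := dotProduct_smul c x z

/-- the rescaled theta functions -/
noncomputable def tt (τ : Mat g) (b : V d →L[ℂ] V g) (σ : Fin (M + 1) ≃ Ix g)
    (Q : Fin d → Fin d → ℂ) (t : ℂ) (z : V d) : Fin (M + 1) → ℂ :=
  sf Q t z • fun i => th τ (b z) (σ i)

/-- the rescaled addition formula -/
noncomputable def bb (σ : Fin (M + 1) ≃ Ix g) (t : ℂ)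
    (B : Ix g → Ix g → MvPolynomial (Ix g ⊕ Ix g) ℂ) (a a' : Fin (M + 1)) :
    MvPolynomial (Fin (M + 1) ⊕ Fin (M + 1)) ℂ :=
  rename (Sum.map σ.symm σ.symm) (C (t ^ 2) * B (σ a) (σ a'))

theorem bb_eval (σ : Fin (M + 1) ≃ Ix g) (t : ℂ)
    (B : Ix g → Ix g → MvPolynomial (Ix g ⊕ Ix g) ℂ) (a a' : Fin (M + 1))
    (x y : Fin (M + 1) → ℂ) : eval (Sum.elim x y) (bb σ t B a a') =
      t ^ 2 * eval (Sum.elim (x ∘ σ.symm) (y ∘ σ.symm)) (B (σ a) (σ a')) := by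
  have e : Sum.elim x y ∘ Sum.map σ.symm σ.symm = Sum.elim (x ∘ σ.symm) (y ∘ σ.symm) := by
    funext s
    cases s <;> rfl
  unfold bb
  rw [eval_rename, e, map_mul, eval_C]

theorem bb_scal {τ : Mat g} {B : Ix g → Ix g → MvPolynomial (Ix g ⊕ Ix g) ℂ} (hB : AddF τ B)
    (σ : Fin (M + 1) ≃ Ix g) (t : ℂ) (a a' : Fin (M + 1)) (r s : ℂ) (x y : Fin (M + 1) → ℂ) :
    eval (Sum.elim (r • x) (s • y)) (bb σ t B a a') =
      r ^ 2 * s ^ 2 * eval (Sum.elim x y) (bb σ t B a a') := by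
  have e1 : (r • x) ∘ σ.symm = r • (x ∘ σ.symm) := rfl
  have e2 : (s • y) ∘ σ.symm = s • (y ∘ σ.symm) := rfl
  rw [bb_eval, bb_eval, e1, e2, pol.bih_eval _ _ _ 2 2 (hB.bih _ _)]
  ring

theorem bb_alg {τ : Mat g} {B : Ix g → Ix g → MvPolynomial (Ix g ⊕ Ix g) ℂ} (hB : AddF τ B)
    (σ : Fin (M + 1) ≃ Ix g) {t : ℂ} (ht : t ≠ 0) (halg : ∀ a, IsAlgebraic ℚ (th τ 0 a / t))
    (a a' : Fin (M + 1)) : AlgCoeff (bb σ t B a a') := by
  refine alg_rename _ (σ.symm.injective.sumMap σ.symm.injective) fun m => ?_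
  rw [coeff_C_mul, mul_comm]
  exact hB.alg t ht halg _ _ m

theorem bb_wh {τ : Mat g} {B : Ix g → Ix g → MvPolynomial (Ix g ⊕ Ix g) ℂ} (hB : AddF τ B)
    (σ : Fin (M + 1) ≃ Ix g) (t : ℂ) (a a' : Fin (M + 1)) :
    (bb σ t B a a').IsWeightedHomogeneous (Sum.elim (fun _ => (1, 0)) (fun _ => (0, 1)))
      ((2, 2) : ℕ × ℕ) := by
  refine wh_rename _ _ ?_
  have e : (Sum.elim (fun _ => (1, 0)) (fun _ => (0, 1)) :
      Fin (M + 1) ⊕ Fin (M + 1) → ℕ × ℕ) ∘ Sum.map σ.symm σ.symm =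
      (Sum.elim (fun _ => (1, 0)) (fun _ => (0, 1)) : Ix g ⊕ Ix g → ℕ × ℕ) := by
    funext s
    cases s <;> rfl
  rw [e]
  intro m hm
  rw [coeff_C_mul] at hm
  exact wh_pair (hB.bih (σ a) (σ a')) (right_ne_zero_of_mul hm)

theorem comp_symm (σ : Fin (M + 1) ≃ Ix g) (y : Ix g → ℂ) :
    (fun i => y (σ i)) ∘ σ.symm = y :=
  funext fun a => congrArg y (σ.apply_symm_apply a)

theorem tt_add2 {τ : Mat g} {B : Ix g → Ix g → MvPolynomial (Ix g ⊕ Ix g) ℂ} (hB : AddF τ B)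
    (b : V d →L[ℂ] V g) (σ : Fin (M + 1) ≃ Ix g) (Q : Fin d → Fin d → ℂ) {t : ℂ} (ht : t ≠ 0)
    (u v : V d) (a a' : Fin (M + 1)) : tt τ b σ Q t (u + v) a * tt τ b σ Q t (u - v) a' =
      eval (Sum.elim (tt τ b σ Q t u) (tt τ b σ Q t v)) (bb σ t B a a') := by
  unfold tt
  rw [bb_scal hB, bb_eval, comp_symm, comp_symm, ← hB.add, map_add, map_sub]
  simp only [Pi.smul_apply, smul_eq_mul]
  rw [mul_mul_mul_comm, sf_par Q ht]
  ring

theorem tt_ne {τ : Mat g} (hnz : ∀ u, th τ u ≠ 0) (b : V d →L[ℂ] V g) (σ : Fin (M + 1) ≃ Ix g)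
    (Q : Fin d → Fin d → ℂ) {t : ℂ} (ht : t ≠ 0) (z : V d) : tt τ b σ Q t z ≠ 0 :=
  smul_ne_zero (sf_ne Q ht z) (comp_ne σ (hnz _))

theorem tt_div (τ : Mat g) (b : V d →L[ℂ] V g) (σ : Fin (M + 1) ≃ Ix g)
    (Q : Fin d → Fin d → ℂ) {t : ℂ} (ht : t ≠ 0) (z : V d) (i j : Fin (M + 1)) :
    tt τ b σ Q t z i / tt τ b σ Q t z j = th τ (b z) (σ i) / th τ (b z) (σ j) :=
  mul_div_mul_left _ _ (sf_ne Q ht z)

theorem tt_diff {τ : Mat g} (hd : Differentiable ℂ (th τ)) (b : V d →L[ℂ] V g)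
    (σ : Fin (M + 1) ≃ Ix g) (Q : Fin d → Fin d → ℂ) (t : ℂ) :
    Differentiable ℂ (tt τ b σ Q t) :=
  differentiable_pi.2 fun i =>
    (sf_diff Q t).mul (differentiable_pi.1 (hd.comp b.differentiable) (σ i))

theorem tt_add {τ : Mat g} (hnz : ∀ u, th τ u ≠ 0)
    {B : Ix g → Ix g → MvPolynomial (Ix g ⊕ Ix g) ℂ} (hB : AddF τ B) (b : V d →L[ℂ] V g)
    (σ : Fin (M + 1) ≃ Ix g) (Q : Fin d → Fin d → ℂ) {t : ℂ} (ht : t ≠ 0)
    (halg : ∀ a, IsAlgebraic ℚ (th τ 0 a / t)) (z₀ w₀ : V d) : ∃ (k : ℕ × ℕ)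
      (B' : Fin (M + 1) → MvPolynomial (Fin (M + 1) ⊕ Fin (M + 1)) ℂ),
      (∀ i, (B' i).IsWeightedHomogeneous (Sum.elim (fun _ => (1, 0)) (fun _ => (0, 1))) k ∧
        AlgCoeff (B' i)) ∧
      (fun i => eval (Sum.elim (tt τ b σ Q t z₀) (tt τ b σ Q t w₀)) (B' i)) ≠ 0 ∧
      ∀ z w, ∃ c : ℂ, (fun i => eval (Sum.elim (tt τ b σ Q t z) (tt τ b σ Q t w)) (B' i)) =
        c • tt τ b σ Q t (z + w) := by
  obtain ⟨a', ha'⟩ := Function.ne_iff.1 (tt_ne hnz b σ Q ht (z₀ - w₀))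
  have key : ∀ z w, (fun i => eval (Sum.elim (tt τ b σ Q t z) (tt τ b σ Q t w))
      (bb σ t B i a')) = tt τ b σ Q t (z - w) a' • tt τ b σ Q t (z + w) := by
    intro z w
    funext i
    rw [← tt_add2 hB b σ Q ht, mul_comm]
    rfl
  refine ⟨(2, 2), fun i => bb σ t B i a', fun i => ⟨bb_wh hB σ t i a', bb_alg hB σ ht halg i a'⟩,
    ?_, fun z w => ⟨_, key z w⟩⟩
  rw [key]
  exact smul_ne_zero ha' (tt_ne hnz b σ Q ht _)

theorem tt_cone (τ : Mat g) (b : V d →L[ℂ] V g) (σ : Fin (M + 1) ≃ Ix g)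
    (Q : Fin d → Fin d → ℂ) {t : ℂ} (ht : t ≠ 0) :
    {x | ∃ (c : ℂ) (z : V d), x = c • fun i => th τ (b z) (σ i)} =
      {x | ∃ (c : ℂ) (z : V d), x = c • tt τ b σ Q t z} := by
  ext x
  constructor
  · rintro ⟨c, z, rfl⟩
    refine ⟨c * (sf Q t z)⁻¹, z, ?_⟩
    unfold tt
    rw [smul_smul, inv_mul_cancel_right₀ (sf_ne Q ht z)]
  · rintro ⟨c, z, rfl⟩
    exact ⟨c * sf Q t z, z, smul_smul _ _ _⟩

theorem tt_law {τ : Mat g} (hτ : Sg τ) (b : V d →L[ℂ] V g) (σ : Fin (M + 1) ≃ Ix g)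
    (Q : Fin d → Fin d → ℂ) (t : ℂ) (p : Zg g) (l z : V d) (hp : b l = per τ (cst p)) :
    tt τ b σ Q t (z + l) =
      (ee τ ((4 : ℤ) • p) (b z) * cexp (qd Q (z + l) - qd Q z)) • tt τ b σ Q t z := by
  unfold tt
  rw [map_add, hp, ← law'.tor_four, law'.law g τ hτ, law'.hh_four, sf_add]
  funext i
  simp only [Pi.smul_apply, smul_eq_mul]
  ring

theorem tt_inj {τ : Mat g} (hτ : Sg τ) (b : V d →L[ℂ] V g) (σ : Fin (M + 1) ≃ Ix g)
    (Q : Fin d → Fin d → ℂ) {t : ℂ} (ht : t ≠ 0) (z w : V d) (c : ℂ)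
    (h : tt τ b σ Q t z = c • tt τ b σ Q t w) : z - w ∈ lat τ b := by
  have h0 : (fun i => th τ (b z) (σ i)) =
      ((sf Q t z)⁻¹ * (c * sf Q t w)) • fun i => th τ (b w) (σ i) := by
    unfold tt at h
    rw [← smul_smul, ← smul_smul, ← h, inv_smul_smul₀ (sf_ne Q ht z)]
  have h1 := (comp_iff σ _ _ (th τ (b w))).2 h0
  rw [comp_symm] at h1
  obtain ⟨p, hp⟩ := geo'.inj g τ hτ _ _ _ h1
  exact ⟨p, (map_sub b z w).trans hp⟩

end VarBAux

open VarBAux GB GB.VarAux in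
theorem varB : VarBS := by
  intro g d τ b a₀ Q h S hτ hb h0 halg htan hS hz hlaw
  obtain ⟨M, σ, hσ⟩ := exists_equiv a₀
  obtain ⟨B, hB⟩ := add' g τ hτ
  have hd := (law'.holu g τ hτ).1
  have hR : Function.Bijective (perR τ) := law'.per_real g τ hτ
  have hnz := geo'.nz g τ hτ
  subst hσ
  have hL : ∀ l ∈ lat τ b, ∀ z, tt τ b σ Q (th τ 0 (σ 0)) (z + l) =
      cexp (hc h l ⬝ᵥ z + qf h l) • tt τ b σ Q (th τ 0 (σ 0)) z := by
    rintro l ⟨p, hp⟩ z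
    rw [tt_law hτ b σ Q _ p l z hp, hlaw p l z hp]
  have hq : ∀ i, (fun z => tt τ b σ Q (th τ 0 (σ 0)) z i / tt τ b σ Q (th τ 0 (σ 0)) z 0) =
      fun z => th τ (b z) (σ i) / th τ (b z) (σ 0) :=
    fun i => funext fun z => tt_div τ b σ Q h0 z i 0
  have hq' : (fun z i => tt τ b σ Q (th τ 0 (σ 0)) z i / tt τ b σ Q (th τ 0 (σ 0)) z 0) =
      fun z i => th τ (b z) (σ i) / th τ (b z) (σ 0) :=
    funext fun z => funext fun i => tt_div τ b σ Q h0 z i 0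
  refine ⟨M, σ,
    { Λ := lat τ b
      discrete := lat_discrete τ b hb.1 hR
      span_top := lat_span τ b hb hR
      θ := tt τ b σ Q (th τ 0 (σ 0))
      holo := tt_diff hd b σ Q _
      ne_zero := tt_ne hnz b σ Q h0
      theta := fun l hl => ⟨dotL (hc h l), qf h l, hL l hl⟩
      inj := tt_inj hτ b σ Q h0
      image := ?_
      add := tt_add hnz hB b σ Q h0 halg
      origin := ?_
      origin_alg := ?_
      tangent_alg := ?_
      immersion := ?_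
      H := hcL h
      β := fun l => qf h l
      law := hL
      B := bb σ (th τ 0 (σ 0)) B
      scal := bb_scal hB σ _
      add2 := tt_add2 hB b σ Q h0 },
    rfl, fun _ => Iff.rfl, fun _ _ => rfl, fun _ => rfl, fun _ => rfl, bb_alg hB σ h0 halg⟩
  · rw [← tt_cone τ b σ Q h0]
    exact image_law b hb.2 σ hS hz
  · refine mul_ne_zero (sf_ne Q h0 0) ?_
    show th τ (b 0) (σ 0) ≠ 0
    rw [map_zero]
    exact h0
  · intro i
    rw [tt_div τ b σ Q h0, map_zero]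
    exact halg _
  · intro i j
    rw [hq, (quot_deriv hd b (σ i) (σ 0) h0).2 (Pi.single j 1)]
    exact htan (σ i) j
  · rw [hq']
    refine (injective_iff_map_eq_zero _).2 fun w hw => ?_
    rw [fderiv_pi fun i => (quot_deriv hd b (σ i) (σ 0) h0).1] at hw
    refine hb.1 ((xhol'.neom' g τ (b w) (σ 0) hτ h0 fun a => ?_).trans b.map_zero.symm)
    have h1 : fderiv ℂ (fun z => th τ (b z) (σ (σ.symm a)) / th τ (b z) (σ 0)) 0 w = 0 :=
      congrFun hw (σ.symm a)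
    rw [σ.apply_symm_apply, (quot_deriv hd b a (σ 0) h0).2 w] at h1
    exact (div_eq_zero_iff.1 h1).resolve_right (pow_ne_zero 2 h0)

end Pool.Agent.Lib.MP_caab05_ag.WZ
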