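import Mathlib
import Pool.Agent.Lib.MP_caab05_ag.WZ.Stmt
import Pool.Agent.Lib.MP_caab05_ag.GB.Levels2

/-! The periods of all types move like the integrals; the final assembly. -/

namespace Pool.Agent.Lib.MP_caab05_ag.WZ

open Complex Pool.Agent.Lib.MP_caab05_ag.GB

open CurveAux CuTw2Aux Classical in
theorem curve3 : Curve3S := by
  have h6 := mod'
  have h7 := ell'
  have h8 := cuA
  have h9 : CuTw2S := cuTw2 osg pol twc' law' geo' xhol' cuA (cuRel2 rel' law' geo' cuA cuB')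
  intro n L _ _ c ζ D μ hr hc hζ hD
  have hp : ∀ φ : Emb L, IsPrimitiveRoot (φ ζ) (2 * n) := fun φ =>
    hζ.map_of_injective φ.injective
  have hT : IsType {ψ : Emb L | 0 < (ψ ζ).im} := by
    intro φ
    have h0 := (exists_exp2 hr (hp φ)).1
    simp only [Set.mem_ofPred_eq, cj, NumberField.ComplexEmbedding.conjugate_coe_eq, conj_im,
      not_lt]
    exact ⟨fun h => by linarith, fun h => lt_of_le_of_ne (by linarith) h0.symm⟩
  refine ⟨hT, ?_⟩
  set Φ : Set (Emb L) := {ψ : Emb L | 0 < (ψ ζ).im} with hΦ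
  obtain ⟨g, τ, v, hm⟩ := h6 L c Φ hc hT
  obtain ⟨M, N, c', htw, hper, hM⟩ := h7.still L c Φ D g τ v hc hT hm
  choose t ht1 ht2 ht3 using fun φ : Φ => (exists_exp2 hr (hp φ)).2 φ.2
  have hn0 : 0 < n := by omega
  obtain ⟨N0, hN0, hden⟩ := exists_den
    (fun x : Fin (2 * n) × Bool => ∑ φ : Emb L,
      φ (ζ ^ (x.1 : ℕ) * if x.2 then 1 else 2 * ζ / (1 + ζ)) • v φ) fun x => hm.rat _
  have hB : ∀ φ : Φ, (BB (2 * n) (t φ) : ℂ) ≠ 0 := fun φ =>
    ofReal_ne_zero.2 (h8.pos _ _ (by omega) (ht1 φ).pos).ne'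
  have hlat : ∀ (j : ℕ) (b : Bool), ∃ p, ∑ φ : Φ,
      ((N0 : ℂ) * φ.1 (ζ ^ j * if b then 1 else 2 * ζ / (1 + ζ))) • per τ (v φ) =
        per τ (cst p) := by
    intro j b
    obtain ⟨p, hp'⟩ := hden (⟨j % (2 * n), Nat.mod_lt _ (by omega)⟩, b)
    refine ⟨p, ?_⟩
    have e : ζ ^ (j % (2 * n)) = ζ ^ j := by
      conv_rhs => rw [← Nat.div_add_mod j (2 * n), pow_add, pow_mul, hζ.pow_eq_one, one_pow,
        one_mul]
    simp only [e, Finset.smul_sum, smul_smul] at hp'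
    rw [← hp', per_sum hm]
  have hAJ : IsAJ2 n τ t fun φ : Φ => ((N0 : ℂ) / BB (2 * n) (t φ)) • per τ (v φ) := by
    refine ⟨hm.sg, ht1, ht2, hn0, fun j => ?_, fun j => ?_⟩
    · obtain ⟨p, hp'⟩ := hlat j true
      refine ⟨p, ?_⟩
      rw [← hp']
      refine Finset.sum_congr rfl fun φ _ => ?_
      rw [smul_smul]
      congr 1
      have := hB φ
      simp only [if_true, mul_one, map_pow, ht3 φ]
      rw [← pow_mul, mul_comm (t φ) j]
      field_simp
    · obtain ⟨p, hp'⟩ := hlat j false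
      refine ⟨p, ?_⟩
      rw [← hp']
      refine Finset.sum_congr rfl fun φ _ => ?_
      rw [smul_smul]
      congr 1
      have := hB φ
      simp only [Bool.false_eq_true, if_false, map_mul, map_pow, map_div₀, map_add, map_one,
        map_ofNat, ht3 φ]
      rw [← pow_mul, mul_comm (t φ) j]
      field_simp
  have key := h9 g Φ n τ t _ D M N c' hAJ htw
  have key2 : per τ (∑ φ : Emb L, ((N0 : ℂ) * (ell D Φ φ - μ)) • v φ) = 0 := by
    rw [per_sum hm, ← key]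
    refine Finset.sum_congr rfl fun φ _ => ?_
    have hb0 := hB φ
    have e : (fun k => D ((((N0 : ℂ) / BB (2 * n) (t φ)) • per τ (v φ)) k)) =
        (-(μ * N0 / BB (2 * n) (t φ))) • per τ (v φ) := by
      funext k
      have hb : D (BB (2 * n) (t φ) : ℂ) = μ * BB (2 * n) (t φ) := hD _ (ht1 φ).pos (ht2 φ)
      simp only [Pi.smul_apply, smul_eq_mul, Derivation.leibniz, hper, Derivation.leibniz_div, hb,
        Derivation.map_intCast, mul_zero, zero_add]
      field_simp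
      ring
    rw [e, app_smul, hM, smul_smul, ← add_smul, smul_smul]
    congr 1
    field_simp
    ring
  intro φ hφ
  have hφ' : φ ∈ Φ := hφ
  rw [elt, if_pos hφ']
  exact sub_eq_zero.1
    ((mul_eq_zero.1 ((hm.ker _).1 key2 φ hφ')).resolve_left (Int.cast_ne_zero.2 hN0))

namespace KeyAux

variable {L : Type} [Field L] [NumberField L]

omit [NumberField L] in
theorem cj_cj (φ : Emb L) : cj (cj φ) = φ := NumberField.ComplexEmbedding.involutive_conjugate L φ

omit [NumberField L] in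
theorem cj_inj {φ ψ : Emb L} : cj φ = cj ψ ↔ φ = ψ :=
  (NumberField.ComplexEmbedding.involutive_conjugate L).injective.eq_iff

omit [NumberField L] in
theorem cj_eq {φ ψ : Emb L} : cj φ = ψ ↔ φ = cj ψ := by
  constructor
  · rintro rfl
    exact (cj_cj φ).symm
  · rintro rfl
    exact cj_cj ψ

theorem comp_inj (σ : L ≃ₐ[ℚ] L) {φ ψ : Emb L} :
    φ.comp (σ : L →+* L) = ψ.comp (σ : L →+* L) ↔ φ = ψ :=
  RingHom.cancel_right σ.surjective

theorem cj_comp (σ : L ≃ₐ[ℚ] L) (φ : Emb L) :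
    cj (φ.comp (σ : L →+* L)) = (cj φ).comp (σ : L →+* L) := rfl

open Classical in
/-- the signed point mass -/
noncomputable def sgn (φ ψ : Emb L) : ℂ := (if ψ = φ then 1 else 0) - if ψ = cj φ then 1 else 0

omit [NumberField L] in
theorem sgn_cj (φ ψ : Emb L) : sgn φ (cj ψ) = -sgn φ ψ := by
  classical
  unfold sgn
  rw [if_congr (cj_eq (φ := ψ) (ψ := φ)) rfl rfl, if_congr (cj_inj (φ := ψ) (ψ := φ)) rfl rfl,
    neg_sub]

theorem sgn_comp (σ : L ≃ₐ[ℚ] L) (φ ψ : Emb L) :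
    sgn (φ.comp (σ : L →+* L)) (ψ.comp (σ : L →+* L)) = sgn φ ψ := by
  classical
  unfold sgn
  rw [cj_comp, if_congr (comp_inj σ) rfl rfl, if_congr (comp_inj σ) rfl rfl]

open Classical in
theorem sum_sgn (T : Set (Emb L)) (q : Emb L → ℂ) (μ : ℂ) (φ : Emb L) :
    ∑ ψ : Emb L, T.indicator (fun ψ => q ψ - μ * sgn φ ψ) ψ =
      ∑ ψ : Emb L, T.indicator q ψ -
        μ * ((if φ ∈ T then 1 else 0) - if cj φ ∈ T then 1 else 0) := by
  have e : ∀ ψ, T.indicator (fun ψ => q ψ - μ * sgn φ ψ) ψ = T.indicator q ψ -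
      μ * ((if ψ = φ then (if ψ ∈ T then 1 else 0) else 0) -
        if ψ = cj φ then (if ψ ∈ T then 1 else 0) else 0) := by
    intro ψ
    by_cases h : ψ ∈ T
    · simp only [Set.indicator_of_mem h, sgn, h, if_true]
    · simp only [Set.indicator_of_notMem h, h, if_false, ite_self, sub_self, mul_zero]
  simp only [e, Finset.sum_sub_distrib, ← Finset.mul_sum, Finset.sum_ite_eq', Finset.mem_univ,
    if_true]

end KeyAux

open KeyAux in
theorem keyS (h : Curve3S) : KeyS := by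
  intro n L _ _ _ c D μ hn hc hrk hB Ψ hΨ φ hφ
  have : NeZero (2 * n) := ⟨by omega⟩
  have hζ := IsCyclotomicExtension.zeta_spec (2 * n) ℚ L
  set ζ := IsCyclotomicExtension.zeta (2 * n) ℚ L
  obtain ⟨q, q1, q2, q3⟩ := aff L c (elt D) hc hrk (shi' L c D hc)
    (fun Ψ σ ψ => ell'.eqv L Ψ D σ ψ) (fun Ψ hΨ ψ => ell'.odd L Ψ D hΨ ψ)
  have h0 := charS nonv n L ζ (fun φ ψ => q φ ψ - μ * sgn φ ψ) hn hζ
    (fun φ ψ => by
      simp only [q1, sgn_cj]
      ring)
    (fun σ φ ψ => by simp only [q2, sgn_comp])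
    (fun e m hm hem ψ => by
      have he0 : 0 < e := Nat.pos_of_ne_zero (by rintro rfl; omega)
      have hem' : 2 * n = e * (2 * m) := by rw [← hem]; ring
      obtain ⟨c1, c2⟩ := h m L c (ζ ^ e) D μ hm hc (hζ.pow (by omega) hem') fun t ht ht' => by
        have h1 := hB _ (Nat.mul_pos he0 ht) (hem ▸ Nat.mul_lt_mul_of_pos_left ht' he0)
        have he' : (e : ℝ) ≠ 0 := by exact_mod_cast he0.ne'
        have h2 : BB (2 * m) t = e * BB (e * (2 * m)) (e * t) := by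
          rw [(bet cuA cuB').scale e (2 * m) t he0 (by omega) ht]
          field_simp
        rw [hem'] at h1
        rw [h2, Complex.ofReal_mul, Complex.ofReal_natCast, D.leibniz, h1, D.map_natCast]
        simp only [smul_eq_mul]
        ring
      rw [sum_sgn, ← q3 _ c1]
      by_cases h1 : ψ ∈ {ψ : Emb L | 0 < (ψ (ζ ^ e)).im}
      · rw [if_pos h1, if_neg ((c1 ψ).1 h1), c2 ψ h1]
        ring
      · have h2 : cj ψ ∈ {ψ : Emb L | 0 < (ψ (ζ ^ e)).im} := by
          by_contra h'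
          exact h1 ((c1 ψ).2 h')
        have h3 := ell'.odd L _ D c1 ψ
        rw [c2 _ h2] at h3
        rw [if_neg h1, if_pos h2]
        linear_combination h3)
  have h1 := sum_sgn Ψ (q φ) μ φ
  rw [← q3 Ψ hΨ, if_pos hφ, if_neg ((hΨ φ).1 hφ),
    show (fun ψ => q φ ψ - μ * sgn φ ψ) = 0 from funext fun ψ => h0 φ ψ] at h1
  simp only [Set.indicator_zero', Pi.zero_apply, Finset.sum_const_zero] at h1
  linear_combination -h1

theorem tab (h1 : CMS) (h2 : KeyS) : TAB := by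
  intro n hN
  obtain ⟨F₀, F, hS, hF, htr⟩ := Final2Aux.exists_field
    {x : ℝ | ∃ t : ℕ, 0 < t ∧ t < n ∧ x = BB (2 * n) t ^ 2 / Real.pi}
  rw [← htr]
  have hn3 : 10 ≤ 2 * n := hN.trans (Nat.totient_le _)
  have : NeZero (2 * n) := ⟨by omega⟩
  let L : Type := CyclotomicField (2 * n) ℚ
  have : IsCyclotomicExtension {2 * n} ℚ L := CyclotomicField.isCyclotomicExtension _ _
  have hζ := IsCyclotomicExtension.zeta_spec (2 * n) ℚ L
  obtain ⟨hrk, ⟨c, hc, hc1⟩, htrans, hcomm, -⟩ := cyc2 (2 * n) L _ (by omega) hζ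
  obtain ⟨Φ, e, hΦ, he, hrange, hsep, hcard⟩ := pair2 n L c hc hc1 hN hrk htrans hcomm
  rw [← hrk]
  refine h1 L c Φ e hc hc1 hΦ he hrange htrans hcomm hsep hcard F fun D hD => ?_
  have hpi : (Real.pi : ℂ) ≠ 0 := ofReal_ne_zero.2 Real.pi_ne_zero
  have e0 : D Real.pi = 2 * (D Real.pi / (2 * Real.pi)) * Real.pi := by field_simp
  refine ⟨D Real.pi / (2 * Real.pi), e0, fun i =>
    h2 n L c D _ (by omega) hc (by omega) (fun t ht ht' => ?_) (Φ i) (hΦ i)⟩
  have hb : (BB (2 * n) t : ℂ) ≠ 0 := ofReal_ne_zero.2 (cuA.pos _ _ (by omega) ht).ne'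
  have h3 := hD _ (hF _ (isAlgebraic_algebraMap (R := F₀) ⟨_, hS _ ⟨t, ht, ht', rfl⟩⟩))
  have h4 : D (((BB (2 * n) t ^ 2 / Real.pi : ℝ) : ℂ)) = 0 := h3
  have h5 : (BB (2 * n) t : ℂ) * BB (2 * n) t =
      ((BB (2 * n) t ^ 2 / Real.pi : ℝ) : ℂ) * Real.pi := by
    push_cast
    field_simp
  have h6 := congrArg D h5
  rw [D.leibniz, D.leibniz, h4] at h6
  simp only [smul_eq_mul, mul_zero, add_zero] at h6
  push_cast at h6
  refine mul_left_cancel₀ (mul_ne_zero two_ne_zero hb) ?_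
  rw [show 2 * (BB (2 * n) t : ℂ) * D (BB (2 * n) t) =
    BB (2 * n) t * D (BB (2 * n) t) + BB (2 * n) t * D (BB (2 * n) t) by ring, h6]
  field_simp

end Pool.Agent.Lib.MP_caab05_ag.WZ
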