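import Mathlib
import Pool.Agent.Lib.MP_caab05_ag.WZ.Stmt

/-! The jets of the auxiliary function are forms. -/

namespace Pool.Agent.Lib.MP_caab05_ag.WZ

open MvPolynomial Complex
open Pool.Agent.Lib.MP_caab05_ag.LT (val)

namespace JetAux

lemma val_map {σ τ K : Type} [CommRing K] (Q : Polynomial (MvPolynomial σ ℤ))
    (g : σ → MvPolynomial τ ℤ) (c : K) (x : τ → K) :
    val (Q.map (eval₂Hom C g)) c x = val Q c fun s => aeval x (g s) := by
  unfold val
  rw [Polynomial.eval₂_map]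
  congr 1
  ext s <;> simp [aeval_def]

lemma val_int_mul {σ K : Type} [CommRing K] (Q : Polynomial (MvPolynomial σ ℤ))
    (r : ℤ) (c : K) (x : σ → K) :
    val (Polynomial.C (C r) * Q) c x = (r : K) * val Q c x := by
  unfold val
  rw [Polynomial.eval₂_mul, Polynomial.eval₂_C, eval₂Hom_C]
  rfl

lemma val_sum {σ K ι : Type} [CommRing K] [Fintype ι] (Q : ι → Polynomial (MvPolynomial σ ℤ))
    (c : K) (x : σ → K) : val (∑ i, Q i) c x = ∑ i, val (Q i) c x := by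
  unfold val
  rw [Polynomial.eval₂_finsetSum]

variable {κ : Type}

/-- the substitution which kills the last variables -/
noncomputable def gg (κ : Type) : (κ ⊕ κ) ⊕ Option κ → MvPolynomial (κ ⊕ κ) ℤ :=
  Sum.elim X fun _ => 0

/-- extension by zero -/
def ex (w : EE κ) : (κ ⊕ κ) ⊕ Option κ → ℂ := Sum.elim w fun _ => 0

/-- the second direction -/
def vv (s : κ → ℕ) : (κ ⊕ κ) ⊕ Option κ → ℕ := Sum.elim (fun _ => 0) fun o => o.elim 1 s

lemma aeval_gg (w : EE κ) : (fun s => aeval w (gg κ s)) = ex w := by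
  funext s
  rcases s with s | s <;> simp [gg, ex]

lemma ex_smul (l : ℂ) (w : EE κ) : ex (l • w) = l • ex w := by
  funext s
  rcases s with s | s <;> simp [ex]

lemma vv_le {s : κ → ℕ} {m : ℕ} (hm : 1 ≤ m) (hs : ∀ k, s k ≤ m) (k) : vv s k ≤ m := by
  rcases k with k | (_ | k)
  · simp [vv]
  · simpa [vv] using hm
  · simpa [vv] using hs k

variable [Fintype κ]

lemma norm_ex (w : EE κ) : ‖ex w‖ ≤ ‖w‖ := by
  refine (pi_norm_le_iff_of_nonneg (norm_nonneg w)).2 fun s => ?_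
  rcases s with s | s
  · exact norm_le_pi_norm w s
  · simp [ex]

lemma ker_eq (θ : (κ → ℂ) → ℂ) (w : EE κ) (s : κ → ℕ) (σ τ : ℂ) :
    ker θ (σ • ex w + τ • fun k => (vv s k : ℂ)) =
      cexp τ * psi θ (σ • w) (τ • fun k => (s k : ℂ)) := by
  unfold ker
  congr 2
  · simp [ex, vv]
  · funext m
    simp [ex, vv]
  · funext k
    simp [ex, vv]

/-- the combined polynomial -/
noncomputable def comb {ι : Type} [Fintype ι] (p : ι → ℤ)
    (Q : ι → Polynomial (MvPolynomial ((κ ⊕ κ) ⊕ Option κ) ℤ)) :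
    Polynomial (MvPolynomial (κ ⊕ κ) ℤ) :=
  ∑ i, Polynomial.C (C (p i)) * (Q i).map (eval₂Hom C (gg κ))

omit [Fintype κ] in
lemma val_comb {ι : Type} [Fintype ι] (p : ι → ℤ)
    (Q : ι → Polynomial (MvPolynomial ((κ ⊕ κ) ⊕ Option κ) ℤ)) (c : ℂ) (w : EE κ) :
    val (comb p Q) c w = ∑ i, (p i : ℂ) * val (Q i) c (ex w) := by
  unfold comb
  rw [val_sum]
  refine Finset.sum_congr rfl fun i _ => ?_
  rw [val_int_mul, val_map, aeval_gg]

lemma jet_sum {ι : Type} [Fintype ι] (p : ι → ℂ) (f : ι → EE κ → ℂ)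
    (hf : ∀ i, Differentiable ℂ (f i)) (n : ℕ) (w : EE κ) :
    iteratedDeriv n (fun σ : ℂ => ∑ i, p i * f i (σ • w)) 0 =
      ∑ i, p i * iteratedDeriv n (fun σ : ℂ => f i (σ • w)) 0 := by
  have hd : ∀ i, ContDiff ℂ n fun σ : ℂ => f i (σ • w) := fun i =>
    ((hf i).comp (differentiable_id.smul_const w)).contDiff
  rw [iteratedDeriv_fun_sum fun i _ => (contDiff_const.mul (hd i)).contDiffAt]
  refine Finset.sum_congr rfl fun i _ => ?_
  rw [iteratedDeriv_const_mul_field]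

end JetAux

open JetAux in
theorem jetS (h1 : LanS) (h2 : OdeNS) (h3 : OdeKS) (h4 : Jet2S) : JetS := by
  intro κ _ θ hθ hO
  obtain ⟨c, a, a', C₀, hc, ha, ha', hC, H⟩ := h4 _ (ker θ) (h2 _ _ (h3 κ θ hO))
  obtain ⟨C₁, g0, g1, g2⟩ : ∃ C₁ : ℝ, C₀ ≤ C₁ ∧ (a : ℝ) ≤ C₁ ∧ (a' : ℝ) ≤ C₁ :=
    ⟨max C₀ (max a a'), le_max_left _ _, (le_max_left _ _).trans (le_max_right _ _),
      (le_max_right _ _).trans (le_max_right _ _)⟩
  refine ⟨c, C₁, hc, hC.trans g0, ?_⟩
  intro ι _ s p D n m B hm hs hB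
  choose Q hQ1 hQ2 hQ3 using fun i => H D n m (vv (s i)) hm (vv_le hm (hs i))
  have hC0 : (0 : ℝ) ≤ C₀ := zero_le_one.trans hC
  refine ⟨comb p Q, (a : ℂ) * (a' : ℂ) ^ (D + n), ?_, ?_, ?_, ?_, ?_⟩
  · exact mul_ne_zero (Nat.cast_ne_zero.2 ha.ne') (pow_ne_zero _ (Nat.cast_ne_zero.2 ha'.ne'))
  · rw [norm_mul, norm_pow, Complex.norm_natCast, Complex.norm_natCast, pow_succ' C₁]
    gcongr
    exact hC0.trans g0
  · intro w
    beta_reduce
    rw [val_comb, jet_sum (fun i => (p i : ℂ)) (fun i => col θ D fun k => (s i k : ℂ))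
      (fun i => h1.diff κ θ hθ D _ (h1.mem κ θ hθ D _)), Finset.mul_sum]
    refine Finset.sum_congr rfl fun i _ => ?_
    rw [hQ1 i]
    simp only [ker_eq]
    unfold col
    ring
  · intro c' hc' w
    have hB0 : 0 ≤ B := (Finset.sum_nonneg fun i _ => abs_nonneg _).trans hB
    have hb : ∀ i, ‖val (Q i) c' (ex w)‖ ≤
        C₁ * (C₁ * m * (D + 1)) ^ D * (C₁ * (n + 1)) ^ n * ‖w‖ ^ n := fun i => by
      refine (hQ2 i c' hc' (ex w)).trans ?_
      have := norm_ex w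
      have := hC0.trans g0
      gcongr
    have hK : 0 ≤ C₁ * (C₁ * m * (D + 1)) ^ D * (C₁ * (n + 1)) ^ n * ‖w‖ ^ n := by
      have := hC0.trans g0
      positivity
    rw [val_comb]
    calc ‖∑ i, (p i : ℂ) * val (Q i) c' (ex w)‖
        ≤ ∑ i, |(p i : ℝ)| * (C₁ * (C₁ * m * (D + 1)) ^ D * (C₁ * (n + 1)) ^ n * ‖w‖ ^ n) := by
          refine (norm_sum_le _ _).trans (Finset.sum_le_sum fun i _ => ?_)
          rw [norm_mul, Complex.norm_intCast]
          exact mul_le_mul_of_nonneg_left (hb i) (abs_nonneg _)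
      _ ≤ B * (C₁ * (C₁ * m * (D + 1)) ^ D * (C₁ * (n + 1)) ^ n * ‖w‖ ^ n) := by
          rw [← Finset.sum_mul]
          exact mul_le_mul_of_nonneg_right hB hK
      _ = _ := by ring
  · intro c' l w
    rw [val_comb, val_comb, Finset.mul_sum]
    refine Finset.sum_congr rfl fun i _ => ?_
    rw [ex_smul, hQ3 i]
    ring

end Pool.Agent.Lib.MP_caab05_ag.WZ
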