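import Mathlib
import Pool.Agent.Lib.MP_caab05_ag.WZ.AllA
import Pool.Agent.Lib.MP_caab05_ag.WZ.CM
import Pool.Agent.Lib.MP_caab05_ag.WZ.Gen
import Pool.Agent.Lib.MP_caab05_ag.WZ.Key
import Pool.Agent.Lib.MP_caab05_ag.WZ.OdeV
import Pool.Agent.Lib.MP_caab05_ag.WZ.QTw
import Pool.Agent.Lib.MP_caab05_ag.WZ.Var3
import Pool.Agent.Lib.MP_caab05_ag.WZ.VarA
import Pool.Agent.Lib.MP_caab05_ag.WZ.VarB
import Pool.Agent.Lib.MP_caab05_ag.LR.Level

/-! The weight zero theorem, without hypotheses. -/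

namespace Pool.Agent.Lib.MP_caab05_ag.WZ

theorem cmS' : CMS := cmS mainA' brS' odeV (var3 qTw (varA varB)) gen4 latS

theorem tab' : TAB := tab cmS' (keyS curve3)

theorem ta : LR.TA := LR.TA_of_even tab'

end Pool.Agent.Lib.MP_caab05_ag.WZ
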